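import Mathlib

set_option autoImplicit false

/-!
Finite Shannon entropy for the uniform distribution on a finset, written with setoids.
All quantities are multiplied by the number of points.
-/

namespace Pool.Agent.Lib.MP_ed49ca_nt

open Finset Classical

variable {α : Type*}

/-- size of the class of `a` inside `Ω` -/
noncomputable def cls (Ω : Finset α) (s : Setoid α) (a : α) : ℕ :=
  (Ω.filter (fun b => s.r a b)).card

/-- sum of logarithms of the class sizes -/
noncomputable def E (Ω : Finset α) (s : Setoid α) : ℝ :=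
  ∑ a ∈ Ω, Real.log (cls Ω s a)

/-- unnormalised conditional entropy `H(r | s)` -/
noncomputable def H (Ω : Finset α) (r s : Setoid α) : ℝ :=
  E Ω s - E Ω (s ⊓ r)

theorem inf_r {s t : Setoid α} {a b : α} : (s ⊓ t).r a b ↔ s.r a b ∧ t.r a b := Iff.rfl

theorem cls_pos {Ω : Finset α} (s : Setoid α) {a : α} (ha : a ∈ Ω) : 0 < cls Ω s a := by
  unfold cls
  apply Finset.card_pos.mpr
  exact ⟨a, by simp [ha, s.iseqv.refl a]⟩

theorem cls_mono {Ω : Finset α} {s t : Setoid α} (h : s ≤ t) (a : α) :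
    cls Ω s a ≤ cls Ω t a := by
  unfold cls
  apply Finset.card_le_card
  intro b hb
  simp only [Finset.mem_filter] at hb ⊢
  exact ⟨hb.1, h hb.2⟩

theorem cls_congr {Ω : Finset α} (s : Setoid α) {a b : α} (h : s.r a b) :
    cls Ω s a = cls Ω s b := by
  unfold cls
  congr 1
  ext c
  simp only [Finset.mem_filter]
  constructor
  · rintro ⟨h1, h2⟩
    exact ⟨h1, s.iseqv.trans (s.iseqv.symm h) h2⟩
  · rintro ⟨h1, h2⟩
    exact ⟨h1, s.iseqv.trans h h2⟩

theorem E_mono {Ω : Finset α} {s t : Setoid α} (h : s ≤ t) : E Ω s ≤ E Ω t := by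
  unfold E
  apply Finset.sum_le_sum
  intro a ha
  apply Real.log_le_log
  · exact_mod_cast cls_pos s ha
  · exact_mod_cast cls_mono h a

theorem H_nonneg (Ω : Finset α) (r s : Setoid α) : 0 ≤ H Ω r s := by
  unfold H
  have := E_mono (Ω := Ω) (inf_le_left : s ⊓ r ≤ s)
  linarith

theorem H_chain (Ω : Finset α) (r₁ r₂ s : Setoid α) :
    H Ω (r₁ ⊓ r₂) s = H Ω r₁ s + H Ω r₂ (s ⊓ r₁) := by
  unfold H
  rw [inf_assoc]
  ring

/-- the key double counting -/
theorem sum_ratio_le (Ω : Finset α) (s t r : Setoid α) :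
    ∑ a ∈ Ω, ((cls Ω (s ⊓ t) a : ℝ) * cls Ω (s ⊓ r) a) /
      ((cls Ω s a : ℝ) * cls Ω (s ⊓ t ⊓ r) a) ≤ Ω.card := by
  have e1 : ∀ a ∈ Ω, ((cls Ω (s ⊓ t) a : ℝ) * cls Ω (s ⊓ r) a) /
      ((cls Ω s a : ℝ) * cls Ω (s ⊓ t ⊓ r) a) =
      ∑ u ∈ Ω, ∑ v ∈ Ω, (if (s ⊓ t).r a u ∧ (s ⊓ r).r a v then
        1 / ((cls Ω s a : ℝ) * cls Ω (s ⊓ t ⊓ r) a) else 0) := by
    intro a _
    have h1 : (cls Ω (s ⊓ t) a : ℝ) = ∑ u ∈ Ω, (if (s ⊓ t).r a u then (1 : ℝ) else 0) := by
      unfold cls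
      rw [Finset.card_filter]
      push_cast
      rfl
    have h2 : (cls Ω (s ⊓ r) a : ℝ) = ∑ v ∈ Ω, (if (s ⊓ r).r a v then (1 : ℝ) else 0) := by
      unfold cls
      rw [Finset.card_filter]
      push_cast
      rfl
    rw [h1, h2, Finset.sum_mul_sum, Finset.sum_div]
    apply Finset.sum_congr rfl
    intro u _
    rw [Finset.sum_div]
    apply Finset.sum_congr rfl
    intro v _
    by_cases hu : (s ⊓ t).r a u <;> by_cases hv : (s ⊓ r).r a v <;> simp [hu, hv]
  rw [Finset.sum_congr rfl e1, Finset.sum_comm]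
  have e2 : ∀ u ∈ Ω, ∑ a ∈ Ω, ∑ v ∈ Ω, (if (s ⊓ t).r a u ∧ (s ⊓ r).r a v then
        1 / ((cls Ω s a : ℝ) * cls Ω (s ⊓ t ⊓ r) a) else 0) ≤ 1 := by
    intro u hu
    rw [Finset.sum_comm]
    have e3 : ∀ v ∈ Ω, ∑ a ∈ Ω, (if (s ⊓ t).r a u ∧ (s ⊓ r).r a v then
        1 / ((cls Ω s a : ℝ) * cls Ω (s ⊓ t ⊓ r) a) else 0) ≤
        (if s.r u v then 1 / (cls Ω s u : ℝ) else 0) := by
      intro v _
      by_cases hex : ∃ a ∈ Ω, (s ⊓ t).r a u ∧ (s ⊓ r).r a v
      · obtain ⟨a₀, ha₀, h1, h2⟩ := hex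
        have huv : s.r u v := s.iseqv.trans (s.iseqv.symm h1.1) h2.1
        rw [if_pos huv]
        have hset : ∀ a, ((s ⊓ t).r a u ∧ (s ⊓ r).r a v) ↔ (s ⊓ t ⊓ r).r a₀ a := by
          intro a
          constructor
          · rintro ⟨h3, h4⟩
            exact ⟨⟨s.iseqv.trans h1.1 (s.iseqv.symm h3.1), t.iseqv.trans h1.2 (t.iseqv.symm h3.2)⟩,
              r.iseqv.trans h2.2 (r.iseqv.symm h4.2)⟩
          · rintro ⟨⟨h3, h4⟩, h5⟩
            exact ⟨⟨s.iseqv.trans (s.iseqv.symm h3) h1.1, t.iseqv.trans (t.iseqv.symm h4) h1.2⟩,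
              ⟨s.iseqv.trans (s.iseqv.symm h3) h2.1, r.iseqv.trans (r.iseqv.symm h5) h2.2⟩⟩
        have hval : ∀ a ∈ Ω, (if (s ⊓ t).r a u ∧ (s ⊓ r).r a v then
            1 / ((cls Ω s a : ℝ) * cls Ω (s ⊓ t ⊓ r) a) else 0) =
            (if (s ⊓ t ⊓ r).r a₀ a then
            1 / ((cls Ω s u : ℝ) * cls Ω (s ⊓ t ⊓ r) a₀) else 0) := by
          intro a _
          by_cases h : (s ⊓ t ⊓ r).r a₀ a
          · have h' := (hset a).mpr h
            rw [if_pos h, if_pos h', cls_congr s h'.1.1, cls_congr (s ⊓ t ⊓ r) h]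
          · have h' : ¬ ((s ⊓ t).r a u ∧ (s ⊓ r).r a v) := fun hh => h ((hset a).mp hh)
            rw [if_neg h, if_neg h']
        rw [Finset.sum_congr rfl hval, ← Finset.sum_filter, Finset.sum_const, nsmul_eq_mul]
        have hc : ((Ω.filter (fun a => (s ⊓ t ⊓ r).r a₀ a)).card : ℝ) = cls Ω (s ⊓ t ⊓ r) a₀ := rfl
        rw [hc]
        have p1 : (0 : ℝ) < cls Ω (s ⊓ t ⊓ r) a₀ := by exact_mod_cast cls_pos _ ha₀
        have p2 : (0 : ℝ) < cls Ω s u := by exact_mod_cast cls_pos _ hu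
        apply le_of_eq
        field_simp
      · have : ∀ a ∈ Ω, (if (s ⊓ t).r a u ∧ (s ⊓ r).r a v then
            1 / ((cls Ω s a : ℝ) * cls Ω (s ⊓ t ⊓ r) a) else 0) = 0 := by
          intro a ha
          rw [if_neg]
          intro hh
          exact hex ⟨a, ha, hh⟩
        rw [Finset.sum_congr rfl this, Finset.sum_const_zero]
        split_ifs
        · positivity
        · exact le_refl _
    refine (Finset.sum_le_sum e3).trans ?_
    rw [← Finset.sum_filter, Finset.sum_const, nsmul_eq_mul]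
    have hc : ((Ω.filter (fun a => s.r u a)).card : ℝ) = cls Ω s u := rfl
    rw [hc]
    have p2 : (0 : ℝ) < cls Ω s u := by exact_mod_cast cls_pos _ hu
    apply le_of_eq
    field_simp
  refine (Finset.sum_le_sum e2).trans ?_
  simp

theorem H_submod (Ω : Finset α) (r s t : Setoid α) : H Ω r (s ⊓ t) ≤ H Ω r s := by
  have key := sum_ratio_le Ω s t r
  unfold H E
  rw [← Finset.sum_sub_distrib, ← Finset.sum_sub_distrib]
  have h : ∑ a ∈ Ω, (Real.log (cls Ω (s ⊓ t) a) - Real.log (cls Ω (s ⊓ t ⊓ r) a)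
      - (Real.log (cls Ω s a) - Real.log (cls Ω (s ⊓ r) a))) ≤ 0 := by
    have h1 : ∀ a ∈ Ω, (Real.log (cls Ω (s ⊓ t) a) - Real.log (cls Ω (s ⊓ t ⊓ r) a)
      - (Real.log (cls Ω s a) - Real.log (cls Ω (s ⊓ r) a))) ≤
      ((cls Ω (s ⊓ t) a : ℝ) * cls Ω (s ⊓ r) a) /
      ((cls Ω s a : ℝ) * cls Ω (s ⊓ t ⊓ r) a) - 1 := by
      intro a ha
      have p1 : (0 : ℝ) < cls Ω (s ⊓ t) a := by exact_mod_cast cls_pos _ ha
      have p2 : (0 : ℝ) < cls Ω (s ⊓ r) a := by exact_mod_cast cls_pos _ ha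
      have p3 : (0 : ℝ) < cls Ω s a := by exact_mod_cast cls_pos _ ha
      have p4 : (0 : ℝ) < cls Ω (s ⊓ t ⊓ r) a := by exact_mod_cast cls_pos _ ha
      have := Real.log_le_sub_one_of_pos (div_pos (mul_pos p1 p2) (mul_pos p3 p4))
      rw [Real.log_div (mul_pos p1 p2).ne' (mul_pos p3 p4).ne', Real.log_mul p1.ne' p2.ne',
        Real.log_mul p3.ne' p4.ne'] at this
      linarith
    refine (Finset.sum_le_sum h1).trans ?_
    rw [Finset.sum_sub_distrib]
    simp only [Finset.sum_const, nsmul_eq_mul, mul_one]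
    linarith
  rw [Finset.sum_sub_distrib] at h
  linarith

theorem H_anti (Ω : Finset α) (r : Setoid α) {s s' : Setoid α} (h : s' ≤ s) :
    H Ω r s' ≤ H Ω r s := by
  have := H_submod Ω r s s'
  rwa [inf_eq_right.mpr h] at this

/-- if `r'` is determined by `s` and `r` then `H(r'|s) ≤ H(r|s)` -/
theorem H_le_of_det (Ω : Finset α) {r r' s : Setoid α} (h : s ⊓ r ≤ r') :
    H Ω r' s ≤ H Ω r s := by
  unfold H
  have := E_mono (Ω := Ω) (le_inf inf_le_left h : s ⊓ r ≤ s ⊓ r')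
  linarith

theorem H_eq_of_det (Ω : Finset α) {r r' s : Setoid α} (h : s ⊓ r ≤ r') (h' : s ⊓ r' ≤ r) :
    H Ω r' s = H Ω r s :=
  le_antisymm (H_le_of_det Ω h) (H_le_of_det Ω h')

theorem H_le_add (Ω : Finset α) (r s k : Setoid α) : H Ω r s ≤ H Ω r (s ⊓ k) + H Ω k s := by
  have h1 := H_chain Ω k r s
  have h2 : H Ω r s ≤ H Ω (k ⊓ r) s := H_le_of_det Ω (inf_le_right.trans inf_le_right)
  linarith

/-- number of values bounds the entropy -/
theorem H_le_log {β : Type*} (Ω : Finset α) (X : α → β) (s : Setoid α) (T : Finset β)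
    (hT : ∀ a ∈ Ω, X a ∈ T) : H Ω (Setoid.ker X) s ≤ Ω.card * Real.log T.card := by
  rcases Ω.eq_empty_or_nonempty with rfl | hne
  · simp [H, E]
  have hTpos : 0 < T.card := Finset.card_pos.mpr ⟨X hne.choose, hT _ hne.choose_spec⟩
  have hTpos' : (0 : ℝ) < T.card := by exact_mod_cast hTpos
  have key : ∑ a ∈ Ω, (cls Ω s a : ℝ) / ((cls Ω (s ⊓ Setoid.ker X) a : ℝ) * T.card) ≤ Ω.card := by
    have e1 : ∀ a ∈ Ω, (cls Ω s a : ℝ) / ((cls Ω (s ⊓ Setoid.ker X) a : ℝ) * T.card) =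
        ∑ u ∈ Ω, (if s.r a u then 1 / ((cls Ω (s ⊓ Setoid.ker X) a : ℝ) * T.card) else 0) := by
      intro a _
      rw [← Finset.sum_filter, Finset.sum_const, nsmul_eq_mul]
      have hc : ((Ω.filter (fun b => s.r a b)).card : ℝ) = cls Ω s a := rfl
      rw [hc]
      ring
    rw [Finset.sum_congr rfl e1, Finset.sum_comm]
    have e2 : ∀ u ∈ Ω, ∑ a ∈ Ω, (if s.r a u then
        1 / ((cls Ω (s ⊓ Setoid.ker X) a : ℝ) * T.card) else 0) ≤ 1 := by
      intro u _
      have e3 : ∑ a ∈ Ω, (if s.r a u then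
        1 / ((cls Ω (s ⊓ Setoid.ker X) a : ℝ) * T.card) else 0) =
        ∑ x ∈ T, ∑ a ∈ Ω.filter (fun a => X a = x), (if s.r a u then
        1 / ((cls Ω (s ⊓ Setoid.ker X) a : ℝ) * T.card) else 0) :=
        (Finset.sum_fiberwise_of_maps_to hT _).symm
      rw [e3]
      have e4 : ∀ x ∈ T, ∑ a ∈ Ω.filter (fun a => X a = x), (if s.r a u then
        1 / ((cls Ω (s ⊓ Setoid.ker X) a : ℝ) * T.card) else 0) ≤ 1 / (T.card : ℝ) := by
        intro x _
        by_cases hex : ∃ a ∈ Ω, X a = x ∧ s.r a u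
        · obtain ⟨a₀, ha₀, hx, hs⟩ := hex
          rw [Finset.sum_filter]
          have hval : ∀ a ∈ Ω, (if X a = x then (if s.r a u then
            1 / ((cls Ω (s ⊓ Setoid.ker X) a : ℝ) * T.card) else 0) else 0) =
            (if (s ⊓ Setoid.ker X).r a₀ a then
              1 / ((cls Ω (s ⊓ Setoid.ker X) a₀ : ℝ) * T.card) else 0) := by
            intro a _
            by_cases h : (s ⊓ Setoid.ker X).r a₀ a
            · have h1 : X a₀ = X a := h.2
              have h2 : s.r a u := s.iseqv.trans (s.iseqv.symm h.1) hs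
              rw [if_pos h, if_pos (h1 ▸ hx), if_pos h2, cls_congr _ h]
            · rw [if_neg h]
              by_cases h1 : X a = x
              · rw [if_pos h1, if_neg]
                intro h2
                exact h ⟨s.iseqv.trans hs (s.iseqv.symm h2), (hx.trans h1.symm : X a₀ = X a)⟩
              · rw [if_neg h1]
          rw [Finset.sum_congr rfl hval, ← Finset.sum_filter, Finset.sum_const, nsmul_eq_mul]
          have hc : ((Ω.filter (fun a => (s ⊓ Setoid.ker X).r a₀ a)).card : ℝ) =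
            cls Ω (s ⊓ Setoid.ker X) a₀ := rfl
          rw [hc]
          have p1 : (0 : ℝ) < cls Ω (s ⊓ Setoid.ker X) a₀ := by exact_mod_cast cls_pos _ ha₀
          apply le_of_eq
          field_simp
        · have : ∀ a ∈ Ω.filter (fun a => X a = x), (if s.r a u then
            1 / ((cls Ω (s ⊓ Setoid.ker X) a : ℝ) * T.card) else 0) = 0 := by
            intro a ha
            rw [Finset.mem_filter] at ha
            rw [if_neg]
            intro hh
            exact hex ⟨a, ha.1, ha.2, hh⟩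
          rw [Finset.sum_congr rfl this, Finset.sum_const_zero]
          positivity
      refine (Finset.sum_le_sum e4).trans ?_
      rw [Finset.sum_const, nsmul_eq_mul]
      apply le_of_eq
      field_simp
    refine (Finset.sum_le_sum e2).trans ?_
    simp
  unfold H E
  rw [← Finset.sum_sub_distrib]
  have h1 : ∀ a ∈ Ω, (Real.log (cls Ω s a) - Real.log (cls Ω (s ⊓ Setoid.ker X) a)) ≤
      Real.log T.card + ((cls Ω s a : ℝ) / ((cls Ω (s ⊓ Setoid.ker X) a : ℝ) * T.card) - 1) := by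
    intro a ha
    have p1 : (0 : ℝ) < cls Ω s a := by exact_mod_cast cls_pos _ ha
    have p2 : (0 : ℝ) < cls Ω (s ⊓ Setoid.ker X) a := by exact_mod_cast cls_pos _ ha
    have := Real.log_le_sub_one_of_pos (div_pos p1 (mul_pos p2 hTpos'))
    rw [Real.log_div p1.ne' (mul_pos p2 hTpos').ne', Real.log_mul p2.ne' hTpos'.ne'] at this
    linarith
  refine (Finset.sum_le_sum h1).trans ?_
  rw [Finset.sum_add_distrib, Finset.sum_sub_distrib]
  simp only [Finset.sum_const, nsmul_eq_mul, mul_one]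
  linarith

end Pool.Agent.Lib.MP_ed49ca_nt
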