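import Mathlib
import Pool.Agent.Lib.MP_ed49ca_nt.Entropy

set_option autoImplicit false

/-!
The one-digit lemma: if the digits `x t : ZMod 3` satisfy `∑ x t + k ≠ 2` then the sum of the
entropies is at most `log 2 + ε + C * (total correlation)`.
-/

namespace Pool.Agent.Lib.MP_ed49ca_nt

open Finset Classical

section Pmf

variable {m : ℕ}

/-- marginals -/
noncomputable def marg (p : (Fin m → ZMod 3) → ℝ) (t : Fin m) (v : ZMod 3) : ℝ :=
  ∑ i ∈ Finset.univ.filter (fun i : Fin m → ZMod 3 => i t = v), p i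

noncomputable def Sp (p : (Fin m → ZMod 3) → ℝ) : ℝ :=
  ∑ t, ∑ v, Real.negMulLog (marg p t v)

noncomputable def Jp (p : (Fin m → ZMod 3) → ℝ) : ℝ :=
  ∑ i, Real.negMulLog (p i)

theorem continuous_marg (t : Fin m) (v : ZMod 3) :
    Continuous (fun p : (Fin m → ZMod 3) → ℝ => marg p t v) := by
  unfold marg
  fun_prop

theorem continuous_Sp : Continuous (Sp : ((Fin m → ZMod 3) → ℝ) → ℝ) := by
  unfold Sp
  refine continuous_finsetSum _ (fun t _ => continuous_finsetSum _ (fun v _ => ?_))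
  exact Real.continuous_negMulLog.comp (continuous_marg t v)

theorem continuous_Jp : Continuous (Jp : ((Fin m → ZMod 3) → ℝ) → ℝ) := by
  unfold Jp
  refine continuous_finsetSum _ (fun i _ => ?_)
  exact Real.continuous_negMulLog.comp (continuous_apply i)

theorem sum_marg (p : (Fin m → ZMod 3) → ℝ) (t : Fin m) : ∑ v, marg p t v = ∑ i, p i := by
  unfold marg
  exact Finset.sum_fiberwise Finset.univ (fun i : Fin m → ZMod 3 => i t) p

theorem marg_nonneg {p : (Fin m → ZMod 3) → ℝ} (hp : ∀ i, 0 ≤ p i) (t : Fin m) (v : ZMod 3) :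
    0 ≤ marg p t v := Finset.sum_nonneg (fun i _ => hp i)

theorem le_marg {p : (Fin m → ZMod 3) → ℝ} (hp : ∀ i, 0 ≤ p i) (t : Fin m)
    (i : Fin m → ZMod 3) : p i ≤ marg p t (i t) := by
  unfold marg
  exact Finset.single_le_sum (fun j _ => hp j) (by simp)

/-- product of marginals -/
noncomputable def qp (p : (Fin m → ZMod 3) → ℝ) (i : Fin m → ZMod 3) : ℝ :=
  ∏ t, marg p t (i t)

theorem sum_qp {p : (Fin m → ZMod 3) → ℝ} (hs : ∑ i, p i = 1) : ∑ i, qp p i = 1 := by
  unfold qp
  have := Finset.prod_univ_sum (fun _ : Fin m => (Finset.univ : Finset (ZMod 3)))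
    (fun t v => marg p t v)
  rw [Fintype.piFinset_univ] at this
  rw [← this]
  apply Finset.prod_eq_one
  intro t _
  rw [sum_marg, hs]

theorem Sp_eq (p : (Fin m → ZMod 3) → ℝ) :
    Sp p = ∑ i, -(p i * ∑ t, Real.log (marg p t (i t))) := by
  unfold Sp
  have : ∀ t : Fin m, ∑ v, Real.negMulLog (marg p t v) =
      ∑ i, -(p i * Real.log (marg p t (i t))) := by
    intro t
    rw [← Finset.sum_fiberwise Finset.univ (fun i : Fin m → ZMod 3 => i t)
      (fun i => -(p i * Real.log (marg p t (i t))))]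
    apply Finset.sum_congr rfl
    intro v _
    have h2 : ∀ i ∈ Finset.univ.filter (fun i : Fin m → ZMod 3 => i t = v),
        -(p i * Real.log (marg p t (i t))) = p i * (-Real.log (marg p t v)) := by
      intro i hi
      rw [Finset.mem_filter] at hi
      rw [hi.2]; ring
    rw [Finset.sum_congr rfl h2, ← Finset.sum_mul]
    have h3 : ∑ i ∈ Finset.univ.filter (fun i : Fin m → ZMod 3 => i t = v), p i = marg p t v := rfl
    rw [h3, Real.negMulLog]
    ring
  rw [Finset.sum_congr rfl (fun t _ => this t), Finset.sum_comm]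
  apply Finset.sum_congr rfl
  intro i _
  rw [Finset.mul_sum, Finset.sum_neg_distrib]

theorem gap_term {p : (Fin m → ZMod 3) → ℝ} (hp : ∀ i, 0 ≤ p i) (i : Fin m → ZMod 3) :
    -(p i * ∑ t, Real.log (marg p t (i t))) - Real.negMulLog (p i) ≥
      p i - (if p i = 0 then 0 else qp p i) ∧
    (-(p i * ∑ t, Real.log (marg p t (i t))) - Real.negMulLog (p i) =
      p i - (if p i = 0 then 0 else qp p i) → p i ≠ 0 → qp p i = p i) := by
  by_cases h0 : p i = 0
  · simp [h0]
  · have hpos : 0 < p i := lt_of_le_of_ne (hp i) (Ne.symm h0)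
    have hm : ∀ t, 0 < marg p t (i t) := fun t => lt_of_lt_of_le hpos (le_marg hp t i)
    have hq : 0 < qp p i := Finset.prod_pos (fun t _ => hm t)
    have hlog : ∑ t, Real.log (marg p t (i t)) = Real.log (qp p i) := by
      unfold qp
      rw [Real.log_prod (fun t _ => (hm t).ne')]
    rw [hlog, Real.negMulLog, if_neg h0]
    have hx : 0 < qp p i / p i := div_pos hq hpos
    have e : -(p i * Real.log (qp p i)) - -p i * Real.log (p i) =
        -(p i) * Real.log (qp p i / p i) := by
      rw [Real.log_div hq.ne' hpos.ne']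
      ring
    rw [e]
    constructor
    · have h1 := Real.log_le_sub_one_of_pos hx
      have h2 : p i * Real.log (qp p i / p i) ≤ p i * (qp p i / p i - 1) :=
        mul_le_mul_of_nonneg_left h1 hpos.le
      have h3 : p i * (qp p i / p i - 1) = qp p i - p i := by field_simp
      linarith
    · intro h _
      by_contra hne
      have hne1 : qp p i / p i ≠ 1 := by
        intro h1
        apply hne
        field_simp at h1
        exact h1
      have h1 := Real.log_lt_sub_one_of_pos hx hne1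
      have h2 : p i * Real.log (qp p i / p i) < p i * (qp p i / p i - 1) :=
        mul_lt_mul_of_pos_left h1 hpos
      have h3 : p i * (qp p i / p i - 1) = qp p i - p i := by field_simp
      linarith

theorem gap_nonneg {p : (Fin m → ZMod 3) → ℝ} (hp : ∀ i, 0 ≤ p i) (hs : ∑ i, p i = 1) :
    0 ≤ Sp p - Jp p := by
  rw [Sp_eq, Jp, ← Finset.sum_sub_distrib]
  have h1 := Finset.sum_le_sum (fun i (_ : i ∈ (Finset.univ : Finset (Fin m → ZMod 3))) =>
    (gap_term hp i).1)
  have h2 : ∑ i, (if p i = 0 then 0 else qp p i) ≤ ∑ i, qp p i := by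
    apply Finset.sum_le_sum
    intro i _
    split_ifs
    · exact Finset.prod_nonneg (fun t _ => marg_nonneg hp t _)
    · exact le_refl _
  rw [sum_qp hs] at h2
  rw [Finset.sum_sub_distrib, hs] at h1
  linarith

theorem gap_eq_zero {p : (Fin m → ZMod 3) → ℝ} (hp : ∀ i, 0 ≤ p i) (hs : ∑ i, p i = 1)
    (hg : Sp p - Jp p = 0) : ∀ i, p i = qp p i := by
  rw [Sp_eq, Jp, ← Finset.sum_sub_distrib] at hg
  have hqn : ∀ i, 0 ≤ qp p i := fun i => Finset.prod_nonneg (fun t _ => marg_nonneg hp t _)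
  have hle : ∀ i, (if p i = 0 then 0 else qp p i) ≤ qp p i := by
    intro i
    split_ifs
    · exact hqn i
    · exact le_refl _
  have h2 : ∑ i, (if p i = 0 then 0 else qp p i) ≤ ∑ i, qp p i :=
    Finset.sum_le_sum (fun i _ => hle i)
  have h1 := Finset.sum_le_sum (fun i (_ : i ∈ (Finset.univ : Finset (Fin m → ZMod 3))) =>
    (gap_term hp i).1)
  rw [Finset.sum_sub_distrib, hs] at h1
  rw [sum_qp hs] at h2
  have e1 : ∑ i, (if p i = 0 then 0 else qp p i) = 1 := by linarith
  have e2 : ∑ i, (qp p i - (if p i = 0 then 0 else qp p i)) = 0 := by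
    rw [Finset.sum_sub_distrib, e1, sum_qp hs]; ring
  have e3 := (Finset.sum_eq_zero_iff_of_nonneg (fun i _ => sub_nonneg.mpr (hle i))).mp e2
  have e4 : ∑ i, ((-(p i * ∑ t, Real.log (marg p t (i t))) - Real.negMulLog (p i)) -
      (p i - (if p i = 0 then 0 else qp p i))) = 0 := by
    rw [Finset.sum_sub_distrib, Finset.sum_sub_distrib (fun i => p i), hs, e1, hg]; ring
  have e5 := (Finset.sum_eq_zero_iff_of_nonneg
    (fun i _ => sub_nonneg.mpr (gap_term hp i).1)).mp e4
  intro i
  by_cases h0 : p i = 0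
  · have := e3 i (Finset.mem_univ i)
    rw [if_pos h0] at this
    rw [h0]; linarith
  · have := e5 i (Finset.mem_univ i)
    exact ((gap_term hp i).2 (by linarith) h0).symm

theorem univ_zmod3 : ∀ w : ZMod 3, (Finset.univ : Finset (ZMod 3)) = {w, w+1, w+2} := by decide

theorem notMem1 : ∀ w : ZMod 3, w ∉ ({w+1, w+2} : Finset (ZMod 3)) := by decide

theorem notMem2 : ∀ w : ZMod 3, w+1 ∉ ({w+2} : Finset (ZMod 3)) := by decide

theorem zmod3_cover : ∀ (a b v v' k S : ZMod 3), v ≠ a → v' ≠ b →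
    S - a - b + a + b + k ≠ 2 → S - a - b + v + b + k ≠ 2 → S - a - b + a + v' + k ≠ 2 →
    S - a - b + v + v' + k ≠ 2 → False := by decide

theorem entropy_two {q : ZMod 3 → ℝ} (hs : ∑ v, q v = 1) (w : ZMod 3)
    (hw : q w = 0) : ∑ v, Real.negMulLog (q v) ≤ Real.log 2 := by
  have h3 : ∀ f : ZMod 3 → ℝ, ∑ v, f v = f w + (f (w+1) + f (w+2)) := by
    intro f
    rw [univ_zmod3 w, Finset.sum_insert (notMem1 w), Finset.sum_insert (notMem2 w),
      Finset.sum_singleton]
  rw [h3] at hs ⊢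
  rw [hw] at hs ⊢
  rw [Real.negMulLog_zero]
  have hb : q (w+2) = 1 - q (w+1) := by linarith
  rw [hb, zero_add, ← Real.binEntropy_eq_negMulLog_add_negMulLog_one_sub]
  exact Real.binEntropy_le_log_two

theorem entropy_one {q : ZMod 3 → ℝ} (hs : ∑ v, q v = 1) (w : ZMod 3)
    (hw : ∀ v, v ≠ w → q v = 0) : ∑ v, Real.negMulLog (q v) = 0 := by
  have h1 : q w = 1 := by
    rw [← hs]
    symm
    apply Finset.sum_eq_single_of_mem w (Finset.mem_univ _)
    intro v _ hv
    exact hw v hv
  apply Finset.sum_eq_zero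
  intro v _
  by_cases hv : v = w
  · rw [hv, h1]; simp
  · rw [hw v hv]; simp

/-- the independent case -/
theorem Sp_le_of_gap_zero {p : (Fin m → ZMod 3) → ℝ} (hp : ∀ i, 0 ≤ p i) (hs : ∑ i, p i = 1)
    (k : ZMod 3) (hk : ∀ i, p i ≠ 0 → ∑ t, i t + k ≠ 2)
    (hg : Sp p - Jp p = 0) : Sp p ≤ Real.log 2 := by
  have hpq := gap_eq_zero hp hs hg
  have hsm : ∀ t, ∑ v, marg p t v = 1 := fun t => by rw [sum_marg, hs]
  -- supports
  have hne : ∀ t, ∃ v, marg p t v ≠ 0 := by
    intro t
    by_contra hcon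
    push Not at hcon
    have := hsm t
    rw [Finset.sum_eq_zero (fun v _ => hcon v)] at this
    norm_num at this
  choose i₀ hi₀ using hne
  have hsupp : ∀ i : Fin m → ZMod 3, (∀ t, marg p t (i t) ≠ 0) → ∑ t, i t + k ≠ 2 := by
    intro i hi
    apply hk i
    rw [hpq i]
    exact Finset.prod_ne_zero_iff.mpr (fun t _ => hi t)
  have hupd : ∀ (t : Fin m) (v : ZMod 3), marg p t v ≠ 0 →
      ∑ t', i₀ t' - i₀ t + v + k ≠ 2 := by
    intro t v hv
    have h := hsupp (Function.update i₀ t v) (by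
      intro t'
      by_cases h : t' = t
      · subst h; simpa using hv
      · simpa [Function.update_of_ne h] using hi₀ t')
    rw [Finset.sum_update_of_mem (Finset.mem_univ t)] at h
    have h5 := Finset.sum_sdiff (f := i₀) (Finset.subset_univ ({t} : Finset (Fin m)))
    rw [Finset.sum_singleton] at h5
    intro hcon
    apply h
    rw [← hcon, ← h5]; ring
  have hupd2 : ∀ (t t' : Fin m) (v v' : ZMod 3), t ≠ t' → marg p t v ≠ 0 → marg p t' v' ≠ 0 →
      ∑ t'', i₀ t'' - i₀ t - i₀ t' + v + v' + k ≠ 2 := by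
    intro t t' v v' htt hv hv'
    have h := hsupp (Function.update (Function.update i₀ t v) t' v') (by
      intro t''
      by_cases h : t'' = t'
      · subst h; simpa using hv'
      · rw [Function.update_of_ne h]
        by_cases h2 : t'' = t
        · subst h2; simpa using hv
        · simpa [Function.update_of_ne h2] using hi₀ t'')
    rw [Finset.sum_update_of_mem (Finset.mem_univ t')] at h
    have e1 : ∑ x ∈ Finset.univ \ {t'}, Function.update i₀ t v x =
        v + ∑ x ∈ (Finset.univ \ {t'}) \ {t}, i₀ x := by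
      rw [Finset.sum_update_of_mem]
      simp [htt]
    have e2 := Finset.sum_sdiff (f := i₀) (Finset.subset_univ ({t'} : Finset (Fin m)))
    have e3 := Finset.sum_sdiff (f := i₀) (show ({t} : Finset (Fin m)) ⊆ Finset.univ \ {t'} by
      simp [htt])
    rw [Finset.sum_singleton] at e2 e3
    rw [e1] at h
    intro hcon
    apply h
    rw [← hcon, ← e2, ← e3]; ring
  -- every support has at most two elements
  have hcard2 : ∀ t, ∃ w, marg p t w = 0 := by
    intro t
    by_contra hcon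
    push Not at hcon
    exact hupd t (2 - k - (∑ t', i₀ t' - i₀ t)) (hcon _) (by ring)
  by_cases hall : ∀ t, ∀ v, v ≠ i₀ t → marg p t v = 0
  · unfold Sp
    rw [Finset.sum_eq_zero]
    · exact Real.log_nonneg (by norm_num)
    · intro t _
      exact entropy_one (hsm t) (i₀ t) (hall t)
  · push Not at hall
    obtain ⟨t, v, hv, hmv⟩ := hall
    have hoth : ∀ t', t' ≠ t → ∀ v', v' ≠ i₀ t' → marg p t' v' = 0 := by
      intro t' ht' v' hv'
      by_contra hmv'
      have g0 := hupd2 t t' (i₀ t) (i₀ t') (Ne.symm ht') (hi₀ t) (hi₀ t')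
      have g1 := hupd2 t t' v (i₀ t') (Ne.symm ht') hmv (hi₀ t')
      have g2 := hupd2 t t' (i₀ t) v' (Ne.symm ht') (hi₀ t) hmv'
      have g3 := hupd2 t t' v v' (Ne.symm ht') hmv hmv'
      exact zmod3_cover _ _ _ _ _ _ hv hv' g0 g1 g2 g3
    unfold Sp
    rw [Finset.sum_eq_single_of_mem t (Finset.mem_univ t)]
    · obtain ⟨w, hw⟩ := hcard2 t
      exact entropy_two (hsm t) w hw
    · intro t' _ ht'
      exact entropy_one (hsm t') (i₀ t') (hoth t' ht')

theorem pmf_lemma (m : ℕ) {ε : ℝ} (hε : 0 < ε) : ∃ C : ℝ, 0 ≤ C ∧ ∀ (k : ZMod 3)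
    (p : (Fin m → ZMod 3) → ℝ), (∀ i, 0 ≤ p i) → ∑ i, p i = 1 →
    (∀ i, p i ≠ 0 → ∑ t, i t + k ≠ 2) →
    Sp p ≤ Real.log 2 + ε + C * (Sp p - Jp p) := by
  have main : ∀ k : ZMod 3, ∃ C : ℝ, 0 ≤ C ∧ ∀ (p : (Fin m → ZMod 3) → ℝ),
      (∀ i, 0 ≤ p i) → ∑ i, p i = 1 →
      (∀ i, p i ≠ 0 → ∑ t, i t + k ≠ 2) →
      Sp p ≤ Real.log 2 + ε + C * (Sp p - Jp p) := by
    intro k
    let K : Set ((Fin m → ZMod 3) → ℝ) := stdSimplex ℝ (Fin m → ZMod 3) ∩
      {p | (∀ i, ∑ t, i t + k = 2 → p i = 0) ∧ Real.log 2 + ε ≤ Sp p}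
    have hKc : IsCompact K := by
      apply (isCompact_stdSimplex ℝ (Fin m → ZMod 3)).inter_right
      apply IsClosed.inter
      · have : {p : (Fin m → ZMod 3) → ℝ | ∀ i, ∑ t, i t + k = 2 → p i = 0} =
            ⋂ i : Fin m → ZMod 3, ⋂ (_ : ∑ t, i t + k = 2), {p | p i = 0} := by
          ext p; simp
        change IsClosed {p : (Fin m → ZMod 3) → ℝ | ∀ i, ∑ t, i t + k = 2 → p i = 0}
        rw [this]
        exact isClosed_iInter (fun i => isClosed_iInter (fun _ =>
          isClosed_eq (continuous_apply i) continuous_const))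
      · exact isClosed_le continuous_const continuous_Sp
    rcases K.eq_empty_or_nonempty with hKe | hKne
    · refine ⟨0, le_refl _, fun p hp hs hk => ?_⟩
      by_contra hcon
      have : p ∈ K := by
        refine ⟨⟨hp, hs⟩, ?_, ?_⟩
        · intro i hi
          by_contra hne
          exact hk i hne hi
        · linarith
      rw [hKe] at this
      exact this
    · obtain ⟨p₀, hp₀, hmin⟩ := hKc.exists_isMinOn hKne
        ((continuous_Sp.sub continuous_Jp).continuousOn : ContinuousOn (fun p => Sp p - Jp p) K)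
      obtain ⟨p₁, hp₁, hmax⟩ := hKc.exists_isMaxOn hKne
        (continuous_Sp.continuousOn : ContinuousOn Sp K)
      have hk₀ : ∀ i, p₀ i ≠ 0 → ∑ t, i t + k ≠ 2 := fun i hne hi => hne (hp₀.2.1 i hi)
      have hpos : 0 < Sp p₀ - Jp p₀ := by
        have h1 := gap_nonneg hp₀.1.1 hp₀.1.2
        rcases h1.lt_or_eq with h2 | h2
        · exact h2
        · exfalso
          have := Sp_le_of_gap_zero hp₀.1.1 hp₀.1.2 k hk₀ h2.symm
          have h3 := hp₀.2.2
          linarith
      have hS1 : 0 ≤ Sp p₁ := by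
        have h3 := hp₁.2.2
        have : 0 ≤ Real.log 2 := Real.log_nonneg (by norm_num)
        linarith
      refine ⟨Sp p₁ / (Sp p₀ - Jp p₀), div_nonneg hS1 hpos.le, fun p hp hs hk => ?_⟩
      have hgn := gap_nonneg hp hs
      by_cases hcase : Real.log 2 + ε ≤ Sp p
      · have hpK : p ∈ K := by
          refine ⟨⟨hp, hs⟩, ?_, hcase⟩
          intro i hi
          by_contra hne
          exact hk i hne hi
        have h1 : Sp p ≤ Sp p₁ := hmax hpK
        have h2 : Sp p₀ - Jp p₀ ≤ Sp p - Jp p := hmin hpK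
        have h3 : Sp p₁ = Sp p₁ / (Sp p₀ - Jp p₀) * (Sp p₀ - Jp p₀) := by
          field_simp
        have h4 : Sp p₁ / (Sp p₀ - Jp p₀) * (Sp p₀ - Jp p₀) ≤
            Sp p₁ / (Sp p₀ - Jp p₀) * (Sp p - Jp p) :=
          mul_le_mul_of_nonneg_left h2 (div_nonneg hS1 hpos.le)
        have h5 : 0 ≤ Real.log 2 := Real.log_nonneg (by norm_num)
        linarith
      · push Not at hcase
        have : 0 ≤ Sp p₁ / (Sp p₀ - Jp p₀) * (Sp p - Jp p) :=
          mul_nonneg (div_nonneg hS1 hpos.le) hgn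
        linarith
  choose C hC0 hC using main
  refine ⟨∑ k, C k, Finset.sum_nonneg (fun k _ => hC0 k), fun k p hp hs hk => ?_⟩
  have h1 := hC k p hp hs hk
  have h2 : C k ≤ ∑ k, C k := Finset.single_le_sum (fun j _ => hC0 j) (Finset.mem_univ k)
  have h3 := gap_nonneg hp hs
  have h4 := mul_le_mul_of_nonneg_right h2 h3
  linarith

end Pmf

end Pool.Agent.Lib.MP_ed49ca_nt
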