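import Mathlib
import Pool.Agent.Lib.MP_ed49ca_nt.Digit

set_option autoImplicit false

namespace Pool.Agent.Lib.MP_ed49ca_nt

open Finset Classical

variable {α : Type*}

theorem sum_eq_avg (Ω : Finset α) (s : Setoid α) (f : α → ℝ) :
    ∑ a ∈ Ω, f a = ∑ a ∈ Ω, (1 / (cls Ω s a : ℝ)) * ∑ u ∈ Ω.filter (fun u => s.r a u), f u := by
  have e1 : ∀ a ∈ Ω, (1 / (cls Ω s a : ℝ)) * ∑ u ∈ Ω.filter (fun u => s.r a u), f u =
      ∑ u ∈ Ω, (if s.r a u then (1 / (cls Ω s a : ℝ)) * f u else 0) := by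
    intro a _
    rw [Finset.mul_sum, Finset.sum_filter]
  rw [Finset.sum_congr rfl e1, Finset.sum_comm]
  apply Finset.sum_congr rfl
  intro u hu
  have e2 : ∀ a ∈ Ω, (if s.r a u then (1 / (cls Ω s a : ℝ)) * f u else 0) =
      (if s.r u a then (1 / (cls Ω s u : ℝ)) * f u else 0) := by
    intro a _
    by_cases h : s.r a u
    · rw [if_pos h, if_pos (s.iseqv.symm h), cls_congr s h]
    · rw [if_neg h, if_neg (fun h' => h (s.iseqv.symm h'))]
  rw [Finset.sum_congr rfl e2, ← Finset.sum_filter, Finset.sum_const, nsmul_eq_mul]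
  have hc : ((Ω.filter (fun a => s.r u a)).card : ℝ) = cls Ω s u := rfl
  rw [hc]
  have p1 : (0 : ℝ) < cls Ω s u := by exact_mod_cast cls_pos _ hu
  field_simp

/-- conditional law of `X` on the class of `a` -/
noncomputable def loc {β : Type*} (Ω : Finset α) (s : Setoid α) (X : α → β) (a : α) (v : β) : ℝ :=
  ((Ω.filter (fun u => s.r a u ∧ X u = v)).card : ℝ) / (cls Ω s a : ℝ)

theorem loc_nonneg {β : Type*} (Ω : Finset α) (s : Setoid α) (X : α → β) (a : α) (v : β) :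
    0 ≤ loc Ω s X a v := by unfold loc; positivity

theorem loc_sum {β : Type*} [Fintype β] (Ω : Finset α) (s : Setoid α) (X : α → β) {a : α}
    (ha : a ∈ Ω) : ∑ v, loc Ω s X a v = 1 := by
  unfold loc
  rw [← Finset.sum_div]
  have p1 : (0 : ℝ) < cls Ω s a := by exact_mod_cast cls_pos s ha
  rw [div_eq_one_iff_eq p1.ne']
  have h := Finset.card_eq_sum_card_fiberwise (s := Ω.filter (fun u => s.r a u)) (f := X)
    (t := (Finset.univ : Finset β)) (fun _ _ => Finset.mem_coe.mpr (Finset.mem_univ _))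
  have h2 : cls Ω s a = (Ω.filter (fun u => s.r a u)).card := rfl
  rw [h2, h]
  push_cast
  apply Finset.sum_congr rfl
  intro v _
  rw [Finset.filter_filter]

theorem H_eq_loc {β : Type*} [Fintype β] (Ω : Finset α) (s : Setoid α) (X : α → β) :
    H Ω (Setoid.ker X) s = ∑ a ∈ Ω, ∑ v, Real.negMulLog (loc Ω s X a v) := by
  have e0 : H Ω (Setoid.ker X) s =
      ∑ a ∈ Ω, (Real.log (cls Ω s a) - Real.log (cls Ω (s ⊓ Setoid.ker X) a)) := by
    unfold H E
    rw [← Finset.sum_sub_distrib]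
  rw [e0, sum_eq_avg Ω s]
  apply Finset.sum_congr rfl
  intro a ha
  have p1 : (0 : ℝ) < cls Ω s a := by exact_mod_cast cls_pos s ha
  rw [← Finset.sum_fiberwise (Ω.filter (fun u => s.r a u)) X, Finset.mul_sum]
  apply Finset.sum_congr rfl
  intro v _
  have e1 : ∀ u ∈ (Ω.filter (fun u => s.r a u)).filter (fun u => X u = v),
      Real.log (cls Ω s u) - Real.log (cls Ω (s ⊓ Setoid.ker X) u) =
      Real.log (cls Ω s a) - Real.log ((Ω.filter (fun u => s.r a u ∧ X u = v)).card : ℝ) := by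
    intro u hu
    simp only [Finset.mem_filter] at hu
    obtain ⟨⟨_, h1⟩, h2⟩ := hu
    rw [cls_congr s h1]
    congr 3
    unfold cls
    congr 1
    ext b
    simp only [Finset.mem_filter]
    constructor
    · rintro ⟨hb, h3, h4⟩
      have h4' : X u = X b := h4
      exact ⟨hb, s.iseqv.trans h1 h3, h4'.symm.trans h2⟩
    · rintro ⟨hb, h3, h4⟩
      exact ⟨hb, s.iseqv.trans (s.iseqv.symm h1) h3, (h2.trans h4.symm : X u = X b)⟩
  rw [Finset.sum_congr rfl e1, Finset.sum_const, nsmul_eq_mul, Finset.filter_filter]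
  unfold loc Real.negMulLog
  by_cases h0 : (Ω.filter (fun u => s.r a u ∧ X u = v)).card = 0
  · rw [h0]; simp
  · have p2 : (0 : ℝ) < ((Ω.filter (fun u => s.r a u ∧ X u = v)).card : ℝ) := by
      exact_mod_cast Nat.pos_of_ne_zero h0
    rw [Real.log_div p2.ne' p1.ne']
    field_simp
    ring

theorem sum_H_eq_Sp {m : ℕ} (Ω : Finset α) (s : Setoid α) (x : Fin m → α → ZMod 3) :
    ∑ t, H Ω (Setoid.ker (x t)) s = ∑ a ∈ Ω, Sp (loc Ω s (fun a t => x t a) a) := by
  rw [Finset.sum_congr rfl (fun t _ => H_eq_loc Ω s (x t)), Finset.sum_comm]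
  apply Finset.sum_congr rfl
  intro a _
  unfold Sp
  apply Finset.sum_congr rfl
  intro t _
  apply Finset.sum_congr rfl
  intro v _
  congr 1
  unfold marg loc
  rw [← Finset.sum_div]
  congr 1
  have h := Finset.card_eq_sum_card_fiberwise
    (s := Ω.filter (fun u => s.r a u ∧ x t u = v)) (f := fun a t => x t a)
    (t := Finset.univ.filter (fun i : Fin m → ZMod 3 => i t = v)) (by
      intro u hu
      simp only [Finset.coe_filter, Set.mem_ofPred_eq, Finset.mem_univ, true_and] at hu ⊢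
      exact hu.2.2)
  have h' : ((Ω.filter (fun u => s.r a u ∧ x t u = v)).card : ℝ) =
    ∑ b ∈ Finset.univ.filter (fun i : Fin m → ZMod 3 => i t = v),
      (((Ω.filter (fun u => s.r a u ∧ x t u = v)).filter
        (fun a => (fun t => x t a) = b)).card : ℝ) := by
    exact_mod_cast h
  convert h' using 1
  · congr!
  apply Finset.sum_congr rfl
  intro i hi
  rw [Finset.mem_filter] at hi
  rw [Finset.filter_filter]
  congr 2
  ext u
  simp only [Finset.mem_filter]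
  constructor
  · rintro ⟨h1, h2, h4⟩
    refine ⟨h1, ⟨h2, ?_⟩, h4⟩
    rw [← hi.2, ← h4]
  · rintro ⟨h1, ⟨h2, _⟩, h4⟩
    exact ⟨h1, h2, h4⟩

theorem H_joint_eq_Jp {m : ℕ} (Ω : Finset α) (s : Setoid α) (x : Fin m → α → ZMod 3) :
    H Ω (Setoid.ker (fun a t => x t a)) s = ∑ a ∈ Ω, Jp (loc Ω s (fun a t => x t a) a) := by
  rw [H_eq_loc]
  rfl

theorem H_joint_le_sum {m : ℕ} (Ω : Finset α) (s : Setoid α) (x : Fin m → α → ZMod 3) :
    H Ω (Setoid.ker (fun a t => x t a)) s ≤ ∑ t, H Ω (Setoid.ker (x t)) s := by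
  rw [sum_H_eq_Sp, H_joint_eq_Jp]
  apply Finset.sum_le_sum
  intro a ha
  have := gap_nonneg (fun i => loc_nonneg Ω s (fun a t => x t a) a i)
    (loc_sum Ω s (fun a t => x t a) ha)
  linarith

/-- one-digit lemma for random variables -/
theorem digit_lemma (m : ℕ) {ε : ℝ} (hε : 0 < ε) : ∃ C : ℝ, 0 ≤ C ∧
    ∀ {α : Type} (Ω : Finset α) (s : Setoid α) (x : Fin m → α → ZMod 3) (k : α → ZMod 3),
    (∀ a ∈ Ω, ∀ b ∈ Ω, s.r a b → k a = k b) →
    (∀ a ∈ Ω, ∑ t, x t a + k a ≠ 2) →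
    ∑ t, H Ω (Setoid.ker (x t)) s ≤ Ω.card * (Real.log 2 + ε) +
      C * (∑ t, H Ω (Setoid.ker (x t)) s - H Ω (Setoid.ker (fun a t => x t a)) s) := by
  obtain ⟨C, hC0, hC⟩ := pmf_lemma m hε
  refine ⟨C, hC0, ?_⟩
  intro α Ω s x k hk hx
  rw [H_joint_eq_Jp, sum_H_eq_Sp, ← Finset.sum_sub_distrib, Finset.mul_sum]
  have hcard : (Ω.card : ℝ) * (Real.log 2 + ε) = ∑ a ∈ Ω, (Real.log 2 + ε) := by
    rw [Finset.sum_const, nsmul_eq_mul]
  rw [hcard, ← Finset.sum_add_distrib]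
  apply Finset.sum_le_sum
  intro a ha
  apply hC (k a) _ (fun i => loc_nonneg _ _ _ _ _) (loc_sum Ω s _ ha)
  intro i hi
  unfold loc at hi
  have h1 := Nat.cast_ne_zero.mp (div_ne_zero_iff.mp hi).1
  obtain ⟨u, hu⟩ := Finset.card_pos.mp (Nat.pos_of_ne_zero h1)
  have hu' := (@Finset.mem_filter α _ (_) Ω u).mp hu
  obtain ⟨hu1, hu2, hu3⟩ := hu'
  have h2 := hx u hu1
  rw [← hk a ha u hu1 hu2] at h2
  rw [← hu3]
  exact h2

end Pool.Agent.Lib.MP_ed49ca_nt
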