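import Mathlib
import Pool.Agent.Lib.MP_ed49ca_nt.Local

set_option autoImplicit false

namespace Pool.Agent.Lib.MP_ed49ca_nt

open Finset Classical

theorem sum_div_three_pow {m : ℕ} (X : Fin m → ℕ) (d : ℕ) (hd : 0 < d) :
    (∑ t, X t) / d = (∑ t, X t % d) / d + ∑ t, X t / d := by
  have h : ∑ t, X t = ∑ t, X t % d + d * ∑ t, X t / d := by
    rw [Finset.mul_sum, ← Finset.sum_add_distrib]
    apply Finset.sum_congr rfl
    intro t _
    exact (Nat.mod_add_div _ _).symm
  conv_lhs => rw [h]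
  rw [Nat.add_mul_div_left _ _ hd]

theorem ker_mod_succ {α : Type} (X : α → ℕ) (z : ℕ) :
    Setoid.ker (fun a => X a % 3 ^ (z + 1)) =
      Setoid.ker (fun a => X a % 3 ^ z) ⊓ Setoid.ker (fun a => ((X a / 3 ^ z : ℕ) : ZMod 3)) := by
  ext a b
  have key : ∀ n : ℕ, n % 3 ^ (z + 1) = n % 3 ^ z + 3 ^ z * (n / 3 ^ z % 3) := by
    intro n
    rw [pow_succ, Nat.mod_mul]
  have hlt : ∀ n : ℕ, n % 3 ^ z < 3 ^ z := fun n => Nat.mod_lt _ (by positivity)
  constructor
  · intro h
    have h' : X a % 3 ^ (z + 1) = X b % 3 ^ (z + 1) := h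
    have h1 : X a % 3 ^ z = X b % 3 ^ z := by
      have := congrArg (· % 3 ^ z) h'
      simpa [Nat.mod_mod_of_dvd _ (pow_dvd_pow 3 (Nat.le_succ z))] using this
    rw [key, key, h1] at h'
    have h2 : X a / 3 ^ z % 3 = X b / 3 ^ z % 3 :=
      Nat.eq_of_mul_eq_mul_left (by positivity : 0 < 3 ^ z) (Nat.add_left_cancel h')
    refine ⟨h1, ?_⟩
    show ((X a / 3 ^ z : ℕ) : ZMod 3) = ((X b / 3 ^ z : ℕ) : ZMod 3)
    exact (ZMod.natCast_eq_natCast_iff' _ _ _).mpr h2
  · rintro ⟨h1, h2⟩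
    have h1' : X a % 3 ^ z = X b % 3 ^ z := h1
    have h2' : ((X a / 3 ^ z : ℕ) : ZMod 3) = ((X b / 3 ^ z : ℕ) : ZMod 3) := h2
    have h3 := (ZMod.natCast_eq_natCast_iff' _ _ _).mp h2'
    show X a % 3 ^ (z + 1) = X b % 3 ^ (z + 1)
    rw [key, key, h1', h3]

theorem ker_mod_succ_pi {α : Type} {m : ℕ} (X : Fin m → α → ℕ) (z : ℕ) :
    Setoid.ker (fun a t => X t a % 3 ^ (z + 1)) =
      Setoid.ker (fun a t => X t a % 3 ^ z) ⊓
        Setoid.ker (fun a t => ((X t a / 3 ^ z : ℕ) : ZMod 3)) := by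
  ext a b
  constructor
  · intro h
    have h' : ∀ t, (Setoid.ker (fun a => X t a % 3 ^ (z + 1))).r a b := fun t => congrFun h t
    have h'' : ∀ t, (Setoid.ker (fun a => X t a % 3 ^ z) ⊓
      Setoid.ker (fun a => ((X t a / 3 ^ z : ℕ) : ZMod 3))).r a b := fun t => by
        rw [← ker_mod_succ]; exact h' t
    exact ⟨funext fun t => (h'' t).1, funext fun t => (h'' t).2⟩
  · rintro ⟨h1, h2⟩
    funext t
    have : (Setoid.ker (fun a => X t a % 3 ^ z) ⊓
      Setoid.ker (fun a => ((X t a / 3 ^ z : ℕ) : ZMod 3))).r a b :=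
        ⟨congrFun h1 t, congrFun h2 t⟩
    rw [← ker_mod_succ] at this
    exact this

/-- block lemma -/
theorem block_lemma (m : ℕ) {ε : ℝ} (hε : 0 < ε) : ∃ C : ℝ, 0 ≤ C ∧
    ∀ {α : Type} (Ω : Finset α) (s : Setoid α) (W : ℕ) (X : Fin m → α → ℕ),
    (∀ a ∈ Ω, ∀ z < W, ((∑ t, X t a) / 3 ^ z) % 3 ≠ 2) →
    ∑ t, H Ω (Setoid.ker (fun a => X t a % 3 ^ W)) s ≤ Ω.card * (W * (Real.log 2 + ε)) +
      (C + 1) * (∑ t, H Ω (Setoid.ker (fun a => X t a % 3 ^ W)) s -
        H Ω (Setoid.ker (fun a t => X t a % 3 ^ W)) s) := by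
  obtain ⟨C, hC0, hC⟩ := digit_lemma m hε
  refine ⟨C, hC0, ?_⟩
  intro α Ω s W X hX
  have main : ∀ z ≤ W, H Ω (Setoid.ker (fun a t => X t a % 3 ^ z)) s ≤
      Ω.card * (z * (Real.log 2 + ε)) + C * (∑ t, H Ω (Setoid.ker (fun a => X t a % 3 ^ z)) s -
        H Ω (Setoid.ker (fun a t => X t a % 3 ^ z)) s) := by
    intro z
    induction z with
    | zero =>
      intro _
      have h1 : H Ω (Setoid.ker (fun a t => X t a % 3 ^ 0)) s = 0 := by
        unfold H
        have : s ⊓ Setoid.ker (fun a t => X t a % 3 ^ 0) = s := by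
          apply inf_eq_left.mpr
          intro a b _
          show (fun t => X t a % 3 ^ 0) = (fun t => X t b % 3 ^ 0)
          funext t
          simp [Nat.mod_one]
        rw [this]; ring
      rw [h1]
      have h2 : 0 ≤ ∑ t, H Ω (Setoid.ker (fun a => X t a % 3 ^ 0)) s :=
        Finset.sum_nonneg (fun t _ => H_nonneg _ _ _)
      have := mul_nonneg hC0 h2
      simp only [Nat.cast_zero, zero_mul, mul_zero, sub_zero, zero_add]
      exact this
    | succ z ih =>
      intro hz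
      have ih' := ih (by omega)
      rw [ker_mod_succ_pi, H_chain]
      set P := Setoid.ker (fun a t => X t a % 3 ^ z) with hP
      set j := H Ω (Setoid.ker (fun a t => ((X t a / 3 ^ z : ℕ) : ZMod 3))) (s ⊓ P) with hj
      have hd := hC Ω (s ⊓ P) (fun t a => ((X t a / 3 ^ z : ℕ) : ZMod 3))
        (fun a => (((∑ t, X t a % 3 ^ z) / 3 ^ z : ℕ) : ZMod 3))
        (by
          rintro a _ b _ ⟨_, hab⟩
          have hab' : (fun t => X t a % 3 ^ z) = (fun t => X t b % 3 ^ z) := hab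
          have : ∀ t, X t a % 3 ^ z = X t b % 3 ^ z := fun t => congrFun hab' t
          simp only [this])
        (by
          intro a ha h2
          apply hX a ha z (by omega)
          rw [sum_div_three_pow _ _ (by positivity)]
          have h3 : (((∑ t, X t a % 3 ^ z) / 3 ^ z + ∑ t, X t a / 3 ^ z : ℕ) : ZMod 3) =
              ((2 : ℕ) : ZMod 3) := by
            push_cast
            rw [add_comm]
            push_cast at h2
            exact h2
          have h4 := (ZMod.natCast_eq_natCast_iff' _ _ _).mp h3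
          simpa using h4)
      have hsub := H_joint_le_sum Ω (s ⊓ P) (fun t a => ((X t a / 3 ^ z : ℕ) : ZMod 3))

      rw [← hj] at hd hsub
      set S := ∑ t, H Ω (Setoid.ker (fun a => ((X t a / 3 ^ z : ℕ) : ZMod 3))) (s ⊓ P) with hS
      have hsum : ∑ t, H Ω (Setoid.ker (fun a => X t a % 3 ^ z)) s + S ≤
          ∑ t, H Ω (Setoid.ker (fun a => X t a % 3 ^ (z + 1))) s := by
        rw [hS, ← Finset.sum_add_distrib]
        apply Finset.sum_le_sum
        intro t _
        rw [ker_mod_succ, H_chain]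
        have : H Ω (Setoid.ker (fun a => ((X t a / 3 ^ z : ℕ) : ZMod 3))) (s ⊓ P) ≤
            H Ω (Setoid.ker (fun a => ((X t a / 3 ^ z : ℕ) : ZMod 3)))
              (s ⊓ Setoid.ker (fun a => X t a % 3 ^ z)) := by
          apply H_anti
          apply inf_le_inf_left
          intro a b hab
          exact congrFun hab t
        linarith
      have h5 : C * (∑ t, H Ω (Setoid.ker (fun a => X t a % 3 ^ z)) s - H Ω P s) +
          C * (S - j) ≤ C * (∑ t, H Ω (Setoid.ker (fun a => X t a % 3 ^ (z + 1))) s -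
            (H Ω P s + j)) := by
        rw [← mul_add]
        apply mul_le_mul_of_nonneg_left _ hC0
        linarith
      push_cast
      have e : (Ω.card : ℝ) * ((z + 1) * (Real.log 2 + ε)) =
          Ω.card * (z * (Real.log 2 + ε)) + Ω.card * (Real.log 2 + ε) := by ring
      rw [e]
      linarith
  have := main W (le_refl _)
  linarith

end Pool.Agent.Lib.MP_ed49ca_nt
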