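import Mathlib
import Pool.Agent.Lib.MP_ed49ca_nt.Block

set_option autoImplicit false

namespace Pool.Agent.Lib.MP_ed49ca_nt

open Finset Classical

/-- digit block of `G * l` at positions `y, ..., y+W-1` -/
def blk (W G y l : ℕ) : ℕ := (G * l / 3 ^ y) % 3 ^ W

/-- residue mod `3 ^ x` -/
def R (x : ℕ) : Setoid ℕ := Setoid.ker (fun l : ℕ => l % 3 ^ x)

theorem R_iff {x a b : ℕ} : (R x).r a b ↔ a % 3 ^ x = b % 3 ^ x := Iff.rfl

theorem R_anti {x y : ℕ} (h : x ≤ y) : R y ≤ R x := by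
  intro a b hab
  have h1 : a % 3 ^ y = b % 3 ^ y := hab
  show a % 3 ^ x = b % 3 ^ x
  have := congrArg (· % 3 ^ x) h1
  simpa [Nat.mod_mod_of_dvd _ (pow_dvd_pow 3 h)] using this

theorem blk_lt (W G y l : ℕ) : blk W G y l < 3 ^ W := Nat.mod_lt _ (by positivity)

theorem div_mod_pow (a y W : ℕ) : (a / 3 ^ y) % 3 ^ W = (a % 3 ^ (y + W)) / 3 ^ y := by
  rw [pow_add, Nat.mod_mul_right_div_self]

theorem div_mod_congr {a b y W n : ℕ} (hn : y + W ≤ n) (h : a ≡ b [MOD 3 ^ n]) :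
    (a / 3 ^ y) % 3 ^ W = (b / 3 ^ y) % 3 ^ W := by
  rw [div_mod_pow, div_mod_pow]
  have h2 : a % 3 ^ (y + W) = b % 3 ^ (y + W) := h.of_dvd (pow_dvd_pow 3 hn)
  rw [h2]

theorem blk_det (W G y : ℕ) : R (y + W) ≤ Setoid.ker (blk W G y) := by
  intro a b hab
  have h1 : a ≡ b [MOD 3 ^ (y + W)] := hab
  show blk W G y a = blk W G y b
  exact div_mod_congr (le_refl _) (h1.mul_left G)

theorem blk_det' {W G y x : ℕ} (h : y + W ≤ x) : R x ≤ Setoid.ker (blk W G y) :=
  (R_anti h).trans (blk_det W G y)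

theorem blk_inj {W G y : ℕ} (hG : ¬ 3 ∣ G) : R y ⊓ Setoid.ker (blk W G y) ≤ R (y + W) := by
  rintro a b ⟨hab, hblk⟩
  have h1 : a ≡ b [MOD 3 ^ y] := hab
  have h2 : blk W G y a = blk W G y b := hblk
  show a ≡ b [MOD 3 ^ (y + W)]
  have h3 : G * a ≡ G * b [MOD 3 ^ (y + W)] := by
    unfold blk at h2
    have e1 : G * a % 3 ^ (y + W) = G * a % 3 ^ y + 3 ^ y * (G * a / 3 ^ y % 3 ^ W) := by
      rw [pow_add, Nat.mod_mul]
    have e2 : G * b % 3 ^ (y + W) = G * b % 3 ^ y + 3 ^ y * (G * b / 3 ^ y % 3 ^ W) := by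
      rw [pow_add, Nat.mod_mul]
    show G * a % 3 ^ (y + W) = G * b % 3 ^ (y + W)
    rw [e1, e2, h2]
    have := h1.mul_left G
    rw [show G * a % 3 ^ y = G * b % 3 ^ y from this]
  have hc : Nat.gcd (3 ^ (y + W)) G = 1 := by
    apply Nat.Coprime.pow_left
    exact (Nat.Prime.coprime_iff_not_dvd Nat.prime_three).mpr hG
  exact Nat.ModEq.cancel_left_of_coprime hc h3

/-- `η(y) = H(λ mod 3^(y+W) | λ mod 3^y)` -/
noncomputable def eta (Ω : Finset ℕ) (W y : ℕ) : ℝ := E Ω (R y) - E Ω (R (y + W))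

theorem H_blk_eq {W G y : ℕ} (Ω : Finset ℕ) (hG : ¬ 3 ∣ G) :
    H Ω (Setoid.ker (blk W G y)) (R y) = eta Ω W y := by
  unfold H eta
  congr 2
  apply le_antisymm
  · exact blk_inj hG
  · exact le_inf (R_anti (by omega)) (blk_det W G y)

theorem H_blk_le {W G y : ℕ} (Ω : Finset ℕ) (s : Setoid ℕ) :
    H Ω (Setoid.ker (blk W G y)) s ≤ Ω.card * (W * Real.log 3) := by
  have := H_le_log Ω (blk W G y) s (Finset.range (3 ^ W))
    (fun a _ => Finset.mem_range.mpr (blk_lt _ _ _ _))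
  rw [Finset.card_range] at this
  push_cast at this
  rwa [Real.log_pow] at this

theorem eta_nonneg (Ω : Finset ℕ) (W y : ℕ) : 0 ≤ eta Ω W y := by
  unfold eta
  have := E_mono (Ω := Ω) (R_anti (show y ≤ y + W by omega))
  linarith

theorem eta_le (Ω : Finset ℕ) (W y : ℕ) : eta Ω W y ≤ Ω.card * (W * Real.log 3) := by
  rw [← H_blk_eq (G := 1) Ω (by norm_num)]
  exact H_blk_le Ω _

theorem sum_shift (f : ℕ → ℝ) (A W : ℕ) :
    ∑ y ∈ Finset.range A, (f y - f (y + W)) =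
      ∑ y ∈ Finset.range W, f y - ∑ y ∈ Finset.range W, f (A + y) := by
  have h1 := Finset.sum_range_add f A W
  have h2 := Finset.sum_range_add f W A
  rw [add_comm W A] at h2
  rw [Finset.sum_sub_distrib]
  have h3 : ∑ x ∈ Finset.range A, f (W + x) = ∑ y ∈ Finset.range A, f (y + W) :=
    Finset.sum_congr rfl (fun y _ => by rw [add_comm])
  rw [h3] at h2
  linarith

theorem E_R_zero (Ω : Finset ℕ) : E Ω (R 0) = Ω.card * Real.log Ω.card := by
  unfold E
  have : ∀ a ∈ Ω, Real.log (cls Ω (R 0) a) = Real.log Ω.card := by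
    intro a _
    congr 2
    unfold cls
    congr 1
    apply Finset.filter_true_of_mem
    intro b _
    show a % 3 ^ 0 = b % 3 ^ 0
    simp [Nat.mod_one]
  rw [Finset.sum_congr rfl this, Finset.sum_const, nsmul_eq_mul]

theorem E_R_top {Ω : Finset ℕ} {n : ℕ} (hΩ : Ω ⊆ Finset.range (3 ^ n)) : E Ω (R n) = 0 := by
  unfold E
  apply Finset.sum_eq_zero
  intro a ha
  have : cls Ω (R n) a = 1 := by
    unfold cls
    rw [Finset.card_eq_one]
    refine ⟨a, ?_⟩
    ext b
    simp only [Finset.mem_filter, Finset.mem_singleton]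
    constructor
    · rintro ⟨hb, hab⟩
      have h1 : a % 3 ^ n = b % 3 ^ n := hab
      rw [Nat.mod_eq_of_lt (Finset.mem_range.mp (hΩ ha)),
        Nat.mod_eq_of_lt (Finset.mem_range.mp (hΩ hb))] at h1
      exact h1.symm
    · rintro rfl
      exact ⟨ha, rfl⟩
  rw [this]; simp

theorem sum_eta_ge {Ω : Finset ℕ} {n W : ℕ} (hΩ : Ω ⊆ Finset.range (3 ^ n)) (hW : W ≤ n) :
    (W : ℝ) * (Ω.card * (Real.log Ω.card - 2 * W * Real.log 3)) ≤
      ∑ y ∈ Finset.range (n - W + 1), eta Ω W y := by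
  have h1 := sum_shift (fun y => E Ω (R y)) (n - W + 1) W
  have hlog3 : 0 ≤ Real.log 3 := Real.log_nonneg (by norm_num)
  have h2 : ∑ y ∈ Finset.range W, (Ω.card * Real.log Ω.card - Ω.card * (W * Real.log 3)) ≤
      ∑ y ∈ Finset.range W, E Ω (R y) := by
    apply Finset.sum_le_sum
    intro y hy
    have hy' := Finset.mem_range.mp hy
    have h3 := eta_le Ω y 0
    unfold eta at h3
    rw [E_R_zero, zero_add] at h3
    have h4 : (Ω.card : ℝ) * (y * Real.log 3) ≤ Ω.card * (W * Real.log 3) := by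
      apply mul_le_mul_of_nonneg_left _ (Nat.cast_nonneg _)
      apply mul_le_mul_of_nonneg_right _ hlog3
      exact_mod_cast hy'.le
    linarith
  have h5 : ∑ y ∈ Finset.range W, E Ω (R (n - W + 1 + y)) ≤
      ∑ y ∈ Finset.range W, (Ω.card * (W * Real.log 3)) := by
    apply Finset.sum_le_sum
    intro y hy
    have hy' := Finset.mem_range.mp hy
    have h3 := eta_le Ω (W - 1 - y) (n - W + 1 + y)
    unfold eta at h3
    rw [show n - W + 1 + y + (W - 1 - y) = n by omega, E_R_top hΩ] at h3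
    have h4 : (Ω.card : ℝ) * (((W - 1 - y : ℕ) : ℝ) * Real.log 3) ≤
        Ω.card * (W * Real.log 3) := by
      apply mul_le_mul_of_nonneg_left _ (Nat.cast_nonneg _)
      apply mul_le_mul_of_nonneg_right _ hlog3
      exact_mod_cast (show W - 1 - y ≤ W by omega)
    linarith
  rw [Finset.sum_const, nsmul_eq_mul, Finset.card_range] at h2 h5
  have h6 : ∑ y ∈ Finset.range (n - W + 1), eta Ω W y =
      ∑ y ∈ Finset.range (n - W + 1), (E Ω (R y) - E Ω (R (y + W))) := rfl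
  rw [h6, h1]
  have e : (W : ℝ) * (Ω.card * (Real.log Ω.card - 2 * W * Real.log 3)) =
      W * (Ω.card * Real.log Ω.card - Ω.card * (W * Real.log 3)) -
      W * (Ω.card * (W * Real.log 3)) := by ring
  rw [e]
  linarith

/-- shifted sum of `η` -/
theorem sum_eta_shift {Ω : Finset ℕ} {W A p q : ℕ} (hq : q ≤ p) (hp : p ≤ A) :
    ∑ y ∈ Finset.range A, eta Ω W y - p * (Ω.card * (W * Real.log 3)) ≤
      ∑ x ∈ Finset.Ico p A, eta Ω W (x - q) := by
  have h1 : ∑ x ∈ Finset.Ico p A, eta Ω W (x - q) = ∑ y ∈ Finset.Ico (p - q) (A - q), eta Ω W y := by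
    have := Finset.sum_Ico_add' (fun x => eta Ω W (x - q)) (p - q) (A - q) q
    rw [show p - q + q = p by omega, show A - q + q = A by omega] at this
    rw [← this]
    apply Finset.sum_congr rfl
    intro x _
    rw [show x + q - q = x by omega]
  rw [h1]
  have hsplit : ∑ y ∈ Finset.range A, eta Ω W y = ∑ y ∈ Finset.range (p - q), eta Ω W y +
      ∑ y ∈ Finset.Ico (p - q) (A - q), eta Ω W y + ∑ y ∈ Finset.Ico (A - q) A, eta Ω W y := by
    rw [Finset.range_eq_Ico, Finset.range_eq_Ico,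
      Finset.sum_Ico_consecutive _ (by omega) (by omega),
      Finset.sum_Ico_consecutive _ (by omega) (by omega)]
  rw [hsplit]
  have h2 : ∑ y ∈ Finset.range (p - q), eta Ω W y ≤
      ∑ y ∈ Finset.range (p - q), (Ω.card * (W * Real.log 3) : ℝ) :=
    Finset.sum_le_sum (fun y _ => eta_le Ω W y)
  have h3 : ∑ y ∈ Finset.Ico (A - q) A, eta Ω W y ≤
      ∑ y ∈ Finset.Ico (A - q) A, (Ω.card * (W * Real.log 3) : ℝ) :=
    Finset.sum_le_sum (fun y _ => eta_le Ω W y)
  rw [Finset.sum_const, nsmul_eq_mul] at h2 h3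
  rw [Finset.card_range] at h2
  rw [Nat.card_Ico] at h3
  have e : (p : ℝ) = ((p - q : ℕ) : ℝ) + ((A - (A - q) : ℕ) : ℝ) := by
    rw [← Nat.cast_add]
    congr 1
    omega
  rw [e, add_mul]
  linarith

theorem telescope {g : ℕ → ℝ} {B : ℝ} (hmono : Monotone g) (h0 : ∀ n, 0 ≤ g n)
    (hB : ∀ n, g n ≤ B) (a b : ℕ → ℕ) (K : ℕ) (hab : ∀ k, k + 1 < K → b k ≤ a (k + 1)) :
    ∑ k ∈ Finset.range K, (g (b k) - g (a k)) ≤ B := by
  have main : ∀ j, j + 1 ≤ K → ∑ k ∈ Finset.range (j + 1), (g (b k) - g (a k)) ≤ g (b j) := by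
    intro j
    induction j with
    | zero =>
      intro _
      simp only [zero_add, Finset.range_one, Finset.sum_singleton]
      linarith [h0 (a 0)]
    | succ j ih =>
      intro hj
      rw [Finset.sum_range_succ]
      have h1 := ih (by omega)
      have h2 := hmono (hab j (by omega))
      linarith
  rcases K with _ | j
  · simp only [Finset.range_zero, Finset.sum_empty]
    exact (h0 0).trans (hB 0)
  · exact (main j (le_refl _)).trans (hB _)

end Pool.Agent.Lib.MP_ed49ca_nt
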