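import Mathlib
import Pool.Agent.Lib.MP_ed49ca_nt.Blk

set_option autoImplicit false

namespace Pool.Agent.Lib.MP_ed49ca_nt

open Finset Classical

section

variable (s : ℕ) (γ p : ℕ → ℕ) (w M x W : ℕ)

/-- the summand blocks -/
def XX (t l : ℕ) : ℕ :=
  if t < s then blk W (γ t) (x - p t) l
  else (3 ^ W * s + blk W M x l - ∑ t' ∈ Finset.range s, blk W (γ t') (x - p t') l) % 3 ^ W

theorem XX_lt (t l : ℕ) : XX s γ p M x W t l < 3 ^ W := by
  unfold XX
  split_ifs
  · exact blk_lt _ _ _ _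
  · exact Nat.mod_lt _ (by positivity)

theorem sum_blk_le (l : ℕ) :
    ∑ t' ∈ Finset.range s, blk W (γ t') (x - p t') l ≤ 3 ^ W * s := by
  calc ∑ t' ∈ Finset.range s, blk W (γ t') (x - p t') l
      ≤ ∑ t' ∈ Finset.range s, 3 ^ W := Finset.sum_le_sum (fun t _ => (blk_lt _ _ _ _).le)
    _ = 3 ^ W * s := by rw [Finset.sum_const, Finset.card_range, smul_eq_mul, mul_comm]

theorem XX_sum (l : ℕ) :
    ∑ t ∈ Finset.range (s + 1), XX s γ p M x W t l ≡ blk W M x l [MOD 3 ^ W] := by
  rw [Finset.sum_range_succ]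
  have h1 : ∑ t ∈ Finset.range s, XX s γ p M x W t l =
      ∑ t ∈ Finset.range s, blk W (γ t) (x - p t) l := by
    apply Finset.sum_congr rfl
    intro t ht
    unfold XX
    rw [if_pos (Finset.mem_range.mp ht)]
  have h2 : XX s γ p M x W s l = (3 ^ W * s + blk W M x l -
      ∑ t' ∈ Finset.range s, blk W (γ t') (x - p t') l) % 3 ^ W := by
    unfold XX
    rw [if_neg (lt_irrefl s)]
  rw [h1, h2]
  have hle := sum_blk_le s γ p x W l
  set T := ∑ t ∈ Finset.range s, blk W (γ t) (x - p t) l with hT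
  have h3 : T + (3 ^ W * s + blk W M x l - T) % 3 ^ W ≡ T + (3 ^ W * s + blk W M x l - T)
      [MOD 3 ^ W] := Nat.ModEq.add_left _ (Nat.mod_modEq _ _)
  refine h3.trans ?_
  have h4 : T + (3 ^ W * s + blk W M x l - T) = blk W M x l + 3 ^ W * s := by omega
  rw [h4]
  show (blk W M x l + 3 ^ W * s) % 3 ^ W = blk W M x l % 3 ^ W
  rw [Nat.add_mul_mod_self_left]

/-- the carry -/
def kap (l : ℕ) : ℕ :=
  (∑ t ∈ Finset.range s, (γ t * 3 ^ p t * l) % 3 ^ x + (w * 3 ^ p s * l) % 3 ^ x) / 3 ^ x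

theorem kap_le (l : ℕ) : kap s γ p w x l < s + 1 := by
  unfold kap
  apply Nat.div_lt_of_lt_mul
  have h1 : ∑ t ∈ Finset.range s, (γ t * 3 ^ p t * l) % 3 ^ x ≤ ∑ t ∈ Finset.range s, 3 ^ x :=
    Finset.sum_le_sum (fun t _ => (Nat.mod_lt _ (by positivity)).le)
  rw [Finset.sum_const, Finset.card_range, smul_eq_mul] at h1
  have h2 : (w * 3 ^ p s * l) % 3 ^ x < 3 ^ x := Nat.mod_lt _ (by positivity)
  calc _ < s * 3 ^ x + 3 ^ x := by omega
    _ = 3 ^ x * (s + 1) := by ring

theorem mul_pow_div (a b q x : ℕ) (h : q ≤ x) : a * 3 ^ q * b / 3 ^ x = a * b / 3 ^ (x - q) := by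
  have e : (3 : ℕ) ^ x = 3 ^ q * 3 ^ (x - q) := by rw [← pow_add]; congr 1; omega
  rw [e, ← Nat.div_div_eq_div_mul]
  congr 1
  rw [show a * 3 ^ q * b = a * b * 3 ^ q by ring]
  exact Nat.mul_div_cancel _ (by positivity)

theorem XX_last {n : ℕ} (hx : x + W ≤ n) (hps : ∀ t ≤ s, p t ≤ x)
    (hM : M ≡ ∑ t ∈ Finset.range s, γ t * 3 ^ p t + w * 3 ^ p s [MOD 3 ^ n]) (l : ℕ) :
    XX s γ p M x W s l = (blk W w (x - p s) l + kap s γ p w x l) % 3 ^ W := by
  have h2 : XX s γ p M x W s l = (3 ^ W * s + blk W M x l -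
      ∑ t' ∈ Finset.range s, blk W (γ t') (x - p t') l) % 3 ^ W := by
    unfold XX
    rw [if_neg (lt_irrefl s)]
  rw [h2]
  have hle := sum_blk_le s γ p x W l
  -- the division identity
  have hMl : M * l ≡ ∑ t ∈ Finset.range s, γ t * 3 ^ p t * l + w * 3 ^ p s * l [MOD 3 ^ n] := by
    have := hM.mul_right l
    rwa [add_mul, Finset.sum_mul] at this
  have hb : blk W M x l =
      ((∑ t ∈ Finset.range s, γ t * 3 ^ p t * l + w * 3 ^ p s * l) / 3 ^ x) % 3 ^ W :=
    div_mod_congr hx hMl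
  have hsum : (∑ t ∈ Finset.range s, γ t * 3 ^ p t * l + w * 3 ^ p s * l) / 3 ^ x =
      kap s γ p w x l + (∑ t ∈ Finset.range s, γ t * l / 3 ^ (x - p t) +
        w * l / 3 ^ (x - p s)) := by
    have e1 : ∑ t ∈ Finset.range s, γ t * 3 ^ p t * l + w * 3 ^ p s * l =
        (∑ t ∈ Finset.range s, (γ t * 3 ^ p t * l) % 3 ^ x + (w * 3 ^ p s * l) % 3 ^ x) +
        3 ^ x * (∑ t ∈ Finset.range s, γ t * 3 ^ p t * l / 3 ^ x +
          w * 3 ^ p s * l / 3 ^ x) := by
      rw [mul_add, Finset.mul_sum, add_add_add_comm, ← Finset.sum_add_distrib, Nat.mod_add_div]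
      congr 1
      apply Finset.sum_congr rfl
      intro t _
      rw [Nat.mod_add_div]
    rw [e1, Nat.add_mul_div_left _ _ (by positivity)]
    unfold kap
    congr 2
    · apply Finset.sum_congr rfl
      intro t ht
      exact mul_pow_div _ _ _ _ (hps t (Finset.mem_range.mp ht).le)
    · exact mul_pow_div _ _ _ _ (hps s (le_refl _))
  rw [hsum] at hb
  set T := ∑ t ∈ Finset.range s, blk W (γ t) (x - p t) l with hT
  have hTm : T ≡ ∑ t ∈ Finset.range s, γ t * l / 3 ^ (x - p t) [MOD 3 ^ W] := by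
    rw [hT]
    apply Nat.ModEq.sum
    intro t _
    exact Nat.mod_modEq _ _
  have hbw : blk W w (x - p s) l ≡ w * l / 3 ^ (x - p s) [MOD 3 ^ W] := Nat.mod_modEq _ _
  have goal : 3 ^ W * s + blk W M x l - T ≡ blk W w (x - p s) l + kap s γ p w x l
      [MOD 3 ^ W] := by
    apply Nat.ModEq.add_right_cancel' T
    rw [Nat.sub_add_cancel (by omega)]
    have h5 : 3 ^ W * s + blk W M x l ≡ blk W M x l [MOD 3 ^ W] := by
      show (3 ^ W * s + blk W M x l) % 3 ^ W = blk W M x l % 3 ^ W
      rw [Nat.mul_add_mod]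
    refine h5.trans ?_
    have h6 : blk W M x l ≡ kap s γ p w x l + (∑ t ∈ Finset.range s, γ t * l / 3 ^ (x - p t) +
        w * l / 3 ^ (x - p s)) [MOD 3 ^ W] := by
      rw [hb]; exact Nat.mod_modEq _ _
    refine h6.trans ?_
    have h7 : blk W w (x - p s) l + kap s γ p w x l + T ≡
        w * l / 3 ^ (x - p s) + kap s γ p w x l + ∑ t ∈ Finset.range s, γ t * l / 3 ^ (x - p t)
        [MOD 3 ^ W] := (hbw.add_right _).add hTm
    refine Nat.ModEq.trans ?_ h7.symm
    have e : kap s γ p w x l + (∑ t ∈ Finset.range s, γ t * l / 3 ^ (x - p t) +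
        w * l / 3 ^ (x - p s)) = w * l / 3 ^ (x - p s) + kap s γ p w x l +
        ∑ t ∈ Finset.range s, γ t * l / 3 ^ (x - p t) := by ring
    rw [e]
  exact goal

end

/-- the inequality for one position `x` -/
theorem perx (s : ℕ) {ε : ℝ} (C : ℝ)
    (hC : ∀ {α : Type} (Ω : Finset α) (S : Setoid α) (W : ℕ) (X : Fin (s + 1) → α → ℕ),
    (∀ a ∈ Ω, ∀ z < W, ((∑ t, X t a) / 3 ^ z) % 3 ≠ 2) →
    ∑ t, H Ω (Setoid.ker (fun a => X t a % 3 ^ W)) S ≤ Ω.card * (W * (Real.log 2 + ε)) +
      (C + 1) * (∑ t, H Ω (Setoid.ker (fun a => X t a % 3 ^ W)) S -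
        H Ω (Setoid.ker (fun a t => X t a % 3 ^ W)) S)) (hC0 : 0 ≤ C)
    (γ p : ℕ → ℕ) (w M x W n : ℕ) (Ω : Finset ℕ)
    (hγ : ∀ t < s, ¬ 3 ∣ γ t) (hw : ¬ 3 ∣ w)
    (hgap : ∀ t < s, p t + W ≤ p (t + 1)) (hxp : p s ≤ x) (hx : x + W ≤ n)
    (hM : M ≡ ∑ t ∈ Finset.range s, γ t * 3 ^ p t + w * 3 ^ p s [MOD 3 ^ n])
    (hdig : ∀ l ∈ Ω, ∀ z < n, (M * l / 3 ^ z) % 3 ≠ 2) :
    ∑ t ∈ Finset.range (s + 1), eta Ω W (x - p t) - Ω.card * Real.log (s + 1) ≤
      Ω.card * (W * (Real.log 2 + ε)) +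
      (C + 1) * (∑ t ∈ Finset.range s,
        (H Ω (Setoid.ker (blk W (γ t) (x - p t))) (R (x - p s)) -
          H Ω (Setoid.ker (blk W (γ t) (x - p t))) (R (x - p (t + 1) + W))) +
        s * (Ω.card * Real.log (s + 1))) := by
  have hmono : ∀ t ≤ s, ∀ t' ≤ t, p t' ≤ p t := by
    intro t
    induction t with
    | zero =>
      intro _ t' ht'
      rw [Nat.le_zero.mp ht']
    | succ t ih =>
      intro hts t' ht'
      rcases Nat.of_le_succ ht' with h | h
      · have := ih (by omega) t' h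
        have := hgap t (by omega)
        omega
      · rw [h]
  have hps : ∀ t ≤ s, p t ≤ x := fun t ht => (hmono s (le_refl _) t ht).trans hxp
  set G := R (x - p s) with hG
  set X := XX s γ p M x W with hX
  set κ := kap s γ p w x with hκ
  have hXlt : ∀ t l, X t l % 3 ^ W = X t l := fun t l => Nat.mod_eq_of_lt (XX_lt _ _ _ _ _ _ _ _)
  have hXt : ∀ t < s, X t = blk W (γ t) (x - p t) := by
    intro t ht
    funext l
    rw [hX]; unfold XX; rw [if_pos ht]
  have hXs : ∀ l, X s l = (blk W w (x - p s) l + κ l) % 3 ^ W :=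
    XX_last s γ p w M x W hx hps hM
  have hκlog : ∀ S : Setoid ℕ, H Ω (Setoid.ker κ) S ≤ Ω.card * Real.log (s + 1) := by
    intro S
    have := H_le_log Ω κ S (Finset.range (s + 1))
      (fun a _ => Finset.mem_range.mpr (kap_le _ _ _ _ _ _))
    rw [Finset.card_range] at this
    push_cast at this
    exact this
  -- block lemma
  have hblock := hC Ω G W (fun t a => X t.val a) (by
    intro a ha z hz
    have h1 : (∑ t : Fin (s + 1), X t.val a) = ∑ t ∈ Finset.range (s + 1), X t a :=
      Fin.sum_univ_eq_sum_range (fun t => X t a) (s + 1)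
    rw [h1]
    have h2 : ∑ t ∈ Finset.range (s + 1), X t a ≡ blk W M x a [MOD 3 ^ W] :=
      XX_sum _ _ _ _ _ _ _
    have h3 : ∑ t ∈ Finset.range (s + 1), X t a ≡ M * a / 3 ^ x [MOD 3 ^ W] :=
      h2.trans (Nat.mod_modEq _ _)
    have h4 := div_mod_congr (y := z) (W := 1) (show z + 1 ≤ W by omega) h3
    rw [pow_one] at h4
    rw [h4, Nat.div_div_eq_div_mul, ← pow_add]
    exact hdig a ha (x + z) (by omega))
  simp only [hXlt] at hblock
  have hsumFin : ∑ t : Fin (s + 1), H Ω (Setoid.ker (fun a => X t.val a)) G =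
      ∑ t ∈ Finset.range (s + 1), H Ω (Setoid.ker (X t)) G :=
    Fin.sum_univ_eq_sum_range (fun t => H Ω (Setoid.ker (X t)) G) (s + 1)
  rw [hsumFin] at hblock
  set S := ∑ t ∈ Finset.range (s + 1), H Ω (Setoid.ker (X t)) G with hS
  set J := H Ω (Setoid.ker (fun (a : ℕ) (t : Fin (s + 1)) => X t.val a)) G with hJ
  -- lower bound for J
  let Jt : ℕ → Setoid ℕ := fun j => Setoid.ker
    (fun (a : ℕ) (t : Fin (s + 1)) => if j ≤ t.val then X t.val a else 0)
  have hJt : ∀ d ≤ s, H Ω (Setoid.ker (X s)) G + ∑ t ∈ Finset.Ico (s - d) s,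
      (H Ω (Setoid.ker (X t)) (R (x - p (t + 1) + W)) - Ω.card * Real.log (s + 1)) ≤
      H Ω (Jt (s - d)) G := by
    intro d
    induction d with
    | zero =>
      intro _
      simp only [Nat.sub_zero, Finset.Ico_self, Finset.sum_empty, add_zero]
      apply H_le_of_det
      rintro a b ⟨_, h⟩
      have := congrFun (h : (fun (t : Fin (s + 1)) => if s ≤ t.val then X t.val a else 0) = _)
        (Fin.last s)
      simpa using this
    | succ d ih =>
      intro hd
      have ih' := ih (by omega)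
      set j := s - (d + 1) with hj
      have hj1 : s - d = j + 1 := by omega
      have hjs : j < s := by omega
      rw [hj1] at ih'
      rw [← Finset.sum_Ioo_add_eq_sum_Ico hjs]
      have hIoo : Finset.Ioo j s = Finset.Ico (j + 1) s := by
        ext t; simp only [Finset.mem_Ioo, Finset.mem_Ico]; omega
      rw [hIoo]
      have h1 : H Ω (Jt (j + 1) ⊓ Setoid.ker (X j)) G ≤ H Ω (Jt j) G := by
        apply H_le_of_det
        rintro a b ⟨_, h⟩
        have h' : ∀ t : Fin (s + 1), (if j ≤ t.val then X t.val a else 0) =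
            (if j ≤ t.val then X t.val b else 0) := fun t => congrFun h t
        constructor
        · show (fun (t : Fin (s + 1)) => if j + 1 ≤ t.val then X t.val a else 0) =
            (fun (t : Fin (s + 1)) => if j + 1 ≤ t.val then X t.val b else 0)
          funext t
          have := h' t
          by_cases ht : j + 1 ≤ t.val
          · rw [if_pos (by omega), if_pos (by omega)] at this
            rw [if_pos ht, if_pos ht, this]
          · rw [if_neg ht, if_neg ht]
        · have := h' ⟨j, by omega⟩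
          rw [if_pos (le_refl _), if_pos (le_refl _)] at this
          exact this
      rw [H_chain] at h1
      have h2 : H Ω (Setoid.ker (X j)) (R (x - p (j + 1) + W) ⊓ Setoid.ker κ) ≤
          H Ω (Setoid.ker (X j)) (G ⊓ Jt (j + 1)) := by
        apply H_anti
        rintro a b ⟨hab, hκab⟩
        have hκab' : κ a = κ b := hκab
        have hpj : p (j + 1) ≤ p s := hmono s (le_refl _) (j + 1) (by omega)
        refine ⟨R_anti (by omega) hab, ?_⟩
        show (fun (t : Fin (s + 1)) => if j + 1 ≤ t.val then X t.val a else 0) =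
            (fun (t : Fin (s + 1)) => if j + 1 ≤ t.val then X t.val b else 0)
        funext t
        by_cases ht : j + 1 ≤ t.val
        · rw [if_pos ht, if_pos ht]
          by_cases hts : t.val < s
          · rw [hXt t.val hts]
            have hpt : p (j + 1) ≤ p t.val := hmono t.val (by omega) (j + 1) ht
            exact blk_det' (show x - p t.val + W ≤ x - p (j + 1) + W by omega) hab
          · have hts' : t.val = s := by have := t.2; omega
            rw [hts', hXs, hXs, hκab']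
            have := blk_det' (W := W) (G := w) (y := x - p s)
              (show x - p s + W ≤ x - p (j + 1) + W by omega) hab
            rw [show blk W w (x - p s) a = blk W w (x - p s) b from this]
        · rw [if_neg ht, if_neg ht]
      have h3 := H_le_add Ω (Setoid.ker (X j)) (R (x - p (j + 1) + W)) (Setoid.ker κ)
      have h4 := hκlog (R (x - p (j + 1) + W))
      linarith
  have hJlow := hJt s (le_refl _)
  rw [Nat.sub_self] at hJlow
  have hJ0 : H Ω (Jt 0) G = J := by
    rw [hJ]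
    congr 2
  rw [hJ0, ← Finset.range_eq_Ico] at hJlow
  -- rewrite X t as blk for t < s
  have hD : S - J ≤ ∑ t ∈ Finset.range s,
        (H Ω (Setoid.ker (blk W (γ t) (x - p t))) G -
          H Ω (Setoid.ker (blk W (γ t) (x - p t))) (R (x - p (t + 1) + W))) +
        s * (Ω.card * Real.log (s + 1)) := by
    have e1 : S = ∑ t ∈ Finset.range s, H Ω (Setoid.ker (blk W (γ t) (x - p t))) G +
        H Ω (Setoid.ker (X s)) G := by
      rw [hS, Finset.sum_range_succ]
      congr 1
      apply Finset.sum_congr rfl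
      intro t ht
      rw [hXt t (Finset.mem_range.mp ht)]
    have e2 : ∑ t ∈ Finset.range s,
      (H Ω (Setoid.ker (X t)) (R (x - p (t + 1) + W)) - Ω.card * Real.log (s + 1)) =
      ∑ t ∈ Finset.range s,
        H Ω (Setoid.ker (blk W (γ t) (x - p t))) (R (x - p (t + 1) + W)) -
        s * (Ω.card * Real.log (s + 1)) := by
      rw [Finset.sum_sub_distrib, Finset.sum_const, Finset.card_range, nsmul_eq_mul]
      congr 1
      apply Finset.sum_congr rfl
      intro t ht
      rw [hXt t (Finset.mem_range.mp ht)]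
    rw [e2] at hJlow
    rw [Finset.sum_sub_distrib, e1]
    linarith
  have hSlow : ∑ t ∈ Finset.range (s + 1), eta Ω W (x - p t) - Ω.card * Real.log (s + 1) ≤ S := by
    rw [Finset.sum_range_succ, hS, Finset.sum_range_succ]
    have h1 : ∑ t ∈ Finset.range s, eta Ω W (x - p t) ≤
        ∑ t ∈ Finset.range s, H Ω (Setoid.ker (X t)) G := by
      apply Finset.sum_le_sum
      intro t ht
      have ht' := Finset.mem_range.mp ht
      rw [hXt t ht', ← H_blk_eq Ω (hγ t ht')]
      apply H_anti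
      have := hmono s (le_refl _) t ht'.le
      exact R_anti (by omega)
    have h2 : eta Ω W (x - p s) ≤ H Ω (Setoid.ker (X s)) G + Ω.card * Real.log (s + 1) := by
      rw [← H_blk_eq Ω hw]
      have h3 : H Ω (Setoid.ker (blk W w (x - p s))) G ≤
          H Ω (Setoid.ker (X s) ⊓ Setoid.ker κ) G := by
        apply H_le_of_det
        rintro a b ⟨_, h1, h2⟩
        have h1' : X s a = X s b := h1
        have h2' : κ a = κ b := h2
        rw [hXs, hXs, h2'] at h1'
        have h4 : blk W w (x - p s) a ≡ blk W w (x - p s) b [MOD 3 ^ W] :=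
          Nat.ModEq.add_right_cancel' (κ b) h1'
        show blk W w (x - p s) a = blk W w (x - p s) b
        have h5 : blk W w (x - p s) a % 3 ^ W = blk W w (x - p s) b % 3 ^ W := h4
        rwa [Nat.mod_eq_of_lt (blk_lt _ _ _ _), Nat.mod_eq_of_lt (blk_lt _ _ _ _)] at h5
      rw [H_chain] at h3
      have h4 := hκlog (G ⊓ Setoid.ker (X s))
      linarith
    linarith
  have h5 := mul_le_mul_of_nonneg_left hD (show 0 ≤ C + 1 by linarith)
  linarith

end Pool.Agent.Lib.MP_ed49ca_nt
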