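import Mathlib
import Pool.Agent.Lib.MP_ed49ca_nt.PerX

set_option autoImplicit false

namespace Pool.Agent.Lib.MP_ed49ca_nt

open Finset Classical

theorem core (s : ℕ) {ε : ℝ} (hε : 0 < ε) : ∃ W K : ℕ, 0 < W ∧ 0 < K ∧
    ∀ (n : ℕ) (Ω : Finset ℕ) (γ : ℕ → ℕ) (p : ℕ → ℕ → ℕ) (w M : ℕ → ℕ) (Pmax : ℕ),
    Ω ⊆ Finset.range (3 ^ n) → Ω.Nonempty →
    (∀ t < s, ¬ 3 ∣ γ t) → (∀ k < K, ¬ 3 ∣ w k) → (∀ k < K, p k s ≤ Pmax) →
    (∀ k < K, ∀ t < s, p k t + W ≤ p k (t + 1)) →
    (∀ k, k + 1 < K → ∀ t < s, p k s + p (k + 1) t + W ≤ p (k + 1) (t + 1)) →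
    (∀ k < K, M k ≡ ∑ t ∈ Finset.range s, γ t * 3 ^ p k t + w k * 3 ^ p k s [MOD 3 ^ n]) →
    (∀ k < K, ∀ l ∈ Ω, ∀ z < n, (M k * l / 3 ^ z) % 3 ≠ 2) →
    ((s : ℝ) + 1) * Real.log Ω.card ≤
      ((n : ℝ) + 1) * (Real.log 2 + ε) + ((s : ℝ) + 1) * ((2 * W + Pmax) * Real.log 3) := by
  have hε4 : 0 < ε / 4 := by positivity
  obtain ⟨C, hC0, hC⟩ := block_lemma (s + 1) hε4
  have hlog3 : 0 < Real.log 3 := Real.log_pos (by norm_num)
  have hlog2 : 0 < Real.log 2 := Real.log_pos (by norm_num)
  have hlogs : 0 ≤ Real.log (s + 1) := Real.log_nonneg (by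
    have : (0 : ℝ) ≤ s := Nat.cast_nonneg s
    linarith)
  obtain ⟨K, hK⟩ := exists_nat_gt (4 * ((C + 1) * (s * Real.log 3)) / ε)
  obtain ⟨W, hW⟩ := exists_nat_gt (4 * (((C + 1) * s + 1) * Real.log (s + 1)) / ε)
  have hKpos : 0 < K := by
    have : (0 : ℝ) < K := lt_of_le_of_lt (by positivity) hK
    exact_mod_cast this
  have hWpos : 0 < W := by
    have : (0 : ℝ) < W := lt_of_le_of_lt (by positivity) hW
    exact_mod_cast this
  have hKr : (0 : ℝ) < K := by exact_mod_cast hKpos
  have hWr : (0 : ℝ) < W := by exact_mod_cast hWpos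
  have hK' : (C + 1) * (s * Real.log 3 / K) ≤ ε / 4 := by
    rw [div_lt_iff₀ hε] at hK
    rw [← mul_div_assoc, div_le_iff₀ hKr]
    linarith
  have hW' : ((C + 1) * s + 1) * (Real.log (s + 1) / W) ≤ ε / 4 := by
    rw [div_lt_iff₀ hε] at hW
    rw [← mul_div_assoc, div_le_iff₀ hWr]
    linarith
  refine ⟨W, K, hWpos, hKpos, ?_⟩
  intro n Ω γ p w M Pmax hΩ hne hγ hw hPmax hgap hdisj hM hdig
  have hNpos : 0 < Ω.card := Finset.card_pos.mpr hne
  have hNr : (0 : ℝ) < Ω.card := by exact_mod_cast hNpos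
  by_cases hn : n < W + Pmax
  · have h1 : Real.log Ω.card ≤ n * Real.log 3 := by
      rw [← Real.log_pow]
      apply Real.log_le_log hNr
      have := Finset.card_le_card hΩ
      rw [Finset.card_range] at this
      exact_mod_cast this
    have h2 : (n : ℝ) * Real.log 3 ≤ (2 * W + Pmax) * Real.log 3 := by
      apply mul_le_mul_of_nonneg_right _ hlog3.le
      have : n ≤ 2 * W + Pmax := by omega
      exact_mod_cast this
    have h3 : ((s : ℝ) + 1) * Real.log Ω.card ≤ ((s : ℝ) + 1) * ((2 * W + Pmax) * Real.log 3) :=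
      mul_le_mul_of_nonneg_left (h1.trans h2) (by positivity)
    have h4 : 0 ≤ ((n : ℝ) + 1) * (Real.log 2 + ε) := by positivity
    linarith
  push Not at hn
  set A := n - W + 1 with hA
  set N : ℝ := (Ω.card : ℝ) with hN
  -- the functions g
  let g : ℕ → ℕ → ℝ := fun t P =>
    ∑ y ∈ Finset.range A, H Ω (Setoid.ker (blk W (γ t) y)) (R (y - P))
  have hgmono : ∀ t, Monotone (g t) := by
    intro t P P' hPP
    apply Finset.sum_le_sum
    intro y _
    exact H_anti Ω _ (R_anti (by omega))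
  have hg0 : ∀ t P, 0 ≤ g t P := fun t P => Finset.sum_nonneg (fun y _ => H_nonneg _ _ _)
  have hgB : ∀ t P, g t P ≤ A * (N * (W * Real.log 3)) := by
    intro t P
    have h1 : g t P ≤ ∑ y ∈ Finset.range A, (N * (W * Real.log 3)) :=
      Finset.sum_le_sum (fun y _ => H_blk_le Ω _)
    rwa [Finset.sum_const, Finset.card_range, nsmul_eq_mul] at h1
  let incr : ℕ → ℕ → ℝ := fun k t =>
    g t (p k s - p k t) - g t (p k (t + 1) - p k t - W)
  have hincr : ∑ k ∈ Finset.range K, ∑ t ∈ Finset.range s, incr k t ≤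
      s * (A * (N * (W * Real.log 3))) := by
    rw [Finset.sum_comm]
    have h1 : ∀ t ∈ Finset.range s, ∑ k ∈ Finset.range K, incr k t ≤
        A * (N * (W * Real.log 3)) := by
      intro t ht
      have ht' := Finset.mem_range.mp ht
      exact telescope (hgmono t) (hg0 t) (hgB t) (fun k => p k (t + 1) - p k t - W)
        (fun k => p k s - p k t) K (fun k hk => by
          have := hdisj k hk t ht'
          show p k s - p k t ≤ p (k + 1) (t + 1) - p (k + 1) t - W
          omega)
    have h2 := Finset.sum_le_sum h1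
    rwa [Finset.sum_const, Finset.card_range, nsmul_eq_mul] at h2
  obtain ⟨k, hk, hkincr⟩ : ∃ k < K, ∑ t ∈ Finset.range s, incr k t ≤
      s * (A * (N * (W * Real.log 3))) / K := by
    by_contra hcon
    push Not at hcon
    have h1 : ∑ k ∈ Finset.range K, (s * (A * (N * (W * Real.log 3))) / K) <
        ∑ k ∈ Finset.range K, ∑ t ∈ Finset.range s, incr k t := by
      apply Finset.sum_lt_sum_of_nonempty
      · exact Finset.nonempty_range_iff.mpr hKpos.ne'
      · intro k hk
        exact hcon k (Finset.mem_range.mp hk)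
    rw [Finset.sum_const, Finset.card_range, nsmul_eq_mul] at h1
    have h2 : (K : ℝ) * (s * (A * (N * (W * Real.log 3))) / K) =
      s * (A * (N * (W * Real.log 3))) := by field_simp
    linarith
  have hmono : ∀ t ≤ s, ∀ t' ≤ t, p k t' ≤ p k t := by
    intro t
    induction t with
    | zero =>
      intro _ t' ht'
      rw [Nat.le_zero.mp ht']
    | succ t ih =>
      intro hts t' ht'
      rcases Nat.of_le_succ ht' with h | h
      · have := ih (by omega) t' h
        have := hgap k hk t (by omega)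
        omega
      · rw [h]
  have hpsP := hPmax k hk
  have hpA : p k s ≤ A := by omega
  -- sum the perx inequality
  have hper : ∀ x ∈ Finset.Ico (p k s) A,
      ∑ t ∈ Finset.range (s + 1), eta Ω W (x - p k t) - N * Real.log (s + 1) ≤
      N * (W * (Real.log 2 + ε / 4)) +
      (C + 1) * (∑ t ∈ Finset.range s,
        (H Ω (Setoid.ker (blk W (γ t) (x - p k t))) (R (x - p k s)) -
          H Ω (Setoid.ker (blk W (γ t) (x - p k t))) (R (x - p k (t + 1) + W))) +
        s * (N * Real.log (s + 1))) := by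
    intro x hx
    rw [Finset.mem_Ico] at hx
    exact perx s C hC hC0 γ (p k) (w k) (M k) x W n Ω hγ (hw k hk) (hgap k hk) hx.1 (by omega)
      (hM k hk) (hdig k hk)
  have hsum := Finset.sum_le_sum hper
  have e_l : ∀ (f : ℕ → ℝ) (c : ℝ), ∑ x ∈ Finset.Ico (p k s) A, (f x - c) =
      ∑ x ∈ Finset.Ico (p k s) A, f x - ((A - p k s : ℕ) : ℝ) * c := by
    intro f c
    rw [Finset.sum_sub_distrib, Finset.sum_const, Nat.card_Ico, nsmul_eq_mul]
  have e_r : ∀ (f : ℕ → ℝ) (c₁ c₂ c₃ : ℝ), ∑ x ∈ Finset.Ico (p k s) A, (c₁ + c₂ * (f x + c₃)) =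
      ((A - p k s : ℕ) : ℝ) * c₁ + c₂ * (∑ x ∈ Finset.Ico (p k s) A, f x +
        ((A - p k s : ℕ) : ℝ) * c₃) := by
    intro f c₁ c₂ c₃
    rw [Finset.sum_add_distrib, Finset.sum_const, ← Finset.mul_sum, Finset.sum_add_distrib,
      Finset.sum_const, Nat.card_Ico, nsmul_eq_mul, nsmul_eq_mul]
  rw [e_l, e_r] at hsum
  -- left side
  have hleft : ((s : ℝ) + 1) * (W * (N * (Real.log N - 2 * W * Real.log 3)) -
      Pmax * (N * (W * Real.log 3))) ≤
      ∑ x ∈ Finset.Ico (p k s) A, ∑ t ∈ Finset.range (s + 1), eta Ω W (x - p k t) := by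
    rw [Finset.sum_comm]
    have h1 : ∀ t ∈ Finset.range (s + 1), W * (N * (Real.log N - 2 * W * Real.log 3)) -
      Pmax * (N * (W * Real.log 3)) ≤ ∑ x ∈ Finset.Ico (p k s) A, eta Ω W (x - p k t) := by
      intro t ht
      have ht' := Finset.mem_range.mp ht
      have h2 := sum_eta_shift (Ω := Ω) (W := W) (hmono s (le_refl _) t (by omega)) hpA
      have h3 := sum_eta_ge hΩ (show W ≤ n by omega)
      have h4 : (p k s : ℝ) * (N * (W * Real.log 3)) ≤ Pmax * (N * (W * Real.log 3)) := by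
        apply mul_le_mul_of_nonneg_right _ (by positivity)
        exact_mod_cast hpsP
      linarith
    have h5 := Finset.sum_le_sum h1
    rw [Finset.sum_const, Finset.card_range, nsmul_eq_mul] at h5
    push_cast at h5
    exact h5
  -- the increments
  have hinc2 : ∑ x ∈ Finset.Ico (p k s) A, ∑ t ∈ Finset.range s,
        (H Ω (Setoid.ker (blk W (γ t) (x - p k t))) (R (x - p k s)) -
          H Ω (Setoid.ker (blk W (γ t) (x - p k t))) (R (x - p k (t + 1) + W))) ≤
      ∑ t ∈ Finset.range s, incr k t := by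
    rw [Finset.sum_comm]
    apply Finset.sum_le_sum
    intro t ht
    have ht' := Finset.mem_range.mp ht
    have hg1 := hgap k hk t ht'
    have hm1 := hmono s (le_refl _) (t + 1) (by omega)
    have e1 : ∑ x ∈ Finset.Ico (p k s) A,
        (H Ω (Setoid.ker (blk W (γ t) (x - p k t))) (R (x - p k s)) -
          H Ω (Setoid.ker (blk W (γ t) (x - p k t))) (R (x - p k (t + 1) + W))) =
        ∑ y ∈ Finset.Ico (p k s - p k t) (A - p k t),
        (H Ω (Setoid.ker (blk W (γ t) y)) (R (y - (p k s - p k t))) -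
          H Ω (Setoid.ker (blk W (γ t) y)) (R (y - (p k (t + 1) - p k t - W)))) := by
      have := Finset.sum_Ico_add' (fun x =>
        (H Ω (Setoid.ker (blk W (γ t) (x - p k t))) (R (x - p k s)) -
          H Ω (Setoid.ker (blk W (γ t) (x - p k t))) (R (x - p k (t + 1) + W))))
        (p k s - p k t) (A - p k t) (p k t)
      rw [show p k s - p k t + p k t = p k s by omega,
        show A - p k t + p k t = A by omega] at this
      rw [← this]
      apply Finset.sum_congr rfl
      intro y hy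
      rw [Finset.mem_Ico] at hy
      rw [show y + p k t - p k t = y by omega,
        show y + p k t - p k s = y - (p k s - p k t) by omega,
        show y + p k t - p k (t + 1) + W = y - (p k (t + 1) - p k t - W) by omega]
    rw [e1]
    show _ ≤ g t (p k s - p k t) - g t (p k (t + 1) - p k t - W)
    rw [← Finset.sum_sub_distrib]
    apply Finset.sum_le_sum_of_subset_of_nonneg
    · intro y hy
      rw [Finset.mem_Ico] at hy
      rw [Finset.mem_range]
      omega
    · intro y _ _
      have := H_anti Ω (Setoid.ker (blk W (γ t) y))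
        (R_anti (show y - (p k s - p k t) ≤ y - (p k (t + 1) - p k t - W) by omega))
      linarith
  have hcardle : ((A - p k s : ℕ) : ℝ) ≤ A := by exact_mod_cast Nat.sub_le _ _
  have hAn : (A : ℝ) ≤ n + 1 := by
    have : A ≤ n + 1 := by omega
    exact_mod_cast this
  have hA0 : (0 : ℝ) ≤ A := Nat.cast_nonneg _
  -- combine
  have b1 : ((A - p k s : ℕ) : ℝ) * (N * (W * (Real.log 2 + ε / 4))) ≤
      A * (N * (W * (Real.log 2 + ε / 4))) :=
    mul_le_mul_of_nonneg_right hcardle (by positivity)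
  have b2 : ((A - p k s : ℕ) : ℝ) * (s * (N * Real.log (s + 1))) ≤
      A * (s * (N * Real.log (s + 1))) :=
    mul_le_mul_of_nonneg_right hcardle (by positivity)
  have b3 : ((A - p k s : ℕ) : ℝ) * (N * Real.log (s + 1)) ≤ A * (N * Real.log (s + 1)) :=
    mul_le_mul_of_nonneg_right hcardle (by positivity)
  have b4 := mul_le_mul_of_nonneg_left (add_le_add (hinc2.trans hkincr) b2)
    (show 0 ≤ C + 1 by linarith)
  have main : ((s : ℝ) + 1) * (W * (N * (Real.log N - 2 * W * Real.log 3)) -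
      Pmax * (N * (W * Real.log 3))) ≤ A * (N * Real.log (s + 1)) +
      A * (N * (W * (Real.log 2 + ε / 4))) +
      (C + 1) * (s * (A * (N * (W * Real.log 3))) / K + A * (s * (N * Real.log (s + 1)))) := by
    linarith
  have e2 : ((s : ℝ) + 1) * (W * (N * (Real.log N - 2 * W * Real.log 3)) -
      Pmax * (N * (W * Real.log 3))) =
      (N * W) * (((s : ℝ) + 1) * (Real.log N - (2 * W + Pmax) * Real.log 3)) := by ring
  have e3 : A * (N * Real.log (s + 1)) +
      A * (N * (W * (Real.log 2 + ε / 4))) +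
      (C + 1) * (s * (A * (N * (W * Real.log 3))) / K + A * (s * (N * Real.log (s + 1)))) =
      (N * W) * (A * ((Real.log 2 + ε / 4) + (C + 1) * (s * Real.log 3 / K) +
        ((C + 1) * s + 1) * (Real.log (s + 1) / W))) := by
    field_simp
    ring
  rw [e2, e3] at main
  have main2 := le_of_mul_le_mul_left main (by positivity : 0 < N * W)
  have h7 : A * ((Real.log 2 + ε / 4) + (C + 1) * (s * Real.log 3 / K) +
        ((C + 1) * s + 1) * (Real.log (s + 1) / W)) ≤ (n + 1) * (Real.log 2 + ε) := by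
    apply mul_le_mul hAn (by linarith) (by positivity) (by positivity)
  have e4 : ((s : ℝ) + 1) * (Real.log N - (2 * W + Pmax) * Real.log 3) =
    ((s : ℝ) + 1) * Real.log N - ((s : ℝ) + 1) * ((2 * W + Pmax) * Real.log 3) := by ring
  rw [e4] at main2
  linarith

end Pool.Agent.Lib.MP_ed49ca_nt
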