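import Mathlib

set_option autoImplicit false

namespace Pool.Agent.Lib.MP_ed49ca_nt

open Filter MeasureTheory

/-- residues mod `3 ^ n` all of whose multiples by `2 ^ m`, `m ∈ F`, omit the digit 2 -/
noncomputable def Om (F : Finset ℕ) (n : ℕ) : Finset ℕ :=
  open Classical in
  (Finset.range (3 ^ n)).filter (fun l => ∀ m ∈ F, ∀ z < n, (2 ^ m * l / 3 ^ z) % 3 ≠ 2)

theorem mem_Om {F : Finset ℕ} {n l : ℕ} : l ∈ Om F n ↔
    l < 3 ^ n ∧ ∀ m ∈ F, ∀ z < n, (2 ^ m * l / 3 ^ z) % 3 ≠ 2 := by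
  unfold Om
  rw [Finset.mem_filter, Finset.mem_range]

/-- the statement that `2 ^ m * x` omits the digit 2 -/
def Omits (m : ℕ) (x : ℤ_[3]) : Prop :=
  ∀ k : ℕ, (PadicInt.toZModPow (k + 1) ((2 : ℤ_[3]) ^ m * x)).val / 3 ^ k ≠ 2

def XF (F : Finset ℕ) : Set ℤ_[3] := {x | ∀ m ∈ F, Omits m x}

/-- cylinder -/
def cyl (n l : ℕ) : Set ℤ_[3] := {x | PadicInt.toZModPow n x = (l : ZMod (3 ^ n))}

theorem toZModPow_val (x : ℤ_[3]) {m n : ℕ} (h : m ≤ n) :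
    (PadicInt.toZModPow m x).val = (PadicInt.toZModPow n x).val % 3 ^ m := by
  have : NeZero (3 ^ n) := ⟨by positivity⟩
  have : NeZero (3 ^ m) := ⟨by positivity⟩
  have h1 := PadicInt.cast_toZModPow m n h x
  rw [← h1, ZMod.cast_eq_val, ZMod.val_natCast]

theorem XF_subset (F : Finset ℕ) (n : ℕ) : XF F ⊆ ⋃ l : {l // l ∈ Om F n}, cyl n l.1 := by
  intro x hx
  have : NeZero (3 ^ n) := ⟨by positivity⟩
  rw [Set.mem_iUnion]
  refine ⟨⟨(PadicInt.toZModPow n x).val, ?_⟩, ?_⟩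
  · rw [mem_Om]
    refine ⟨ZMod.val_lt _, ?_⟩
    intro m hm z hz
    have h1 := hx m hm z
    have : NeZero (3 ^ (z + 1)) := ⟨by positivity⟩
    have h2 : (PadicInt.toZModPow (z + 1) ((2 : ℤ_[3]) ^ m * x)).val =
        (2 ^ m * (PadicInt.toZModPow n x).val) % 3 ^ (z + 1) := by
      rw [map_mul, map_pow, ZMod.val_mul, toZModPow_val x (show z + 1 ≤ n by omega)]
      have h3 : ((PadicInt.toZModPow (z + 1)) (2 : ℤ_[3])) = ((2 : ℕ) : ZMod (3 ^ (z + 1))) := by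
        push_cast
        exact map_ofNat _ 2
      rw [h3, ← Nat.cast_pow, ZMod.val_natCast, ← Nat.mul_mod]
    rw [h2, pow_succ, Nat.mod_mul_right_div_self] at h1
    exact h1
  · show PadicInt.toZModPow n x = (((PadicInt.toZModPow n x).val : ℕ) : ZMod (3 ^ n))
    rw [ZMod.natCast_zmod_val]

theorem ediam_cyl (n l : ℕ) : Metric.ediam (cyl n l) ≤ ENNReal.ofReal ((3 : ℝ) ^ (-(n : ℤ))) := by
  apply Metric.ediam_le
  intro x hx y hy
  rw [edist_dist, dist_eq_norm]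
  apply ENNReal.ofReal_le_ofReal
  have h : x - y ∈ Ideal.span {((3 : ℕ) : ℤ_[3]) ^ n} := by
    rw [← PadicInt.ker_toZModPow, RingHom.mem_ker, map_sub]
    rw [show PadicInt.toZModPow n x = (l : ZMod (3 ^ n)) from hx,
      show PadicInt.toZModPow n y = (l : ZMod (3 ^ n)) from hy, sub_self]
  have := (PadicInt.norm_le_pow_iff_mem_span_pow (x - y) n).mpr h
  exact_mod_cast this

theorem dim_XF_le (F : Finset ℕ) (d : NNReal) (h : ∃ᶠ n : ℕ in atTop,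
    ((Om F n).card : ℝ) ≤ (3 : ℝ) ^ ((d : ℝ) * n)) : dimH (XF F) ≤ d := by
  borelize ℤ_[3]
  apply dimH_le_of_hausdorffMeasure_ne_top
  have hr : Tendsto (fun n : ℕ => ENNReal.ofReal ((3 : ℝ) ^ (-(n : ℤ)))) atTop (nhds 0) := by
    rw [← ENNReal.ofReal_zero]
    apply ENNReal.tendsto_ofReal
    have : Tendsto (fun n : ℕ => ((1 : ℝ) / 3) ^ n) atTop (nhds 0) :=
      tendsto_pow_atTop_nhds_zero_of_lt_one (by norm_num) (by norm_num)
    refine this.congr (fun n => ?_)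
    rw [zpow_neg, zpow_natCast, one_div, inv_pow]
  have key := Measure.hausdorffMeasure_le_liminf_sum (d : ℝ) (XF F)
    (l := atTop) (ι := fun n : ℕ => {l // l ∈ Om F n})
    (fun n : ℕ => ENNReal.ofReal ((3 : ℝ) ^ (-(n : ℤ)))) hr
    (fun n l => cyl n l.1) (Eventually.of_forall (fun n l => ediam_cyl n l.1))
    (Eventually.of_forall (fun n => XF_subset F n))
  have h2 : liminf (fun n : ℕ => ∑ i : {l // l ∈ Om F n}, Metric.ediam (cyl n i.1) ^ (d : ℝ))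
      atTop ≤ 1 := by
    refine liminf_le_of_frequently_le (h.mono (fun n hn => ?_)) (by isBoundedDefault)
    have h3 : ∑ i : {l // l ∈ Om F n}, Metric.ediam (cyl n i.1) ^ (d : ℝ) ≤
        ∑ i : {l // l ∈ Om F n}, (ENNReal.ofReal ((3 : ℝ) ^ (-(n : ℤ)))) ^ (d : ℝ) := by
      apply Finset.sum_le_sum
      intro i _
      exact ENNReal.rpow_le_rpow (ediam_cyl n i.1) (NNReal.coe_nonneg d)
    refine h3.trans ?_
    rw [Finset.sum_const, Finset.card_univ, Fintype.card_coe, nsmul_eq_mul,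
      ENNReal.ofReal_rpow_of_nonneg (zpow_nonneg (by norm_num) _ : (0 : ℝ) ≤ (3 : ℝ) ^ (-(n : ℤ)))
        (NNReal.coe_nonneg d)]
    rw [← ENNReal.ofReal_natCast, ← ENNReal.ofReal_mul (Nat.cast_nonneg _), ← ENNReal.ofReal_one]
    apply ENNReal.ofReal_le_ofReal
    have e1 : ((3 : ℝ) ^ (-(n : ℤ))) ^ (d : ℝ) = (3 : ℝ) ^ (-((d : ℝ) * n)) := by
      rw [← Real.rpow_intCast, ← Real.rpow_mul (by norm_num)]
      congr 1
      push_cast
      ring
    rw [e1, Real.rpow_neg (by norm_num)]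
    have h4 : (0 : ℝ) < (3 : ℝ) ^ ((d : ℝ) * n) := by positivity
    rw [← div_eq_mul_inv, div_le_one h4]
    exact hn
  exact ne_top_of_le_ne_top ENNReal.one_ne_top (key.trans h2)

theorem dim_zero_of_main (hmain : ∀ N : Set ℕ, N.Infinite → ∀ ε : ℝ, 0 < ε →
    ∃ F : Finset ℕ, (↑F : Set ℕ) ⊆ N ∧ ∃ᶠ n : ℕ in atTop,
      ((Om F n).card : ℝ) ≤ (3 : ℝ) ^ (ε * n)) :
    dimH {x : ℤ_[3] | Set.Infinite {n : ℕ | ∀ k : ℕ,
      (PadicInt.toZModPow (k + 1) ((2 : ℤ_[3]) ^ n * x)).val / 3 ^ k ≠ 2}} = 0 := by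
  classical
  apply le_antisymm _ zero_le
  apply ENNReal.le_of_forall_pos_le_add
  intro ε hε _
  rw [zero_add]
  let good : Finset ℕ → Prop := fun F => ∃ᶠ n : ℕ in atTop,
      ((Om F n).card : ℝ) ≤ (3 : ℝ) ^ ((ε : ℝ) * n)
  have hsub : {x : ℤ_[3] | Set.Infinite {n : ℕ | ∀ k : ℕ,
      (PadicInt.toZModPow (k + 1) ((2 : ℤ_[3]) ^ n * x)).val / 3 ^ k ≠ 2}} ⊆
      ⋃ F : Finset ℕ, (if good F then XF F else ∅) := by
    intro x hx
    obtain ⟨F, hF, hgood⟩ := hmain _ hx ε (by exact_mod_cast hε)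
    rw [Set.mem_iUnion]
    refine ⟨F, ?_⟩
    rw [if_pos hgood]
    intro m hm
    exact hF hm
  refine (dimH_mono hsub).trans ?_
  rw [dimH_iUnion]
  apply iSup_le
  intro F
  by_cases hF : good F
  · rw [if_pos hF]
    exact dim_XF_le F ε hF
  · rw [if_neg hF, dimH_empty]
    exact zero_le

end Pool.Agent.Lib.MP_ed49ca_nt
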