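import Mathlib

set_option autoImplicit false

namespace Pool.Agent.Lib.MP_ed49ca_nt

open Filter

/-- rational coefficients from 3-adic ones -/
theorem rational_coeffs {ι : Type} (s : ℕ) (v : ι → Fin (s + 1) → ℚ) (y : ι → ℚ)
    (γ : Fin (s + 1) → ℚ_[3])
    (h : ∀ i, (y i : ℚ_[3]) = ∑ t, γ t * (v i t : ℚ_[3])) :
    ∃ r : Fin (s + 1) → ℚ, ∀ i, y i = ∑ t, r t * v i t := by
  classical
  let L : (ι →₀ ℚ) →ₗ[ℚ] (Fin (s + 1) → ℚ) := Finsupp.linearCombination ℚ v
  let T : (ι →₀ ℚ) →ₗ[ℚ] ℚ := Finsupp.linearCombination ℚ y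
  have hT : T ∈ (LinearMap.ker L).dualAnnihilator := by
    rw [Submodule.mem_dualAnnihilator]
    intro c hc
    rw [LinearMap.mem_ker] at hc
    have hc' : ∀ t, ∑ i ∈ c.support, c i * v i t = 0 := by
      intro t
      have := congrFun hc t
      simpa [L, Finsupp.linearCombination_apply, Finsupp.sum, Finset.sum_apply] using this
    have goal : T c = ∑ i ∈ c.support, c i * y i := by
      simp [T, Finsupp.linearCombination_apply, Finsupp.sum]
    rw [goal]
    have h2 : ((∑ i ∈ c.support, c i * y i : ℚ) : ℚ_[3]) = 0 := by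
      push_cast
      have e1 : ∀ i ∈ c.support, (c i : ℚ_[3]) * (y i : ℚ_[3]) =
          ∑ t, γ t * ((c i : ℚ_[3]) * (v i t : ℚ_[3])) := by
        intro i _
        rw [h i, Finset.mul_sum]
        apply Finset.sum_congr rfl
        intro t _
        ring
      rw [Finset.sum_congr rfl e1, Finset.sum_comm]
      apply Finset.sum_eq_zero
      intro t _
      rw [← Finset.mul_sum]
      have e2 : ∑ i ∈ c.support, (c i : ℚ_[3]) * (v i t : ℚ_[3]) = 0 := by
        have := congrArg (fun q : ℚ => (q : ℚ_[3])) (hc' t)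
        push_cast at this
        exact this
      rw [e2, mul_zero]
    exact_mod_cast h2
  rw [← LinearMap.range_dualMap_eq_dualAnnihilator_ker] at hT
  obtain ⟨f, hf⟩ := hT
  refine ⟨fun t => f (Pi.single t 1), fun i => ?_⟩
  have h1 : T (Finsupp.single i 1) = y i := by simp [T]
  have h2 : L (Finsupp.single i 1) = v i := by simp [L]
  have h3 : f (L (Finsupp.single i 1)) = T (Finsupp.single i 1) := by
    rw [← hf]; rfl
  rw [h1, h2] at h3
  rw [← h3]
  have h4 : v i = ∑ t, (v i t) • (Pi.single t (1 : ℚ) : Fin (s + 1) → ℚ) := by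
    funext t'
    simp [Finset.sum_apply, Pi.single_apply]
  conv_lhs => rw [h4]
  rw [map_sum]
  apply Finset.sum_congr rfl
  intro t _
  rw [map_smul, smul_eq_mul, mul_comm]

theorem common_den (s : ℕ) (r : Fin (s + 1) → ℚ) : ∃ (c : ℕ) (a : ℕ → ℤ), 0 < c ∧
    ∀ t : Fin (s + 1), (a t.val : ℚ) = c * r t := by
  classical
  refine ⟨∏ t, (r t).den, fun j => if h : j < s + 1 then
    (r ⟨j, h⟩).num * ∏ t ∈ Finset.univ.erase (⟨j, h⟩ : Fin (s + 1)), ((r t).den : ℤ) else 0,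
    Finset.prod_pos (fun t _ => (r t).den_pos), fun t => ?_⟩
  simp only [t.2, dif_pos, Fin.eta]
  push_cast
  rw [← Finset.mul_prod_erase Finset.univ (fun t => ((r t).den : ℚ)) (Finset.mem_univ t)]
  have h1 : ((r t).num : ℚ) = (r t).den * r t := by
    rw [mul_comm]; exact (Rat.mul_den_eq_num _).symm
  rw [h1]
  ring

/-- the Diophantine input -/
def GelfondStatement : Prop := ∃ C : ℕ, ∀ (m c : ℕ) (B : ℤ), 0 < c → (c : ℤ) * 4 ^ m ≠ B →
    padicValInt 3 ((c : ℤ) * 4 ^ m - B) ≤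
      C * (1 + Nat.log 2 (m + 1) + Nat.log 2 c + Nat.log 2 (B.natAbs + 1)) ^ 6

theorem gelfond_two (hG : GelfondStatement) (c : ℕ) (hc : 0 < c) :
    ∃ C : ℕ, ∀ (n : ℕ) (B : ℤ), (c : ℤ) * 2 ^ n ≠ B →
      padicValInt 3 ((c : ℤ) * 2 ^ n - B) ≤
        C * (1 + Nat.log 2 (n + 1) + Nat.log 2 (B.natAbs + 1)) ^ 6 := by
  obtain ⟨C, hC⟩ := hG
  refine ⟨C * (2 + Nat.log 2 (2 * c)) ^ 6, ?_⟩
  intro n B hne
  have key : ∀ (m c' : ℕ), 0 < c' → c' ≤ 2 * c → m ≤ n → (c' : ℤ) * 4 ^ m = (c : ℤ) * 2 ^ n →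
      padicValInt 3 ((c : ℤ) * 2 ^ n - B) ≤
        C * (2 + Nat.log 2 (2 * c)) ^ 6 *
          (1 + Nat.log 2 (n + 1) + Nat.log 2 (B.natAbs + 1)) ^ 6 := by
    intro m c' hc' hcc hmn he
    have h1 := hC m c' B hc' (by rw [he]; exact hne)
    rw [he] at h1
    refine h1.trans ?_
    rw [mul_assoc]
    apply Nat.mul_le_mul_left
    rw [← mul_pow]
    apply Nat.pow_le_pow_left
    have h2 : Nat.log 2 (m + 1) ≤ Nat.log 2 (n + 1) := Nat.log_mono_right (by omega)
    have h3 : Nat.log 2 c' ≤ Nat.log 2 (2 * c) := Nat.log_mono_right hcc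
    set x := Nat.log 2 (n + 1) + Nat.log 2 (B.natAbs + 1) with hx
    have h4 : 1 + Nat.log 2 (m + 1) + Nat.log 2 c' + Nat.log 2 (B.natAbs + 1) ≤
        1 + x + Nat.log 2 (2 * c) := by omega
    have h5 : 1 + Nat.log 2 (n + 1) + Nat.log 2 (B.natAbs + 1) = 1 + x := by omega
    rw [h5]
    refine h4.trans ?_
    nlinarith [Nat.zero_le x, Nat.zero_le (Nat.log 2 (2 * c))]
  rcases Nat.even_or_odd' n with ⟨m, hm | hm⟩
  · refine key m c hc (by omega) (by omega) ?_
    rw [hm, pow_mul]; norm_num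
  · refine key m (2 * c) (by omega) (le_refl _) (by omega) ?_
    rw [hm, pow_succ, pow_mul]; push_cast; ring

theorem polylog_small (A D a : ℕ) : ∀ᶠ n : ℕ in atTop,
    a + A * (1 + Nat.log 2 (n + 1)) ^ D < n := by
  have h1 : Tendsto (fun x : ℕ => (x : ℝ) ^ D / (2 : ℝ) ^ x) atTop (nhds 0) :=
    tendsto_pow_const_div_const_pow_of_one_lt D (by norm_num)
  have h2 : Tendsto (fun x : ℕ => ((1 : ℝ) / 2) ^ x) atTop (nhds 0) :=
    tendsto_pow_atTop_nhds_zero_of_lt_one (by norm_num) (by norm_num)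
  have h3 : Tendsto (fun x : ℕ => 2 * (A : ℝ) * ((x : ℝ) ^ D / (2 : ℝ) ^ x) +
      2 * ((a : ℝ) + 1) * ((1 : ℝ) / 2) ^ x) atTop (nhds 0) := by
    have := (h1.const_mul (2 * (A : ℝ))).add (h2.const_mul (2 * ((a : ℝ) + 1)))
    simpa using this
  have h4 : ∀ᶠ x : ℕ in atTop, a + 1 + A * x ^ D < 2 ^ (x - 1) := by
    have h5 := h3.eventually (gt_mem_nhds (show (0 : ℝ) < 1 by norm_num))
    filter_upwards [h5, eventually_ge_atTop 1] with x hx hx1
    have e1 : (2 : ℝ) ^ x = 2 * 2 ^ (x - 1) := by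
      conv_lhs => rw [show x = (x - 1) + 1 by omega]
      rw [pow_succ]; ring
    have h6 : (0 : ℝ) < 2 ^ (x - 1) := by positivity
    have h7 : 2 * (A : ℝ) * ((x : ℝ) ^ D / (2 : ℝ) ^ x) +
      2 * ((a : ℝ) + 1) * ((1 : ℝ) / 2) ^ x = (a + 1 + A * x ^ D) / 2 ^ (x - 1) := by
      rw [one_div, inv_pow, e1]
      field_simp
      ring
    rw [h7, div_lt_one h6] at hx
    exact_mod_cast hx
  have hlog : Tendsto (fun n : ℕ => 1 + Nat.log 2 (n + 1)) atTop atTop := by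
    apply tendsto_atTop_mono (f := fun n : ℕ => Nat.log 2 n)
    · intro n
      have : Nat.log 2 n ≤ Nat.log 2 (n + 1) := Nat.log_mono_right (by omega)
      omega
    · rw [tendsto_atTop]
      intro b
      filter_upwards [eventually_ge_atTop (2 ^ b)] with n hn
      exact Nat.le_log_of_pow_le (by norm_num) hn
  have h8 := hlog.eventually h4
  filter_upwards [h8] with n hn
  have h9 : 2 ^ (1 + Nat.log 2 (n + 1) - 1) ≤ n + 1 := by
    rw [Nat.add_sub_cancel_left]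
    exact Nat.pow_log_le_self 2 (by omega)
  omega

theorem no_exact (hG : GelfondStatement) (s : ℕ) (e : ℕ → ℕ) (γ : ℕ → ℤ_[3]) (p : ℕ → ℕ → ℕ)
    (he : StrictMono e) (hp0 : ∀ i, p i 0 = 0)
    (hgap : ∀ t < s, ∀ Q, ∀ᶠ i in atTop, p i t + Q ≤ p i (t + 1))
    (hex : ∃ᶠ i in atTop, (2 : ℤ_[3]) ^ (e i) =
      ∑ t ∈ Finset.range (s + 1), γ t * 3 ^ (p i t)) : False := by
  classical
  -- rational coefficients
  let I : Type := {i : ℕ // (2 : ℤ_[3]) ^ (e i) = ∑ t ∈ Finset.range (s + 1), γ t * 3 ^ (p i t)}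
  obtain ⟨r, hr⟩ := rational_coeffs (ι := I) s (fun i t => (3 : ℚ) ^ (p i.1 t.val))
    (fun i => (2 : ℚ) ^ (e i.1)) (fun t => (γ t.val : ℚ_[3])) (by
      rintro ⟨i, hi⟩
      have h1 : ((2 : ℤ_[3]) ^ (e i) : ℤ_[3]) = ∑ t ∈ Finset.range (s + 1), γ t * 3 ^ (p i t) := hi
      have h2 := congrArg (PadicInt.Coe.ringHom (p := 3)) h1
      rw [map_pow, map_sum] at h2
      have h3 : PadicInt.Coe.ringHom (p := 3) 2 = 2 := map_ofNat _ 2
      have h4 : PadicInt.Coe.ringHom (p := 3) 3 = 3 := map_ofNat _ 3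
      have h5 : ∀ t, PadicInt.Coe.ringHom (p := 3) (γ t * 3 ^ (p i t)) =
          (γ t : ℚ_[3]) * 3 ^ (p i t) := by
        intro t
        rw [map_mul, map_pow, h4]
        rfl
      rw [h3] at h2
      simp only [h5] at h2
      push_cast
      rw [h2]
      exact (Fin.sum_univ_eq_sum_range (fun t => (γ t : ℚ_[3]) * 3 ^ (p i t)) (s + 1)).symm)
  obtain ⟨c, a, hc, ha⟩ := common_den s r
  have hrel : ∀ i, ((2 : ℤ_[3]) ^ (e i) = ∑ t ∈ Finset.range (s + 1), γ t * 3 ^ (p i t)) →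
      (c : ℤ) * 2 ^ (e i) = ∑ t ∈ Finset.range (s + 1), a t * 3 ^ (p i t) := by
    intro i hi
    have h1 := hr ⟨i, hi⟩
    simp only at h1
    have h2 : (c : ℚ) * 2 ^ (e i) = ∑ t ∈ Finset.range (s + 1), (a t : ℚ) * 3 ^ (p i t) := by
      rw [h1, Finset.mul_sum, ← Fin.sum_univ_eq_sum_range
        (fun t => (a t : ℚ) * 3 ^ (p i t)) (s + 1)]
      apply Finset.sum_congr rfl
      intro t _
      rw [ha t]; ring
    exact_mod_cast h2
  -- partial sums
  let B : ℕ → ℕ → ℤ := fun i t => ∑ t' ∈ Finset.range (t + 1), a t' * 3 ^ (p i t')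
  have hex' : ∃ᶠ i in atTop, ((2 : ℤ_[3]) ^ (e i) =
      ∑ t ∈ Finset.range (s + 1), γ t * 3 ^ (p i t)) ∧ (c : ℤ) * 2 ^ (e i) = B i s :=
    hex.mono (fun i hi => ⟨hi, hrel i hi⟩)
  -- minimal t0
  have hexist : ∃ t, t ≤ s ∧ ∃ᶠ i in atTop, ((2 : ℤ_[3]) ^ (e i) =
      ∑ t ∈ Finset.range (s + 1), γ t * 3 ^ (p i t)) ∧ (c : ℤ) * 2 ^ (e i) = B i t :=
    ⟨s, le_refl _, hex'⟩
  let t0 := Nat.find hexist
  have ht0 := Nat.find_spec hexist
  have hmin : ∀ t < t0, ∀ᶠ i in atTop, ((2 : ℤ_[3]) ^ (e i) =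
      ∑ t ∈ Finset.range (s + 1), γ t * 3 ^ (p i t)) → (c : ℤ) * 2 ^ (e i) ≠ B i t := by
    intro t ht
    have h1 := Nat.find_min hexist ht
    have h2 : t ≤ s := ht.le.trans ht0.1
    have h3 : ¬ ∃ᶠ i in atTop, ((2 : ℤ_[3]) ^ (e i) =
      ∑ t ∈ Finset.range (s + 1), γ t * 3 ^ (p i t)) ∧ (c : ℤ) * 2 ^ (e i) = B i t :=
      fun h => h1 ⟨h2, h⟩
    rw [not_frequently] at h3
    filter_upwards [h3] with i hi h4 h5
    exact hi ⟨h4, h5⟩
  -- monotone exponents
  have hmono : ∀ᶠ i in atTop, ∀ t < s, p i t ≤ p i (t + 1) := by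
    have h1 : ∀ t ∈ Finset.range s, ∀ᶠ i in atTop, p i t ≤ p i (t + 1) := by
      intro t ht
      have := hgap t (Finset.mem_range.mp ht) 0
      simpa using this
    have h2 := (Filter.eventually_all_finset (Finset.range s)).mpr h1
    filter_upwards [h2] with i hi t ht
    exact hi t (Finset.mem_range.mpr ht)
  have hmono' : ∀ᶠ i in atTop, ∀ t ≤ s, ∀ t' ≤ t, p i t' ≤ p i t := by
    filter_upwards [hmono] with i hi
    intro t
    induction t with
    | zero =>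
      intro _ t' ht'
      rw [Nat.le_zero.mp ht']
    | succ t ih =>
      intro hts t' ht'
      rcases Nat.of_le_succ ht' with h | h
      · exact (ih (by omega) t' h).trans (hi t (by omega))
      · rw [h]
  -- size of partial sums
  obtain ⟨b, hb⟩ : ∃ b : ℕ, (∑ t ∈ Finset.range (s + 1), (a t).natAbs) + 1 ≤ 2 ^ b :=
    ⟨_, Nat.lt_two_pow_self.le⟩
  have hsize : ∀ᶠ i in atTop, ∀ t ≤ s, (B i t).natAbs + 1 ≤ 2 ^ (b + 2 * p i t) := by
    filter_upwards [hmono'] with i hi t ht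
    have h1 : (B i t).natAbs ≤ (∑ t' ∈ Finset.range (s + 1), (a t').natAbs) * 3 ^ (p i t) := by
      calc (B i t).natAbs ≤ ∑ t' ∈ Finset.range (t + 1), (a t' * 3 ^ (p i t')).natAbs :=
            Int.natAbs_sum_le _ _
        _ ≤ ∑ t' ∈ Finset.range (t + 1), (a t').natAbs * 3 ^ (p i t) := by
            apply Finset.sum_le_sum
            intro t' ht'
            rw [Int.natAbs_mul, Int.natAbs_pow]
            apply Nat.mul_le_mul_left
            apply Nat.pow_le_pow_right (by norm_num)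
            exact hi t ht t' (by have := Finset.mem_range.mp ht'; omega)
        _ ≤ ∑ t' ∈ Finset.range (s + 1), (a t').natAbs * 3 ^ (p i t) := by
            apply Finset.sum_le_sum_of_subset
            intro t' ht'
            rw [Finset.mem_range] at ht' ⊢
            omega
        _ = _ := by rw [Finset.sum_mul]
    have h2 : (1 : ℕ) ≤ 3 ^ (p i t) := Nat.one_le_pow _ _ (by norm_num)
    calc (B i t).natAbs + 1 ≤ (∑ t' ∈ Finset.range (s + 1), (a t').natAbs) * 3 ^ (p i t) +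
          3 ^ (p i t) := by omega
      _ = ((∑ t' ∈ Finset.range (s + 1), (a t').natAbs) + 1) * 3 ^ (p i t) := by ring
      _ ≤ 2 ^ b * 4 ^ (p i t) := Nat.mul_le_mul hb (Nat.pow_le_pow_left (by norm_num) _)
      _ = 2 ^ (b + 2 * p i t) := by rw [pow_add, pow_mul]; norm_num
  obtain ⟨C, hC⟩ := gelfond_two hG c hc
  -- polylog bound
  have claim : ∀ t ≤ t0, ∃ A D : ℕ, ∀ᶠ i in atTop, ((2 : ℤ_[3]) ^ (e i) =
      ∑ t ∈ Finset.range (s + 1), γ t * 3 ^ (p i t)) →
      p i t ≤ A * (1 + Nat.log 2 (e i + 1)) ^ D := by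
    intro t
    induction t with
    | zero =>
      intro _
      exact ⟨0, 0, Eventually.of_forall (fun i _ => by rw [hp0 i]; exact Nat.zero_le _)⟩
    | succ t ih =>
      intro ht
      obtain ⟨A, D, hAD⟩ := ih (by omega)
      refine ⟨C * (1 + b + 2 * A) ^ 6, (D + 1) * 6, ?_⟩
      filter_upwards [hAD, hmin t (by omega), hmono', hsize] with i h1 h2 h3 h4 hi
      have h5 := h1 hi
      have h6 := h2 hi
      have hts : t ≤ s := by have := ht0.1; omega
      have h7 := hC (e i) (B i t) h6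
      have h8 : p i (t + 1) ≤ padicValInt 3 ((c : ℤ) * 2 ^ (e i) - B i t) := by
        have hne : (c : ℤ) * 2 ^ (e i) - B i t ≠ 0 := sub_ne_zero.mpr h6
        have hdvd : ((3 : ℕ) : ℤ) ^ (p i (t + 1)) ∣ (c : ℤ) * 2 ^ (e i) - B i t := by
          rw [hrel i hi]
          have e1 : ∑ t' ∈ Finset.range (s + 1), a t' * 3 ^ (p i t') - B i t =
              ∑ t' ∈ Finset.Ico (t + 1) (s + 1), a t' * 3 ^ (p i t') := by
            rw [Finset.sum_Ico_eq_sub _ (by omega : t + 1 ≤ s + 1)]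
          rw [e1]
          apply Finset.dvd_sum
          intro t' ht'
          rw [Finset.mem_Ico] at ht'
          apply Dvd.dvd.mul_left
          push_cast
          exact pow_dvd_pow 3 (h3 t' (by omega) (t + 1) ht'.1)
        rcases (padicValInt_dvd_iff _ _).mp hdvd with h | h
        · exact absurd h hne
        · exact h
      refine h8.trans (h7.trans ?_)
      rw [mul_assoc]
      apply Nat.mul_le_mul_left
      rw [pow_mul, ← mul_pow]
      apply Nat.pow_le_pow_left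
      have h9 : Nat.log 2 ((B i t).natAbs + 1) ≤ b + 2 * p i t := by
        calc Nat.log 2 ((B i t).natAbs + 1) ≤ Nat.log 2 (2 ^ (b + 2 * p i t)) :=
              Nat.log_mono_right (h4 t hts)
          _ = b + 2 * p i t := Nat.log_pow (by norm_num) _
      set ℓ := 1 + Nat.log 2 (e i + 1) with hℓ
      have hℓ1 : 1 ≤ ℓ := by omega
      have h10 : 1 ≤ ℓ ^ D := Nat.one_le_pow _ _ hℓ1
      have h11 : ℓ ≤ ℓ ^ (D + 1) := by
        rw [pow_succ]; exact Nat.le_mul_of_pos_left _ h10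
      have h12 : ℓ ^ D ≤ ℓ ^ (D + 1) := Nat.pow_le_pow_right hℓ1 (by omega)
      have h13 : 1 ≤ ℓ ^ (D + 1) := Nat.one_le_pow _ _ hℓ1
      calc ℓ + Nat.log 2 ((B i t).natAbs + 1) ≤ ℓ + (b + 2 * (A * ℓ ^ D)) := by omega
        _ ≤ ℓ ^ (D + 1) + (b * ℓ ^ (D + 1) + 2 * (A * ℓ ^ (D + 1))) := by
            have h14 : b ≤ b * ℓ ^ (D + 1) := Nat.le_mul_of_pos_right _ h13
            have h15 : A * ℓ ^ D ≤ A * ℓ ^ (D + 1) := Nat.mul_le_mul_left _ h12
            omega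
        _ = (1 + b + 2 * A) * ℓ ^ (D + 1) := by ring
  obtain ⟨A, D, hAD⟩ := claim t0 (le_refl _)
  have hsmall := he.tendsto_atTop.eventually (polylog_small (2 * A) D b)
  obtain ⟨i, ⟨hi, hiB⟩, h1, h2, h3⟩ := (ht0.2.and_eventually
    (hAD.and (hsize.and hsmall))).exists
  have h4 := h1 hi
  have h5 := h2 t0 ht0.1
  have h6 : 2 ^ (e i) ≤ (B i t0).natAbs := by
    have hiB' : (c : ℤ) * 2 ^ (e i) = B i t0 := hiB
    rw [← hiB', Int.natAbs_mul, Int.natAbs_pow, Int.natAbs_natCast]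
    exact Nat.le_mul_of_pos_left _ hc
  have h7 : 2 ^ (e i) < 2 ^ (b + 2 * p i t0) := by omega
  have h8 : e i < b + 2 * p i t0 := (Nat.pow_lt_pow_iff_right (by norm_num)).mp h7
  have h9 : 2 * (A * (1 + Nat.log 2 (e i + 1)) ^ D) = 2 * A * (1 + Nat.log 2 (e i + 1)) ^ D := by
    ring
  omega

end Pool.Agent.Lib.MP_ed49ca_nt
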