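import Mathlib
import Pool.Agent.Lib.MP_ed49ca_nt.Core
import Pool.Agent.Lib.MP_ed49ca_nt.Dim
import Pool.Agent.Lib.MP_ed49ca_nt.Exact

set_option autoImplicit false

namespace Pool.Agent.Lib.MP_ed49ca_nt

open Filter

/-- remainder after the atoms `0, ..., s` -/
noncomputable def rem (s : ℕ) (e : ℕ → ℕ) (γ : ℕ → ℤ_[3]) (p : ℕ → ℕ → ℕ) (i : ℕ) : ℤ_[3] :=
  (2 : ℤ_[3]) ^ (e i) - ∑ t ∈ Finset.range (s + 1), γ t * 3 ^ (p i t)

/-- a sequence of exponents with `s + 1` converging atoms -/
def St (N : Set ℕ) (s : ℕ) : Prop := ∃ (e : ℕ → ℕ) (γ : ℕ → ℤ_[3]) (p : ℕ → ℕ → ℕ),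
  StrictMono e ∧ (∀ i, e i ∈ N) ∧ (∀ t ≤ s, ‖γ t‖ = 1) ∧ (∀ i, p i 0 = 0) ∧
  (∀ t < s, ∀ Q, ∀ᶠ i in atTop, p i t + Q ≤ p i (t + 1)) ∧
  (∀ Q, ∀ᶠ i in atTop, (3 : ℤ_[3]) ^ (p i s + Q) ∣ rem s e γ p i)

theorem dvd_of_tendsto {x : ℕ → ℤ_[3]} {a : ℤ_[3]} (h : Tendsto x atTop (nhds a)) (Q : ℕ) :
    ∀ᶠ i in atTop, (3 : ℤ_[3]) ^ Q ∣ x i - a := by
  have h1 : (0 : ℝ) < (3 : ℝ) ^ (-(Q : ℤ)) := by positivity
  have h2 := (Metric.tendsto_atTop.mp h) _ h1
  obtain ⟨N, hN⟩ := h2
  filter_upwards [eventually_ge_atTop N] with i hi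
  have h3 := (hN i hi).le
  rw [dist_eq_norm] at h3
  have h4 := (PadicInt.norm_le_pow_iff_mem_span_pow (x i - a) Q).mp (by exact_mod_cast h3)
  rw [Ideal.mem_span_singleton] at h4
  exact_mod_cast h4

theorem norm_lim {x : ℕ → ℤ_[3]} {a : ℤ_[3]} (h : Tendsto x atTop (nhds a))
    (hx : ∀ i, ‖x i‖ = 1) : ‖a‖ = 1 := by
  have h1 := h.norm
  simp only [hx] at h1
  exact tendsto_nhds_unique h1 tendsto_const_nhds

theorem norm_two_pow (m : ℕ) : ‖(2 : ℤ_[3]) ^ m‖ = 1 := by
  rw [norm_pow]
  have h2 : ‖(2 : ℤ_[3])‖ = 1 := by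
    have h3 : IsUnit (((2 : ℕ) : ℤ_[3])) := by
      rw [PadicInt.isUnit_iff]
      have := (PadicInt.norm_natCast_eq_one_iff (p := 3) (n := 2)).mpr (by norm_num)
      exact this
    rw [PadicInt.isUnit_iff] at h3
    exact_mod_cast h3
  rw [h2, one_pow]

theorem St_zero {N : Set ℕ} (hN : N.Infinite) : St N 0 := by
  classical
  obtain ⟨a, φ, hφ, hlim⟩ := CompactSpace.tendsto_subseq
    (fun i => (2 : ℤ_[3]) ^ (Nat.nth (· ∈ N) i))
  have hu : StrictMono (Nat.nth (· ∈ N)) := Nat.nth_strictMono hN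
  refine ⟨fun i => Nat.nth (· ∈ N) (φ i), fun _ => a, fun _ _ => 0, hu.comp hφ,
    fun i => Nat.nth_mem_of_infinite hN _, fun t _ => ?_, fun i => rfl, fun t ht => ?_, fun Q => ?_⟩
  · exact norm_lim hlim (fun i => norm_two_pow _)
  · omega
  · have := dvd_of_tendsto hlim Q
    filter_upwards [this] with i hi
    unfold rem
    simpa using hi

/-- unit part of a 3-adic integer (junk value 1 at 0) -/
noncomputable def upart (x : ℤ_[3]) : ℤ_[3] :=
  open Classical in
  if h : x = 0 then 1 else (PadicInt.unitCoeff h : ℤ_[3])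

theorem norm_upart (x : ℤ_[3]) : ‖upart x‖ = 1 := by
  unfold upart
  split_ifs with h
  · exact norm_one
  · exact PadicInt.norm_units _

theorem upart_spec {x : ℤ_[3]} (hx : x ≠ 0) : x = upart x * 3 ^ x.valuation := by
  have h := PadicInt.unitCoeff_spec hx
  unfold upart
  rw [dif_neg hx]
  exact_mod_cast h

theorem le_val {x : ℤ_[3]} (hx : x ≠ 0) {m : ℕ} (h : (3 : ℤ_[3]) ^ m ∣ x) : m ≤ x.valuation := by
  rw [← PadicInt.mem_span_pow_iff_le_valuation x hx m, Ideal.mem_span_singleton]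
  exact_mod_cast h

theorem rem_succ (s : ℕ) (e : ℕ → ℕ) (γ : ℕ → ℤ_[3]) (a : ℤ_[3]) (p : ℕ → ℕ → ℕ) (V : ℕ → ℕ)
    (i : ℕ) : rem (s + 1) e (fun t => if t ≤ s then γ t else a)
      (fun i t => if t ≤ s then p i t else V i) i = rem s e γ p i - a * 3 ^ (V i) := by
  unfold rem
  rw [Finset.sum_range_succ]
  have h4 : ¬ (s + 1 ≤ s) := by omega
  simp only [h4, if_false]
  have h6 : ∑ x ∈ Finset.range (s + 1), (if x ≤ s then γ x else a) *
      3 ^ (if x ≤ s then p i x else V i) =
      ∑ x ∈ Finset.range (s + 1), γ x * 3 ^ (p i x) := by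
    apply Finset.sum_congr rfl
    intro x hx
    have : x ≤ s := by have := Finset.mem_range.mp hx; omega
    simp only [this, if_true]
  rw [h6]
  ring

theorem St_succ {N : Set ℕ} {s : ℕ} (hG : GelfondStatement) (h : St N s) : St N (s + 1) := by
  classical
  obtain ⟨e, γ, p, he, heN, hγ, hp0, hgap, hrem⟩ := h
  have hne : ∀ᶠ i in atTop, rem s e γ p i ≠ 0 := by
    by_contra hcon
    rw [not_eventually] at hcon
    refine no_exact hG s e γ p he hp0 hgap (hcon.mono (fun i hi => ?_))
    rw [not_not] at hi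
    unfold rem at hi
    exact sub_eq_zero.mp hi
  obtain ⟨a, φ, hφ, hlim⟩ := CompactSpace.tendsto_subseq (fun i => upart (rem s e γ p i))
  have ha : ‖a‖ = 1 := norm_lim hlim (fun i => norm_upart _)
  have hφt := hφ.tendsto_atTop
  refine ⟨fun i => e (φ i), fun t => if t ≤ s then γ t else a,
    fun i t => if t ≤ s then p (φ i) t else (rem s e γ p (φ i)).valuation,
    he.comp hφ, fun i => heN _, fun t ht => ?_, fun i => ?_, fun t ht Q => ?_, fun Q => ?_⟩
  · by_cases hts : t ≤ s
    · simp only [hts, if_true]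
      exact hγ t hts
    · simp only [hts, if_false]
      exact ha
  · simp only [Nat.zero_le, if_true]
    exact hp0 _
  · have hts : t ≤ s := by omega
    simp only [hts, if_true]
    by_cases hts' : t + 1 ≤ s
    · simp only [hts', if_true]
      exact hφt.eventually (hgap t (by omega) Q)
    · simp only [hts', if_false]
      have hts2 : t = s := by omega
      subst hts2
      filter_upwards [hφt.eventually (hrem Q), hφt.eventually hne] with i h1 h2
      exact le_val h2 h1
  · have h1 := dvd_of_tendsto hlim Q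
    filter_upwards [h1, hφt.eventually hne] with i h2 h3
    have h4 : ¬ (s + 1 ≤ s) := by omega
    simp only [h4, if_false]
    have h5 : rem (s + 1) (fun i => e (φ i)) (fun t => if t ≤ s then γ t else a)
        (fun i t => if t ≤ s then p (φ i) t else (rem s e γ p (φ i)).valuation) i =
        rem s e γ p (φ i) - a * 3 ^ (rem s e γ p (φ i)).valuation :=
      rem_succ s (fun i => e (φ i)) γ a (fun i => p (φ i))
        (fun i => (rem s e γ p (φ i)).valuation) i
    rw [h5]
    have h6 := upart_spec h3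
    have h7 : rem s e γ p (φ i) - a * 3 ^ (rem s e γ p (φ i)).valuation =
        3 ^ (rem s e γ p (φ i)).valuation * (upart (rem s e γ p (φ i)) - a) := by
      conv_lhs => lhs; rw [h6]
      ring
    rw [h7, pow_add]
    exact mul_dvd_mul_left _ h2

theorem St_all {N : Set ℕ} (hG : GelfondStatement) (hN : N.Infinite) (s : ℕ) : St N s := by
  induction s with
  | zero => exact St_zero hN
  | succ s ih => exact St_succ hG ih

theorem not_dvd_val {n : ℕ} (hn : 0 < n) {x : ℤ_[3]} (hx : ‖x‖ = 1) :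
    ¬ 3 ∣ (PadicInt.toZModPow n x).val := by
  intro h
  have h1 : (PadicInt.toZModPow 1 x).val = (PadicInt.toZModPow n x).val % 3 ^ 1 :=
    toZModPow_val x hn
  have h0 : (PadicInt.toZModPow n x).val % 3 ^ 1 = 0 := by
    rw [pow_one]; exact Nat.mod_eq_zero_of_dvd h
  rw [h0] at h1
  have : NeZero (3 ^ 1) := ⟨by positivity⟩
  have h2 : PadicInt.toZModPow 1 x = 0 := (ZMod.val_eq_zero _).mp h1
  have h3 : x ∈ Ideal.span {((3 : ℕ) : ℤ_[3]) ^ 1} := by
    rw [← PadicInt.ker_toZModPow, RingHom.mem_ker]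
    exact h2
  have h4 := (PadicInt.norm_le_pow_iff_mem_span_pow x 1).mpr h3
  rw [hx] at h4
  norm_num at h4

theorem main_of_gelfond (hG : GelfondStatement) (N : Set ℕ) (hN : N.Infinite) (ε : ℝ)
    (hε : 0 < ε) : ∃ F : Finset ℕ, (↑F : Set ℕ) ⊆ N ∧ ∃ᶠ n : ℕ in atTop,
      ((Om F n).card : ℝ) ≤ (3 : ℝ) ^ (ε * n) := by
  classical
  have hlog3 : 0 < Real.log 3 := Real.log_pos (by norm_num)
  have hlog2 : 0 < Real.log 2 := Real.log_pos (by norm_num)
  obtain ⟨s, hs⟩ := exists_nat_gt (2 * (Real.log 2 + 1) / (ε * Real.log 3))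
  obtain ⟨W, K, hW, hK, hcore⟩ := core (s + 1) (ε := 1) one_pos
  obtain ⟨e, γ, p, he, heN, hγ, hp0, hgap, hrem⟩ := St_all hG hN s
  have hne : ∀ᶠ i in atTop, rem s e γ p i ≠ 0 := by
    by_contra hcon
    rw [not_eventually] at hcon
    refine no_exact hG s e γ p he hp0 hgap (hcon.mono (fun i hi => ?_))
    rw [not_not] at hi
    unfold rem at hi
    exact sub_eq_zero.mp hi
  let P : ℕ → ℕ → ℕ := fun i t => if t ≤ s then p i t else (rem s e γ p i).valuation
  have hP : ∀ Q, ∀ᶠ i in atTop, rem s e γ p i ≠ 0 ∧ ∀ t < s + 1, P i t + Q ≤ P i (t + 1) := by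
    intro Q
    have h1 : ∀ t ∈ Finset.range (s + 1), ∀ᶠ i in atTop, P i t + Q ≤ P i (t + 1) := by
      intro t ht
      rw [Finset.mem_range] at ht
      have hts : t ≤ s := by omega
      simp only [P, hts, if_true]
      by_cases hts' : t + 1 ≤ s
      · simp only [hts', if_true]
        exact hgap t (by omega) Q
      · simp only [hts', if_false]
        have hts2 : t = s := by omega
        subst hts2
        filter_upwards [hrem Q, hne] with i h1 h2
        exact le_val h2 h1
    have h2 := (Filter.eventually_all_finset (Finset.range (s + 1))).mpr h1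
    filter_upwards [h2, hne] with i h3 h4
    exact ⟨h4, fun t ht => h3 t (Finset.mem_range.mpr ht)⟩
  have hex : ∀ Q, ∃ i, rem s e γ p i ≠ 0 ∧ ∀ t < s + 1, P i t + Q ≤ P i (t + 1) :=
    fun Q => (hP Q).exists
  choose f hf using hex
  let idx : ℕ → ℕ := fun k => Nat.rec (f W) (fun _ j => f (P j (s + 1) + W)) k
  have hidx0 : idx 0 = f W := rfl
  have hidxs : ∀ k, idx (k + 1) = f (P (idx k) (s + 1) + W) := fun k => rfl
  have hg : ∀ k, rem s e γ p (idx k) ≠ 0 ∧ ∀ t < s + 1, P (idx k) t + W ≤ P (idx k) (t + 1) := by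
    intro k
    cases k with
    | zero => rw [hidx0]; exact hf W
    | succ k =>
      rw [hidxs]
      have h1 := hf (P (idx k) (s + 1) + W)
      exact ⟨h1.1, fun t ht => by have := h1.2 t ht; omega⟩
  have hg2 : ∀ k, ∀ t < s + 1, P (idx k) (s + 1) + P (idx (k + 1)) t + W ≤
      P (idx (k + 1)) (t + 1) := by
    intro k t ht
    have h1 := (hf (P (idx k) (s + 1) + W)).2 t ht
    rw [← hidxs] at h1
    omega
  let Pmax : ℕ := ∑ k ∈ Finset.range K, P (idx k) (s + 1)
  refine ⟨(Finset.range K).image (fun k => e (idx k)), ?_, Eventually.frequently ?_⟩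
  · intro m hm
    rw [Finset.mem_coe, Finset.mem_image] at hm
    obtain ⟨k, _, rfl⟩ := hm
    exact heN _
  · -- the estimate for large n
    set F := (Finset.range K).image (fun k => e (idx k)) with hF
    have hbound : ∀ n : ℕ, 0 < n → (Om F n).Nonempty → (((s + 1 : ℕ) : ℝ) + 1) *
        Real.log (Om F n).card ≤
        ((n : ℝ) + 1) * (Real.log 2 + 1) + (((s + 1 : ℕ) : ℝ) + 1) *
          ((2 * W + Pmax) * Real.log 3) := by
      intro n hn hnon
      have hNZ : NeZero (3 ^ n) := ⟨by positivity⟩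
      refine hcore n (Om F n) (fun t => (PadicInt.toZModPow n (γ t)).val) (fun k => P (idx k))
        (fun k => (PadicInt.toZModPow n (upart (rem s e γ p (idx k)))).val)
        (fun k => 2 ^ (e (idx k))) Pmax ?_ hnon ?_ ?_ ?_ ?_ ?_ ?_ ?_
      · intro l hl
        rw [mem_Om] at hl
        exact Finset.mem_range.mpr hl.1
      · intro t ht
        exact not_dvd_val hn (hγ t (by omega))
      · intro k _
        exact not_dvd_val hn (norm_upart _)
      · intro k hk
        exact Finset.single_le_sum (f := fun k => P (idx k) (s + 1)) (fun _ _ => Nat.zero_le _)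
          (Finset.mem_range.mpr hk)
      · intro k _ t ht
        exact (hg k).2 t ht
      · intro k _ t ht
        exact hg2 k t ht
      · intro k _
        rw [← ZMod.natCast_eq_natCast_iff]
        push_cast
        simp only [ZMod.natCast_zmod_val]
        have h1 := upart_spec (hg k).1
        have h2 : (2 : ℤ_[3]) ^ (e (idx k)) = ∑ t ∈ Finset.range (s + 1), γ t * 3 ^ (p (idx k) t) +
            upart (rem s e γ p (idx k)) * 3 ^ (rem s e γ p (idx k)).valuation := by
          rw [← h1]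
          unfold rem
          ring
        have h3 := congrArg (PadicInt.toZModPow n) h2
        rw [map_pow, map_add, map_sum, map_mul, map_pow, map_ofNat, map_ofNat] at h3
        rw [h3]
        have h4 : P (idx k) (s + 1) = (rem s e γ p (idx k)).valuation := by
          have h5 : ¬ (s + 1 ≤ s) := by omega
          simp only [P, h5, if_false]
        rw [h4]
        congr 1
        apply Finset.sum_congr rfl
        intro t ht
        rw [map_mul, map_pow, map_ofNat]
        have h5 : t ≤ s := by have := Finset.mem_range.mp ht; omega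
        simp only [P, h5, if_true]
      · intro k hk l hl z hz
        rw [mem_Om] at hl
        exact hl.2 _ (Finset.mem_image.mpr ⟨k, Finset.mem_range.mpr hk, rfl⟩) z hz
    have hpos : (0 : ℝ) < ((s + 1 : ℕ) : ℝ) + 1 := by positivity
    have hsε : (Real.log 2 + 1) < (ε / 2 * Real.log 3) * (((s + 1 : ℕ) : ℝ) + 1) := by
      rw [div_lt_iff₀ (by positivity)] at hs
      push_cast
      nlinarith [mul_pos hε hlog3]
    obtain ⟨n0, hn0⟩ := exists_nat_gt ((ε / 2 * Real.log 3 + (2 * W + Pmax) * Real.log 3) /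
      (ε / 2 * Real.log 3))
    filter_upwards [eventually_gt_atTop 0, eventually_ge_atTop n0] with n hn hnn0
    rcases (Om F n).eq_empty_or_nonempty with hemp | hnon
    · rw [hemp]
      simp only [Finset.card_empty, Nat.cast_zero]
      positivity
    · have h1 := hbound n hn hnon
      have hcard : (0 : ℝ) < (Om F n).card := by exact_mod_cast hnon.card_pos
      have h2 : Real.log (Om F n).card ≤ ε * n * Real.log 3 := by
        have h3 : (((s + 1 : ℕ) : ℝ) + 1) * Real.log (Om F n).card ≤ (((s + 1 : ℕ) : ℝ) + 1) *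
            ((n + 1) * (ε / 2 * Real.log 3) + (2 * W + Pmax) * Real.log 3) := by
          have h4 : ((n : ℝ) + 1) * (Real.log 2 + 1) ≤ ((n : ℝ) + 1) *
              ((ε / 2 * Real.log 3) * (((s + 1 : ℕ) : ℝ) + 1)) :=
            mul_le_mul_of_nonneg_left hsε.le (by positivity)
          nlinarith
        have h5 := le_of_mul_le_mul_left h3 hpos
        have h6 : ((ε / 2 * Real.log 3 + (2 * W + Pmax) * Real.log 3) /
            (ε / 2 * Real.log 3)) ≤ n := hn0.le.trans (by exact_mod_cast hnn0)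
        rw [div_le_iff₀ (by positivity)] at h6
        nlinarith
      rw [← Real.log_le_log_iff hcard (by positivity), Real.log_rpow (by norm_num)]
      exact h2

theorem dim_zero_of_gelfond (hG : GelfondStatement) :
    dimH {x : ℤ_[3] | Set.Infinite {n : ℕ | ∀ k : ℕ,
      (PadicInt.toZModPow (k + 1) ((2 : ℤ_[3]) ^ n * x)).val / 3 ^ k ≠ 2}} = 0 :=
  dim_zero_of_main (fun N hN ε hε => main_of_gelfond hG N hN ε hε)

end Pool.Agent.Lib.MP_ed49ca_nt
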