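import Mathlib

set_option autoImplicit false

namespace Pool.Agent.Lib.MP_ed49ca_nt

open Finset

/-! ### Part 1: divisibility of interpolation determinants -/

/-- all `r`-th forward differences are divisible by `3 ^ (r - k)` -/
def GelD (k : ℕ) (g : ℕ → ℤ) : Prop := ∀ r z, (3 : ℤ) ^ (r - k) ∣ (fwdDiff 1)^[r] g z

theorem gel_pow (l : ℕ) : GelD 0 (fun z => (4 : ℤ) ^ (l * z)) := by
  have h : ∀ r : ℕ, (fwdDiff 1)^[r] (fun z : ℕ => (4 : ℤ) ^ (l * z)) =
      fun z => ((4 : ℤ) ^ l - 1) ^ r * 4 ^ (l * z) := by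
    intro r
    induction r with
    | zero => simp
    | succ r ih =>
      rw [Function.iterate_succ_apply', ih]
      funext z
      simp only [fwdDiff]
      rw [mul_add, pow_add, pow_succ]
      ring
  intro r z
  rw [h r]
  have h3 : (3 : ℤ) ∣ 4 ^ l - 1 := by
    have := sub_dvd_pow_sub_pow (4 : ℤ) 1 l
    norm_num at this
    exact this
  simpa using Dvd.dvd.mul_right (pow_dvd_pow_of_dvd h3 r) _

theorem gel_leibniz (g : ℕ → ℤ) (r : ℕ) : ∀ z : ℕ,
    (fwdDiff 1)^[r + 1] (fun z : ℕ => (z : ℤ) * g z) z =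
      z * (fwdDiff 1)^[r + 1] g z + (r + 1) * (fwdDiff 1)^[r] g (z + 1) := by
  induction r with
  | zero =>
    intro z
    simp [fwdDiff]
    ring
  | succ r ih =>
    intro z
    rw [Function.iterate_succ_apply', fwdDiff, ih, ih,
      Function.iterate_succ_apply' _ (r + 1) g, fwdDiff]
    have e : (fwdDiff 1)^[r + 1] g (z + 1) =
        (fwdDiff 1)^[r] g (z + 1 + 1) - (fwdDiff 1)^[r] g (z + 1) := by
      rw [Function.iterate_succ_apply', fwdDiff]
    push_cast
    linear_combination (-(r + 1 : ℤ)) * e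

theorem gel_mul {k : ℕ} {g : ℕ → ℤ} (h : GelD k g) : GelD (k + 1) (fun z => (z : ℤ) * g z) := by
  intro r z
  rcases r with _ | r
  · simp
  · rw [gel_leibniz]
    have h1 := h (r + 1) z
    have h2 := h r (z + 1)
    have e1 : (r + 1) - (k + 1) = r - k := by omega
    rw [e1]
    apply dvd_add
    · exact Dvd.dvd.mul_left ((pow_dvd_pow _ (by omega)).trans h1) _
    · exact Dvd.dvd.mul_left h2 _

theorem gel_fun (k l : ℕ) : GelD k (fun z => (z : ℤ) ^ k * 4 ^ (l * z)) := by
  induction k with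
  | zero => simpa using gel_pow l
  | succ k ih =>
    have := gel_mul ih
    have e : (fun z : ℕ => (z : ℤ) ^ (k + 1) * 4 ^ (l * z)) =
        fun z : ℕ => (z : ℤ) * ((z : ℤ) ^ k * 4 ^ (l * z)) := by
      funext z; ring
    rw [e]
    exact this

/-- Newton expansion with a uniform range. -/
theorem gel_newton (g : ℕ → ℤ) (R z : ℕ) (hz : z < R) :
    g z = ∑ r : Fin R, (fwdDiff 1)^[(r : ℕ)] g 0 * (z.choose r : ℤ) := by
  have h := shift_eq_sum_fwdDiff_iter 1 g z 0
  simp only [smul_eq_mul, mul_one, zero_add, nsmul_eq_mul] at h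
  rw [h, Finset.sum_range fun r => ((z.choose r : ℕ) : ℤ) * (fwdDiff 1)^[r] g 0] 
  rw [← Finset.sum_range (fun r => ((z.choose r : ℕ) : ℤ) * (fwdDiff 1)^[r] g 0),
    ← Finset.sum_range (fun r => (fwdDiff 1)^[r] g 0 * ((z.choose r : ℕ) : ℤ))]
  have : range (z + 1) ⊆ range R := by
    intro x; simp only [mem_range]; omega
  rw [← Finset.sum_subset this]
  · exact Finset.sum_congr rfl fun _ _ => mul_comm _ _
  · intro x _ hx
    rw [Nat.choose_eq_zero_of_lt (by simpa using hx)]
    simp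

theorem gel_sum_inj {ι : Type} [Fintype ι] (f : ι → ℕ) (hf : Function.Injective f) :
    ∑ i ∈ range (Fintype.card ι), i ≤ ∑ i, f i := by
  classical
  have h := Finset.sum_range_le_sum (s := univ.image (fun i => (f i : ℤ))) (c := 0) (by
    intro x hx
    simp only [mem_image, mem_univ, true_and] at hx
    obtain ⟨i, rfl⟩ := hx
    positivity)
  have hinj : Function.Injective (fun i => (f i : ℤ)) := fun a b hab => hf (by simpa using hab)
  rw [Finset.card_image_of_injective _ hinj, Finset.sum_image (fun a _ b _ hab => hinj hab),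
    card_univ] at h
  simp only [zero_add] at h
  rw [← Nat.cast_sum, ← Nat.cast_sum] at h
  exact_mod_cast h

theorem gel_det_dvd {ι : Type} [Fintype ι] [DecidableEq ι] (kk : ι → ℕ) (f : ι → ℕ → ℤ)
    (hf : ∀ i, GelD (kk i) (f i)) (z : ι → ℕ) (T : ℕ)
    (hT : T + ∑ i, kk i ≤ ∑ i ∈ range (Fintype.card ι), i) :
    (3 : ℤ) ^ T ∣ Matrix.det (Matrix.of fun i j => f j (z i)) := by
  obtain ⟨R, hR⟩ : ∃ R, ∀ i, z i < R := by
    refine ⟨(∑ i, z i) + 1, fun i => Nat.lt_succ_of_le (Finset.single_le_sum (f := z)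
      (fun _ _ => Nat.zero_le _) (mem_univ i))⟩
  rw [← Matrix.det_transpose]
  have e : (Matrix.of fun i j => f j (z i)).transpose =
      fun j => ∑ r : Fin R, ((fwdDiff 1)^[(r : ℕ)] (f j) 0) •
        (fun i => ((z i).choose r : ℤ) : ι → ℤ) := by
    funext j i
    simp only [Matrix.transpose_apply, Matrix.of_apply, Finset.sum_apply, Pi.smul_apply,
      smul_eq_mul]
    exact gel_newton (f j) R (z i) (hR i)
  rw [e]
  have h2 := (Matrix.detRowAlternating (n := ι) (R := ℤ)).toMultilinearMap.map_sum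
    (fun (j : ι) (r : Fin R) => ((fwdDiff 1)^[(r : ℕ)] (f j) 0) •
        (fun i => ((z i).choose r : ℤ) : ι → ℤ))
  have h3 : Matrix.det (fun j => ∑ r : Fin R, ((fwdDiff 1)^[(r : ℕ)] (f j) 0) •
        (fun i => ((z i).choose r : ℤ) : ι → ℤ)) = _ := h2
  rw [h3]
  apply Finset.dvd_sum
  intro r _
  have h4 := (Matrix.detRowAlternating (n := ι) (R := ℤ)).toMultilinearMap.map_smul_univ
    (fun j => (fwdDiff 1)^[(r j : ℕ)] (f j) 0) (fun j => (fun i => ((z i).choose (r j) : ℤ)))
  rw [h4]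
  by_cases hinj : Function.Injective r
  · rw [smul_eq_mul]
    apply Dvd.dvd.mul_right
    have h5 : (3 : ℤ) ^ (∑ j, ((r j : ℕ) - kk j)) ∣
        ∏ j, (fwdDiff 1)^[(r j : ℕ)] (f j) 0 := by
      rw [← Finset.prod_pow_eq_pow_sum]
      exact Finset.prod_dvd_prod_of_dvd _ _ fun j _ => hf j (r j) 0
    refine (pow_dvd_pow _ ?_).trans h5
    have h6 := gel_sum_inj (fun j => (r j : ℕ)) (fun a b hab => hinj (Fin.ext hab))
    have h7 : ∑ j, (r j : ℕ) ≤ ∑ j, ((r j : ℕ) - kk j) + ∑ j, kk j := by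
      rw [← Finset.sum_add_distrib]
      exact Finset.sum_le_sum fun j _ => by omega
    omega
  · have hz : (Matrix.detRowAlternating (n := ι) (R := ℤ)).toMultilinearMap
        (fun j => (fun i => ((z i).choose (r j) : ℤ))) = 0 := by
      simp only [Function.Injective] at hinj
      push Not at hinj
      obtain ⟨a, b, hab, hne⟩ := hinj
      exact (Matrix.detRowAlternating (n := ι) (R := ℤ)).map_eq_zero_of_eq _ (by rw [hab]) hne
    rw [hz, smul_zero]
    exact dvd_zero _

/-! ### Part 2: the zero lemma -/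

open Polynomial in
theorem gel_det_poly_ne {d : ℕ} (Q : Fin d → ℚ[X]) (hQ : ∀ i, Q i ≠ 0) (e : Fin d → ℕ)
    (he : Function.Injective e) :
    Matrix.det (Matrix.of fun s i : Fin d => (Q i).comp (X + C ((s : ℕ) : ℚ)) *
      C (((4 : ℚ) ^ e i) ^ (s : ℕ))) ≠ 0 ∧
    (Matrix.det (Matrix.of fun s i : Fin d => (Q i).comp (X + C ((s : ℕ) : ℚ)) *
      C (((4 : ℚ) ^ e i) ^ (s : ℕ)))).natDegree ≤ ∑ i, (Q i).natDegree := by
  set D := ∑ i, (Q i).natDegree with hD
  have hcomp : ∀ (i : Fin d) (a : ℚ), ((Q i).comp (X + C a)).natDegree = (Q i).natDegree := by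
    intro i a
    rw [natDegree_comp, natDegree_X_add_C, mul_one]
  have hlead : ∀ (i : Fin d) (a : ℚ), ((Q i).comp (X + C a)).leadingCoeff = (Q i).leadingCoeff := by
    intro i a
    rw [leadingCoeff_comp (by rw [natDegree_X_add_C]; exact one_ne_zero), leadingCoeff_X_add_C,
      one_pow, mul_one]
  have hpos : ∀ (i : Fin d) (s : ℕ), ((4 : ℚ) ^ e i) ^ s ≠ 0 := by
    intro i s; positivity
  have hdeg1 : ∀ (i : Fin d) (s : ℕ), ((Q i).comp (X + C (s : ℚ)) *
      C (((4 : ℚ) ^ e i) ^ s)).natDegree = (Q i).natDegree := by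
    intro i s
    rw [natDegree_mul_C (hpos i s), hcomp]
  have hne1 : ∀ (i : Fin d) (s : ℕ), ((Q i).comp (X + C (s : ℚ)) *
      C (((4 : ℚ) ^ e i) ^ s)) ≠ 0 := by
    intro i s h
    have h1 := congrArg leadingCoeff h
    rw [leadingCoeff_mul, hlead, leadingCoeff_C, leadingCoeff_zero] at h1
    rcases mul_eq_zero.1 h1 with h2 | h2
    · exact hQ i (leadingCoeff_eq_zero.1 h2)
    · exact hpos i s h2
  have hprod : ∀ σ : Equiv.Perm (Fin d), (∏ i, ((Q i).comp (X + C (((σ i : Fin d) : ℕ) : ℚ)) *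
      C (((4 : ℚ) ^ e i) ^ ((σ i : Fin d) : ℕ)))).natDegree = D := by
    intro σ
    rw [natDegree_prod _ _ fun i _ => hne1 i _]
    exact Finset.sum_congr rfl fun i _ => hdeg1 i _
  have hcoef : ∀ σ : Equiv.Perm (Fin d), (∏ i, ((Q i).comp (X + C (((σ i : Fin d) : ℕ) : ℚ)) *
      C (((4 : ℚ) ^ e i) ^ ((σ i : Fin d) : ℕ)))).coeff D =
      (∏ i, (Q i).leadingCoeff) * ∏ i, ((4 : ℚ) ^ e i) ^ ((σ i : Fin d) : ℕ) := by
    intro σ
    rw [← hprod σ, coeff_natDegree, leadingCoeff_prod, ← Finset.prod_mul_distrib]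
    apply Finset.prod_congr rfl
    intro i _
    rw [leadingCoeff_mul, hlead, leadingCoeff_C]
  constructor
  · intro h0
    have h1 := congrArg (fun p : ℚ[X] => p.coeff D) h0
    simp only [coeff_zero] at h1
    rw [Matrix.det_apply, finsetSum_coeff] at h1
    simp only [Matrix.of_apply] at h1
    have h2 : ∀ σ ∈ (univ : Finset (Equiv.Perm (Fin d))),
        (Equiv.Perm.sign σ • ∏ i, ((Q i).comp (X + C (((σ i : Fin d) : ℕ) : ℚ)) *
          C (((4 : ℚ) ^ e i) ^ ((σ i : Fin d) : ℕ)))).coeff D =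
        (∏ i, (Q i).leadingCoeff) * (Equiv.Perm.sign σ •
          ∏ i, ((4 : ℚ) ^ e i) ^ ((σ i : Fin d) : ℕ)) := by
      intro σ _
      rw [coeff_smul, hcoef σ]
      rw [mul_smul_comm]
    rw [Finset.sum_congr rfl h2, ← Finset.mul_sum] at h1
    rcases mul_eq_zero.1 h1 with h3 | h3
    · rw [Finset.prod_eq_zero_iff] at h3
      obtain ⟨i, _, hi⟩ := h3
      exact hQ i (leadingCoeff_eq_zero.1 hi)
    · have h4 : (Matrix.vandermonde (fun i : Fin d => (4 : ℚ) ^ e i)).transpose.det = 0 := by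
        rw [Matrix.det_apply]
        simpa [Matrix.vandermonde_apply] using h3
      rw [Matrix.det_transpose] at h4
      have h5 : Function.Injective (fun i : Fin d => (4 : ℚ) ^ e i) := by
        intro a b hab
        exact he (pow_right_injective₀ (by norm_num) (by norm_num) hab)
      exact (Matrix.det_vandermonde_ne_zero_iff.2 h5) h4
  · rw [Matrix.det_apply]
    apply natDegree_sum_le_of_forall_le
    intro σ _
    refine (natDegree_smul_le _ _).trans ?_
    simp only [Matrix.of_apply]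
    rw [hprod σ]

open Polynomial in
theorem gel_zero (K L U V m : ℕ) (th : ℚ) (hth : th ≠ 0) (hVm : V ≤ m) (hLV : L ≤ V)
    (hcard : (K - 1) * L < U * (V - L + 1)) (p : Fin L → ℚ[X]) (hdeg : ∀ l, (p l).natDegree ≤ K - 1)
    (hp : ∀ u < U, ∀ v < V, ∑ l, (p l).eval ((m : ℚ) * u + v) * (th ^ u * 4 ^ v) ^ (l : ℕ) = 0) :
    ∀ l, p l = 0 := by
  classical
  by_contra hcon
  push Not at hcon
  set S : Finset (Fin L) := univ.filter (fun l => p l ≠ 0) with hS
  have hSne : S.Nonempty := by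
    obtain ⟨l, hl⟩ := hcon
    exact ⟨l, by simp [hS, hl]⟩
  set d := S.card with hd
  have hd1 : 1 ≤ d := hSne.card_pos
  have hdL : d ≤ L := by
    have := Finset.card_le_univ S
    simpa using this
  let en : Fin d ≃ S := (Finset.equivFin S).symm
  let Q : Fin d → ℚ[X] := fun i => p (en i)
  let e : Fin d → ℕ := fun i => ((en i : Fin L) : ℕ)
  have hQ : ∀ i, Q i ≠ 0 := fun i => by
    have := (en i).2
    simp only [hS, mem_filter, mem_univ, true_and] at this
    exact this
  have he : Function.Injective e := by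
    intro a b hab
    exact en.injective (Subtype.ext (Fin.ext hab))
  obtain ⟨hne, hdegD⟩ := gel_det_poly_ne Q hQ e he
  set Δ := Matrix.det (Matrix.of fun s i : Fin d => (Q i).comp (X + C ((s : ℕ) : ℚ)) *
      C (((4 : ℚ) ^ e i) ^ (s : ℕ))) with hΔ
  have hdegD' : Δ.natDegree ≤ (K - 1) * L := by
    refine hdegD.trans ?_
    calc ∑ i, (Q i).natDegree ≤ ∑ i : Fin d, (K - 1) := Finset.sum_le_sum fun i _ => hdeg _
      _ = d * (K - 1) := by simp
      _ ≤ (K - 1) * L := by rw [mul_comm]; exact Nat.mul_le_mul_left _ hdL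
  -- roots
  have hroot : ∀ u < U, ∀ v < V - L + 1, Δ.eval ((m : ℚ) * u + v) = 0 := by
    intro u hu v hv
    have h1 : Δ.eval ((m : ℚ) * u + v) = Matrix.det (Matrix.of fun s i : Fin d =>
        (Q i).eval ((m : ℚ) * u + v + s) * ((4 : ℚ) ^ e i) ^ (s : ℕ)) := by
      rw [hΔ]
      have := (evalRingHom ((m : ℚ) * u + v)).map_det (Matrix.of fun s i : Fin d =>
        (Q i).comp (X + C ((s : ℕ) : ℚ)) * C (((4 : ℚ) ^ e i) ^ (s : ℕ)))
      rw [coe_evalRingHom] at this
      rw [this]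
      congr 1
      ext s i
      simp [Matrix.of_apply, RingHom.mapMatrix_apply]
    rw [h1]
    apply Matrix.exists_mulVec_eq_zero_iff.1
    refine ⟨fun i => (th ^ u * 4 ^ v) ^ e i, ?_, ?_⟩
    · intro h0
      have := congrFun h0 ⟨0, hd1⟩
      simp only [Pi.zero_apply] at this
      have h4 : th ^ u * (4 : ℚ) ^ v ≠ 0 := mul_ne_zero (pow_ne_zero _ hth) (by positivity)
      exact pow_ne_zero _ h4 this
    · funext s
      simp only [Matrix.mulVec, dotProduct, Matrix.of_apply, Pi.zero_apply]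
      have h2 := hp u hu (v + s) (by have := s.2; omega)
      have h3 : ∑ l, (p l).eval ((m : ℚ) * u + ((v + s : ℕ) : ℚ)) *
          (th ^ u * 4 ^ (v + (s : ℕ))) ^ (l : ℕ) =
          ∑ l ∈ S, (p l).eval ((m : ℚ) * u + ((v + s : ℕ) : ℚ)) *
          (th ^ u * 4 ^ (v + (s : ℕ))) ^ (l : ℕ) := by
        symm
        apply Finset.sum_subset (Finset.subset_univ _)
        intro l _ hl
        simp only [hS, mem_filter, mem_univ, true_and, not_not] at hl
        simp [hl]
      rw [h3] at h2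
      rw [← h2, ← Finset.sum_coe_sort S, ← en.sum_comp]
      apply Finset.sum_congr rfl
      intro i _
      simp only [Q, e]
      push_cast
      rw [pow_add, ← add_assoc]
      ring
  apply hne
  let g : Fin U × Fin (V - L + 1) → ℚ := fun x => (m : ℚ) * (x.1 : ℕ) + (x.2 : ℕ)
  apply eq_zero_of_natDegree_lt_card_of_eval_eq_zero Δ (f := g)
  · rintro ⟨u, v⟩ ⟨u', v'⟩ h
    simp only [g] at h
    have h' : m * (u : ℕ) + (v : ℕ) = m * (u' : ℕ) + (v' : ℕ) := by exact_mod_cast h
    have hL1 : 1 ≤ L := hd1.trans hdL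
    have hv : (v : ℕ) < m := by have := v.2; omega
    have hv' : (v' : ℕ) < m := by have := v'.2; omega
    have hm : 0 < m := by omega
    have e1 : (u : ℕ) = u' := by
      have := congrArg (· / m) h'
      simp only [Nat.mul_add_div hm, Nat.div_eq_of_lt hv, Nat.div_eq_of_lt hv', add_zero] at this
      exact this
    have e2 : (v : ℕ) = v' := by rw [e1] at h'; omega
    exact Prod.ext (Fin.ext e1) (Fin.ext e2)
  · rintro ⟨u, v⟩
    exact hroot u u.2 v v.2
  · simp only [Fintype.card_prod, Fintype.card_fin]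
    omega

/-! ### Part 3: a nonzero minor -/

theorem gel_minor {ρ ι : Type} [Fintype ρ] [Fintype ι] [DecidableEq ι] (A : Matrix ρ ι ℚ)
    (h : ∀ p : ι → ℚ, A.mulVec p = 0 → p = 0) :
    ∃ a : ι → ρ, (A.submatrix a id).det ≠ 0 := by
  classical
  have hspan : Submodule.span ℚ (Set.range A) = ⊤ := by
    apply Submodule.eq_top_of_finrank_eq
    have h1 := Matrix.rank_eq_finrank_span_row A
    have h2 : A.rank = Fintype.card ι := by
      rw [Matrix.rank]
      have hinj : Function.Injective A.mulVecLin := by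
        rw [← LinearMap.ker_eq_bot, LinearMap.ker_eq_bot']
        intro p hp
        exact h p (by simpa using hp)
      rw [LinearMap.finrank_range_of_inj hinj]
      simp
    have h3 : Module.finrank ℚ (Submodule.span ℚ (Set.range A)) = A.rank := by
      rw [h1]; rfl
    rw [h3, h2]
    simp
  obtain ⟨κ, a, ha, hsp, hli⟩ := exists_linearIndependent' ℚ (fun i => A i)
  have hsp' : ⊤ ≤ Submodule.span ℚ (Set.range ((fun i => A i) ∘ a)) := by
    rw [hsp]
    exact hspan.ge
  let b := Module.Basis.mk hli hsp'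
  have : Fintype κ := Fintype.ofInjective a ha
  have hcard : Fintype.card κ = Fintype.card ι := by
    have h1 := Module.finrank_eq_card_basis b
    rw [← h1]
    simp
  let e : ι ≃ κ := (Fintype.equivOfCardEq hcard).symm
  refine ⟨a ∘ e, ?_⟩
  have hli2 : LinearIndependent ℚ (((fun i => A i) ∘ a) ∘ e) := hli.comp e e.injective
  have hli3 : LinearIndependent ℚ (A.submatrix (a ∘ e) id).row := hli2
  rw [Matrix.linearIndependent_rows_iff_isUnit, Matrix.isUnit_iff_isUnit_det] at hli3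
  exact hli3.ne_zero

/-! ### Part 4: assembly -/

/-- the interpolation matrix -/
def gelA (m c : ℕ) (B : ℤ) (K L U V : ℕ) : Matrix (Fin U × Fin V) (Fin K × Fin L) ℤ :=
  Matrix.of fun x y => ((m * (x.1 : ℕ) + (x.2 : ℕ) : ℕ) : ℤ) ^ (y.1 : ℕ) *
    (B ^ (x.1 : ℕ) * 4 ^ (x.2 : ℕ)) ^ (y.2 : ℕ) * (c : ℤ) ^ ((x.1 : ℕ) * (L - 1 - (y.2 : ℕ)))

open Polynomial in
theorem gelA_inj (m c : ℕ) (B : ℤ) (K L U V : ℕ) (hc : 0 < c) (hB : B ≠ 0) (hVm : V ≤ m)
    (hLV : L ≤ V) (hcard : (K - 1) * L < U * (V - L + 1)) (p : Fin K × Fin L → ℚ)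
    (hp : ((gelA m c B K L U V).map (Int.cast : ℤ → ℚ)).mulVec p = 0) : p = 0 := by
  have hcq : (c : ℚ) ≠ 0 := by positivity
  have hBq : (B : ℚ) ≠ 0 := by exact_mod_cast hB
  have key := gel_zero K L U V m ((B : ℚ) / c) (div_ne_zero hBq hcq) hVm hLV hcard
    (fun l => ∑ k : Fin K, C (p (k, l)) * X ^ (k : ℕ)) ?_ ?_
  · funext ⟨k, l⟩
    have h1 := congrArg (fun P : ℚ[X] => P.coeff (k : ℕ)) (key l)
    simp only [finsetSum_coeff, coeff_C_mul, coeff_X_pow, coeff_zero] at h1
    rw [Finset.sum_eq_single k] at h1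
    · simpa using h1
    · intro b _ hb
      have : ¬ ((k : ℕ) = (b : ℕ)) := fun h => hb (Fin.ext h.symm)
      simp [this]
    · simp
  · intro l
    apply natDegree_sum_le_of_forall_le
    intro k _
    refine (natDegree_C_mul_X_pow_le _ _).trans ?_
    have := k.2
    omega
  · intro u hu v hv
    have h1 := congrFun hp (⟨u, hu⟩, ⟨v, hv⟩)
    simp only [Matrix.mulVec, dotProduct, Matrix.map_apply, gelA, Matrix.of_apply,
      Pi.zero_apply] at h1
    push_cast at h1
    have hcu : (c : ℚ) ^ (u * (L - 1)) ≠ 0 := pow_ne_zero _ hcq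
    have h2 : ∑ l : Fin L, eval ((m : ℚ) * u + v) (∑ k : Fin K, C (p (k, l)) * X ^ (k : ℕ)) *
        (((B : ℚ) / c) ^ u * 4 ^ v) ^ (l : ℕ) * (c : ℚ) ^ (u * (L - 1)) = 0 := by
      rw [← h1, Fintype.sum_prod_type, Finset.sum_comm]
      apply Finset.sum_congr rfl
      intro l _
      rw [eval_finsetSum, Finset.sum_mul, Finset.sum_mul]
      apply Finset.sum_congr rfl
      intro k _
      simp only [eval_mul, eval_C, eval_pow, eval_X]
      have hl : u * (L - 1) = u * (l : ℕ) + u * (L - 1 - (l : ℕ)) := by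
        rw [← Nat.mul_add]
        congr 1
        have := l.2
        omega
      rw [hl, pow_add]
      have h3 : (((B : ℚ) / c) ^ u * 4 ^ v) ^ (l : ℕ) * (c : ℚ) ^ (u * (l : ℕ)) =
          ((B : ℚ) ^ u * 4 ^ v) ^ (l : ℕ) := by
        rw [pow_mul, ← mul_pow]
        congr 1
        rw [div_pow]
        field_simp
      rw [← h3]
      ring
    rw [← Finset.sum_mul] at h2
    exact (mul_eq_zero.1 h2).resolve_right hcu

theorem gel_sum_fst (K L : ℕ) : 2 * ∑ y : Fin K × Fin L, (y.1 : ℕ) = L * (K * (K - 1)) := by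
  rw [Fintype.sum_prod_type]
  simp only [Finset.sum_const, card_univ, Fintype.card_fin, smul_eq_mul]
  rw [← Finset.mul_sum, Fin.sum_univ_eq_sum_range (fun i => i) K, Finset.sum_range_id]
  have h : 2 ∣ K * (K - 1) := by
    rcases Nat.even_or_odd K with h | h
    · exact Dvd.dvd.mul_right h.two_dvd _
    · exact Dvd.dvd.mul_left (Nat.Odd.sub_odd h odd_one).two_dvd _
  obtain ⟨t, ht⟩ := h
  rw [ht, Nat.mul_div_cancel_left _ (by norm_num)]
  ring

theorem gel_core (q m c : ℕ) (B : ℤ) (hq : 1 ≤ q) (hm : m + 1 ≤ 2 ^ q) (hc0 : 0 < c)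
    (hc : c ≤ 2 ^ q) (hB0 : B ≠ 0) (hB : B.natAbs ≤ 2 ^ q) (hne : (c : ℤ) * 4 ^ m ≠ B) (P : ℕ)
    (hP : (3 : ℤ) ^ P ∣ (c : ℤ) * 4 ^ m - B) : P ≤ 2 ^ 36 * q ^ 6 := by
  have hq6 : q ≤ q ^ 6 := Nat.le_self_pow (by norm_num) q
  have hq26 : q ^ 2 ≤ q ^ 6 := Nat.pow_le_pow_right hq (by norm_num)
  rcases Nat.lt_or_ge m (512 * q ^ 2) with hmV | hmV
  · -- trivial bound
    have h1 : (3 : ℤ) ^ P ≤ |(c : ℤ) * 4 ^ m - B| :=
      Int.le_of_dvd (abs_pos.2 (sub_ne_zero.2 hne)) ((dvd_abs _ _).2 hP)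
    have h2 : |(c : ℤ) * 4 ^ m - B| ≤ 2 ^ (q + 1 + 2 * m) := by
      have hB' : |B| ≤ 2 ^ q := by
        rw [Int.abs_eq_natAbs]; exact_mod_cast hB
      have hc' : (c : ℤ) ≤ 2 ^ q := by exact_mod_cast hc
      calc |(c : ℤ) * 4 ^ m - B| ≤ |(c : ℤ) * 4 ^ m| + |B| := abs_sub _ _
        _ = (c : ℤ) * 4 ^ m + |B| := by rw [abs_of_nonneg (by positivity)]
        _ ≤ 2 ^ q * 4 ^ m + 2 ^ q * 4 ^ m := by
          apply add_le_add
          · exact mul_le_mul_of_nonneg_right hc' (by positivity)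
          · refine hB'.trans ?_
            exact le_mul_of_one_le_right (by positivity) (one_le_pow₀ (by norm_num))
        _ = 2 ^ (q + 1 + 2 * m) := by
          rw [show (4 : ℤ) = 2 ^ 2 by norm_num, ← pow_mul]
          ring
    have h3 : (2 : ℤ) ^ P ≤ 2 ^ (q + 1 + 2 * m) :=
      (pow_le_pow_left₀ (by norm_num) (by norm_num) P).trans (h1.trans h2)
    have h4 : P ≤ q + 1 + 2 * m := by
      rwa [pow_le_pow_iff_right₀ (by norm_num)] at h3
    omega
  · by_contra hcon
    push Not at hcon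
    set K := 8192 * q ^ 2 with hK
    set L := 32 * q with hL
    set U := 1024 * q with hU
    set V := 512 * q ^ 2 with hV
    set N := K * L with hN
    set T := N * (4096 * q ^ 2 * (L - 1)) with hT
    have hL1 : 1 ≤ L := by omega
    have hLV : L ≤ V := by
      rw [hL, hV]; nlinarith
    have hTP : T ≤ P := by
      have : T ≤ 2 ^ 35 * q ^ 6 := by
        calc T ≤ N * (4096 * q ^ 2 * L) := by
              rw [hT]
              exact Nat.mul_le_mul_left _ (Nat.mul_le_mul_left _ (Nat.sub_le _ _))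
          _ = 2 ^ 35 * q ^ 6 := by
              rw [hN, hK, hL]; ring
      have h2 : 2 ^ 35 * q ^ 6 ≤ 2 ^ 36 * q ^ 6 := Nat.mul_le_mul_right _ (by norm_num)
      omega
    have hcard : (K - 1) * L < U * (V - L + 1) := by
      have h1 : (K - 1) * L ≤ 262144 * q ^ 3 := by
        calc (K - 1) * L ≤ K * L := Nat.mul_le_mul_right _ (Nat.sub_le _ _)
          _ = 262144 * q ^ 3 := by rw [hK, hL]; ring
      obtain ⟨t, ht⟩ : ∃ t, V = L + t := ⟨V - L, by omega⟩
      have e1 : V - L + 1 = t + 1 := by omega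
      have h2 : U * V = U * L + U * t := by rw [ht]; ring
      have h3 : U * V = 524288 * q ^ 3 := by rw [hU, hV]; ring
      have h4 : U * L = 32768 * q ^ 2 := by rw [hU, hL]; ring
      have h5 : q ^ 2 ≤ q ^ 3 := Nat.pow_le_pow_right hq (by norm_num)
      rw [e1, Nat.mul_add, mul_one]
      omega
    obtain ⟨a, ha⟩ := gel_minor _ (gelA_inj m c B K L U V hc0 hB0 hmV hLV hcard)
    set A' := (gelA m c B K L U V).submatrix a id with hA'
    have hD0 : A'.det ≠ 0 := by
      intro h0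
      apply ha
      have := (Int.castRingHom ℚ).map_det A'
      rw [h0, map_zero] at this
      rw [this]
      rfl
    -- divisibility
    have hdvd : (3 : ℤ) ^ T ∣ A'.det := by
      have hF := gel_det_dvd (ι := Fin K × Fin L) (fun y => (y.1 : ℕ))
        (fun y z => (z : ℤ) ^ (y.1 : ℕ) * 4 ^ ((y.2 : ℕ) * z)) (fun y => gel_fun _ _)
        (fun i => m * ((a i).1 : ℕ) + ((a i).2 : ℕ)) T ?_
      · have h1 : ((3 ^ T : ℕ) : ℤ) ∣ A'.det := by
          rw [← ZMod.intCast_zmod_eq_zero_iff_dvd]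
          set φ := Int.castRingHom (ZMod (3 ^ T)) with hφ
          have hcB : φ (c : ℤ) * 4 ^ m = φ B := by
            have h2 : φ ((c : ℤ) * 4 ^ m - B) = 0 := by
              rw [hφ, eq_intCast, ZMod.intCast_zmod_eq_zero_iff_dvd]
              push_cast
              exact (pow_dvd_pow _ hTP).trans hP
            rw [map_sub, map_mul, map_pow, map_ofNat, sub_eq_zero] at h2
            exact h2
          have h3 : φ A'.det = (∏ i, φ (c : ℤ) ^ (((a i).1 : ℕ) * (L - 1))) *
              φ (Matrix.det (Matrix.of fun i j : Fin K × Fin L =>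
                ((m * ((a i).1 : ℕ) + ((a i).2 : ℕ) : ℕ) : ℤ) ^ (j.1 : ℕ) *
                4 ^ ((j.2 : ℕ) * (m * ((a i).1 : ℕ) + ((a i).2 : ℕ))))) := by
            rw [φ.map_det, φ.map_det, ← Matrix.det_mul_column]
            congr 1
            ext i j
            simp only [hA', gelA, RingHom.mapMatrix_apply, Matrix.map_apply,
              Matrix.submatrix_apply, Matrix.of_apply, id, map_mul, map_pow, ← hcB]
            have hl : ((a i).1 : ℕ) * (L - 1) =
                ((a i).1 : ℕ) * (j.2 : ℕ) + ((a i).1 : ℕ) * (L - 1 - (j.2 : ℕ)) := by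
              rw [← Nat.mul_add]
              congr 1
              have := j.2.2
              omega
            rw [hl, pow_add]
            have h4 : φ 4 = 4 := map_ofNat φ 4
            rw [h4]
            ring
          have h5 : φ (Matrix.det (Matrix.of fun i j : Fin K × Fin L =>
                ((m * ((a i).1 : ℕ) + ((a i).2 : ℕ) : ℕ) : ℤ) ^ (j.1 : ℕ) *
                4 ^ ((j.2 : ℕ) * (m * ((a i).1 : ℕ) + ((a i).2 : ℕ))))) = 0 := by
            rw [hφ, eq_intCast, ZMod.intCast_zmod_eq_zero_iff_dvd]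
            push_cast
            push_cast at hF
            exact hF
          rw [h5, mul_zero] at h3
          exact h3
        exact_mod_cast h1
      · -- exponent count
        have h1 := gel_sum_fst K L
        have h2 : 2 * ∑ i ∈ range (Fintype.card (Fin K × Fin L)), i = N * (N - 1) := by
          rw [Fintype.card_prod, Fintype.card_fin, Fintype.card_fin, Finset.sum_range_id]
          have h : 2 ∣ N * (N - 1) := by
            rcases Nat.even_or_odd N with h | h
            · exact Dvd.dvd.mul_right h.two_dvd _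
            · exact Dvd.dvd.mul_left (Nat.Odd.sub_odd h odd_one).two_dvd _
          exact Nat.mul_div_cancel' h
        have hK1 : 1 ≤ K := by
          rw [hK]; have : 1 ≤ q ^ 2 := Nat.one_le_pow _ _ hq
          omega
        have hN1 : 1 ≤ N := Nat.mul_pos hK1 hL1
        obtain ⟨K1, hK1'⟩ : ∃ K1, K = K1 + 1 := ⟨K - 1, by omega⟩
        obtain ⟨L1, hL1'⟩ : ∃ L1, L = L1 + 1 := ⟨L - 1, by omega⟩
        obtain ⟨N1, hN1'⟩ : ∃ N1, N = N1 + 1 := ⟨N - 1, by omega⟩
        have h3 : 2 * T = N * (K * L1) := by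
          rw [hT, hL1', Nat.add_sub_cancel]
          have : K = 2 * (4096 * q ^ 2) := by rw [hK]; ring
          rw [this]; ring
        have h4 : L * (K * (K - 1)) = N * K1 := by
          rw [hN, hK1', Nat.add_sub_cancel]; ring
        have h5 : N * (N - 1) = N * N1 := by
          rw [hN1', Nat.add_sub_cancel]
        have h6 : N1 = K * L1 + K1 := by
          have : N1 + 1 = K * (L1 + 1) := by rw [← hN1', ← hL1']
          rw [Nat.mul_add, mul_one] at this
          omega
        have h7 : N * N1 = N * (K * L1) + N * K1 := by rw [h6]; ring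
        omega
    -- size
    have hsize : |A'.det| ≤ ((N.factorial : ℕ) : ℤ) * (2 ^ ((2 * q + 11) * K +
        (q * U + 2 * V) * (L - 1))) ^ N := by
      have h1 := Matrix.det_le (A := A') (abv := (AbsoluteValue.abs : AbsoluteValue ℤ ℤ))
        (x := (2 : ℤ) ^ ((2 * q + 11) * K + (q * U + 2 * V) * (L - 1))) ?_
      · simpa [Fintype.card_prod, ← hN, nsmul_eq_mul] using h1
      · intro i j
        show |A' i j| ≤ _
        simp only [hA', gelA, Matrix.submatrix_apply, Matrix.of_apply, id]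
        set u := ((a i).1 : ℕ) with hu
        set v := ((a i).2 : ℕ) with hv
        set k := (j.1 : ℕ) with hk
        set l := (j.2 : ℕ) with hl
        have hu' : u < U := (a i).1.2
        have hv' : v < V := (a i).2.2
        have hk' : k < K := j.1.2
        have hl' : l < L := j.2.2
        rw [abs_mul, abs_mul, abs_pow, abs_pow, abs_pow, abs_mul, abs_pow, abs_pow,
          Nat.abs_cast, Nat.abs_cast]
        have z1 : ((m * u + v : ℕ) : ℤ) ^ k ≤ 2 ^ ((2 * q + 11) * K) := by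
          have h2 : m * u + v ≤ 2 ^ (2 * q + 11) := by
            have h3 : m * u + v ≤ m * (U + 1) := by
              have : m * u ≤ m * U := Nat.mul_le_mul_left _ hu'.le
              rw [Nat.mul_add, mul_one]
              omega
            have h4 : U + 1 ≤ 2 ^ (q + 11) := by
              have : q < 2 ^ q := Nat.lt_two_pow_self
              rw [pow_add]
              have e : (2 : ℕ) ^ 11 = 2048 := by norm_num
              rw [e, hU]
              omega
            calc m * u + v ≤ m * (U + 1) := h3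
              _ ≤ 2 ^ q * 2 ^ (q + 11) := Nat.mul_le_mul (by omega) h4
              _ = 2 ^ (2 * q + 11) := by rw [← pow_add]; congr 1; ring
          calc ((m * u + v : ℕ) : ℤ) ^ k ≤ ((2 : ℤ) ^ (2 * q + 11)) ^ k := by
                apply pow_le_pow_left₀ (by positivity)
                exact_mod_cast h2
            _ ≤ ((2 : ℤ) ^ (2 * q + 11)) ^ K :=
                pow_le_pow_right₀ (one_le_pow₀ (by norm_num)) hk'.le
            _ = _ := by rw [← pow_mul]
        have hB' : |B| ≤ 2 ^ q := by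
          rw [Int.abs_eq_natAbs]; exact_mod_cast hB
        have hc' : (c : ℤ) ≤ 2 ^ q := by exact_mod_cast hc
        have z2 : (|B| ^ u * |4| ^ v) ^ l ≤ (2 : ℤ) ^ ((q * U + 2 * V) * l) := by
          rw [pow_mul 2 (q * U + 2 * V) l]
          apply pow_le_pow_left₀ (by positivity)
          have e0 : (2 : ℤ) ^ (q * U + 2 * V) = (2 ^ q) ^ U * 4 ^ V := by
            rw [pow_add, pow_mul 2 q U, pow_mul 2 2 V]; norm_num
          rw [e0]
          apply mul_le_mul
          · calc |B| ^ u ≤ (2 ^ q) ^ u := pow_le_pow_left₀ (abs_nonneg _) hB' _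
              _ ≤ (2 ^ q) ^ U := pow_le_pow_right₀ (one_le_pow₀ (by norm_num)) hu'.le
          · norm_num
            exact pow_le_pow_right₀ (by norm_num) hv'.le
          · positivity
          · positivity
        have z3 : (c : ℤ) ^ (u * (L - 1 - l)) ≤ 2 ^ ((q * U + 2 * V) * (L - 1 - l)) := by
          rw [pow_mul _ u (L - 1 - l), pow_mul 2 (q * U + 2 * V) (L - 1 - l)]
          apply pow_le_pow_left₀ (by positivity)
          calc (c : ℤ) ^ u ≤ (2 ^ q) ^ u := pow_le_pow_left₀ (by positivity) hc' _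
            _ ≤ (2 ^ q) ^ U := pow_le_pow_right₀ (one_le_pow₀ (by norm_num)) hu'.le
            _ = 2 ^ (q * U) := by rw [← pow_mul]
            _ ≤ 2 ^ (q * U + 2 * V) := pow_le_pow_right₀ (by norm_num) (Nat.le_add_right _ _)
        have e : (2 : ℤ) ^ ((2 * q + 11) * K + (q * U + 2 * V) * (L - 1)) =
            2 ^ ((2 * q + 11) * K) * 2 ^ ((q * U + 2 * V) * l) *
              2 ^ ((q * U + 2 * V) * (L - 1 - l)) := by
          rw [← pow_add, ← pow_add]
          congr 1
          have : (q * U + 2 * V) * (L - 1) = (q * U + 2 * V) * l +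
              (q * U + 2 * V) * (L - 1 - l) := by
            rw [← Nat.mul_add]
            congr 1
            omega
          omega
        rw [e]
        apply mul_le_mul (mul_le_mul z1 z2 (by positivity) (by positivity)) z3 (by positivity)
          (by positivity)
    have hlow : (3 : ℤ) ^ T ≤ |A'.det| := Int.le_of_dvd (abs_pos.2 hD0) ((dvd_abs _ _).2 hdvd)
    have hfact : ((N.factorial : ℕ) : ℤ) ≤ (2 ^ (18 + 3 * q)) ^ N := by
      have h1 : N.factorial ≤ N ^ N := Nat.factorial_le_pow N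
      have h2 : N ≤ 2 ^ (18 + 3 * q) := by
        have h3 : q ^ 3 ≤ (2 ^ q) ^ 3 := Nat.pow_le_pow_left (Nat.lt_two_pow_self).le 3
        calc N = 2 ^ 18 * q ^ 3 := by rw [hN, hK, hL]; ring
          _ ≤ 2 ^ 18 * (2 ^ q) ^ 3 := Nat.mul_le_mul_left _ h3
          _ = 2 ^ (18 + 3 * q) := by rw [← pow_mul, ← pow_add]; congr 1; ring
      have h4 : N.factorial ≤ (2 ^ (18 + 3 * q)) ^ N := h1.trans (Nat.pow_le_pow_left h2 N)
      exact_mod_cast h4
    have hup : (3 : ℤ) ^ T ≤ 2 ^ (N * (18 + 3 * q + ((2 * q + 11) * K +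
        (q * U + 2 * V) * (L - 1)))) := by
      refine (hlow.trans hsize).trans ?_
      refine (mul_le_mul_of_nonneg_right hfact (by positivity)).trans ?_
      rw [← mul_pow, ← pow_add, ← pow_mul, mul_comm N]
    have hbig : (2 : ℤ) ^ (N * (6144 * q ^ 2 * (L - 1))) ≤ 3 ^ T := by
      have e1 : N * (6144 * q ^ 2 * (L - 1)) = 3 * (N * (2048 * q ^ 2 * (L - 1))) := by ring
      have e2 : T = 2 * (N * (2048 * q ^ 2 * (L - 1))) := by rw [hT]; ring
      rw [e1, e2, pow_mul 2 3, pow_mul 3 2]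
      exact pow_le_pow_left₀ (by norm_num) (by norm_num) _
    have hcmp : N * (6144 * q ^ 2 * (L - 1)) ≤ N * (18 + 3 * q + ((2 * q + 11) * K +
        (q * U + 2 * V) * (L - 1))) := by
      have := hbig.trans hup
      rwa [pow_le_pow_iff_right₀ (by norm_num)] at this
    have hNpos : 0 < N := by
      rw [hN, hK, hL]; positivity
    have hcmp' := Nat.le_of_mul_le_mul_left hcmp hNpos
    -- numeric contradiction
    obtain ⟨L1, hL1'⟩ : ∃ L1, L = L1 + 1 := ⟨L - 1, by omega⟩
    have eL : L - 1 = L1 := by omega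
    rw [eL] at hcmp'
    have e1 : 6144 * q ^ 2 * L1 + 6144 * q ^ 2 = 196608 * q ^ 3 := by
      have : 6144 * q ^ 2 * L1 + 6144 * q ^ 2 = 6144 * q ^ 2 * L := by rw [hL1']; ring
      rw [this, hL]; ring
    have e2 : (2 * q + 11) * K = 16384 * q ^ 3 + 90112 * q ^ 2 := by rw [hK]; ring
    have e3 : (q * U + 2 * V) * L1 + 2048 * q ^ 2 = 65536 * q ^ 3 := by
      have : (q * U + 2 * V) * L1 + 2048 * q ^ 2 = 2048 * q ^ 2 * L := by
        rw [hL1', hU, hV]; ring
      rw [this, hL]; ring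
    have h5 : q ^ 2 ≤ q ^ 3 := Nat.pow_le_pow_right hq (by norm_num)
    have h6 : q ≤ q ^ 3 := Nat.le_self_pow (by norm_num) q
    have h7 : 1 ≤ q ^ 3 := Nat.one_le_pow _ _ hq
    omega

/-- **Gelfond-type lemma** (3-adic estimate of `c 4^m - B`). -/
theorem gelfond : ∃ C : ℕ, ∀ (m c : ℕ) (B : ℤ), 0 < c → (c : ℤ) * 4 ^ m ≠ B →
    padicValInt 3 ((c : ℤ) * 4 ^ m - B) ≤
      C * (1 + Nat.log 2 (m + 1) + Nat.log 2 c + Nat.log 2 (B.natAbs + 1)) ^ 6 := by
  refine ⟨2 ^ 36, ?_⟩
  intro m c B hc hne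
  set q := 1 + Nat.log 2 (m + 1) + Nat.log 2 c + Nat.log 2 (B.natAbs + 1) with hq
  set P := padicValInt 3 ((c : ℤ) * 4 ^ m - B) with hP
  have hdvd : (3 : ℤ) ^ P ∣ (c : ℤ) * 4 ^ m - B := by
    rw [hP]
    exact_mod_cast padicValInt_dvd (p := 3) ((c : ℤ) * 4 ^ m - B)
  have hlog : ∀ n : ℕ, n < 2 ^ (Nat.log 2 n + 1) := fun n =>
    Nat.lt_pow_succ_log_self (by norm_num) n
  have h1 : m + 1 ≤ 2 ^ q :=
    (hlog (m + 1)).le.trans (Nat.pow_le_pow_right (by norm_num) (by omega))
  have h2 : c ≤ 2 ^ q :=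
    (hlog c).le.trans (Nat.pow_le_pow_right (by norm_num) (by omega))
  have h3 : B.natAbs ≤ 2 ^ q :=
    (Nat.le_succ _).trans ((hlog (B.natAbs + 1)).le.trans
      (Nat.pow_le_pow_right (by norm_num) (by omega)))
  by_cases hB : B = 0
  · subst hB
    rw [sub_zero] at hdvd
    have h4 : IsCoprime ((3 : ℤ) ^ P) (4 ^ m) := by
      apply IsCoprime.pow
      norm_num
    have h5 : (3 : ℤ) ^ P ∣ c := h4.dvd_of_dvd_mul_right hdvd
    have h6 : (3 : ℤ) ^ P ≤ c := Int.le_of_dvd (by exact_mod_cast hc) h5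
    have h7 : 3 ^ P ≤ c := by exact_mod_cast h6
    have h8 : 2 ^ P ≤ 2 ^ q :=
      (Nat.pow_le_pow_left (by norm_num) P).trans (h7.trans h2)
    have h9 : P ≤ q := by
      rwa [pow_le_pow_iff_right₀ (by norm_num)] at h8
    have h10 : q ≤ q ^ 6 := Nat.le_self_pow (by norm_num) q
    omega
  · exact gel_core q m c B (by omega) h1 hc h2 hB h3 hne P hdvd

end Pool.Agent.Lib.MP_ed49ca_nt
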